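import Pool.Agent.SigF.Pw
import Pool.Agent.Helper48.PS.Defs

/-!
In the two-element algebra the Boolean-valued statement is the statement of the problem.
-/

namespace Pool.Agent.SigF

open Set Topology Pool.Agent.Sc72 Pool.Agent.Helper48.PS

namespace San

/-! ### Basic open covers -/

section basic

variable {E C : Type} [TopologicalSpace E] {b : C → Set E}

omit [TopologicalSpace E] in
/-- From finite subfamilies of a cover by basic sets to codes. -/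
lemma down {U : ℕ × C → Prop} {Z : Set E} {F : ℕ → Set (Set Z)}
    (hF : ∀ n, F n ⊆ {v | ∃ c, U (n, c) ∧ v = Subtype.val ⁻¹' b c} ∧ (F n).Finite) :
    ∃ G : ℕ × C → Prop, PChoice U G ∧
      ∀ n, ∀ p : Z, p ∈ ⋃₀ F n → ∃ c, G (n, c) ∧ p.1 ∈ b c := by
  classical
  have h1 : ∀ n, ∀ v : F n, ∃ c, U (n, c) ∧ v.1 = Subtype.val ⁻¹' b c := fun n v => (hF n).1 v.2
  choose c hc1 hc2 using h1
  refine ⟨fun q => q.2 ∈ Set.range (c q.1), fun n => ⟨?_, ?_⟩, ?_⟩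
  · rintro a ⟨v, hv⟩
    have hv' : c n v = a := hv
    rw [← hv']
    exact hc1 n v
  · have : Finite (F n) := (hF n).2
    have hfin : (Set.range (c n)).Finite := Set.finite_range _
    refine ⟨hfin.toFinset, fun a ha h => ha ?_⟩
    rw [Set.Finite.mem_toFinset]
    exact h
  · rintro n p ⟨v, hv, hp⟩
    refine ⟨c n ⟨v, hv⟩, ⟨_, rfl⟩, ?_⟩
    have h3 : v = Subtype.val ⁻¹' b (c n ⟨v, hv⟩) := hc2 n ⟨v, hv⟩
    have h4 : p ∈ Subtype.val ⁻¹' b (c n ⟨v, hv⟩) := h3 ▸ hp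
    exact h4

/-- The cover given by codes. -/
lemma cov (hb : ∀ c, IsOpen (b c)) {U : ℕ × C → Prop} {Z : Set E}
    (hU : PCovers (fun (p : E) (c : C) => p ∈ b c) Z U) (n : ℕ) :
    (∀ u ∈ {v : Set Z | ∃ c, U (n, c) ∧ v = Subtype.val ⁻¹' b c}, IsOpen u) ∧
      ⋃₀ {v : Set Z | ∃ c, U (n, c) ∧ v = Subtype.val ⁻¹' b c} = Set.univ := by
  refine ⟨?_, ?_⟩
  · rintro _ ⟨c, -, rfl⟩
    exact (hb c).preimage continuous_subtype_val
  · rw [Set.eq_univ_iff_forall]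
    intro p
    obtain ⟨c, hc, hpc⟩ := hU p.1 p.2 n
    exact ⟨_, ⟨c, hc, rfl⟩, hpc⟩

/-- The basic sets contained in members of the covers. -/
def ref (b : C → Set E) {Z : Set E} (U : ℕ → Set (Set Z)) (q : ℕ × C) : Prop :=
  ∃ u ∈ U q.1, Subtype.val ⁻¹' b q.2 ⊆ u

lemma ref_covers
    (hB : ∀ (p : E) (V : Set E), IsOpen V → p ∈ V → ∃ c, p ∈ b c ∧ b c ⊆ V) {Z : Set E}
    {U : ℕ → Set (Set Z)} (hU : ∀ n, (∀ u ∈ U n, IsOpen u) ∧ ⋃₀ U n = Set.univ) :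
    PCovers (fun (p : E) (c : C) => p ∈ b c) Z (ref b U) := by
  intro p hp n
  have h1 : (⟨p, hp⟩ : Z) ∈ ⋃₀ U n := by
    rw [(hU n).2]
    trivial
  obtain ⟨u, hu, hpu⟩ := h1
  obtain ⟨V, hV, rfl⟩ := isOpen_induced_iff.1 ((hU n).1 u hu)
  obtain ⟨c, hc1, hc2⟩ := hB p V hV hpu
  exact ⟨c, ⟨_, hu, Set.preimage_mono hc2⟩, hc1⟩

omit [TopologicalSpace E] in
lemma up {Z : Set E} {U : ℕ → Set (Set Z)} {G : ℕ × C → Prop} (hG : PChoice (ref b U) G) :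
    ∃ F : ℕ → Set (Set Z), (∀ n, F n ⊆ U n ∧ (F n).Finite) ∧
      ∀ n, ∀ p : Z, ∀ c, G (n, c) → p.1 ∈ b c → p ∈ ⋃₀ F n := by
  classical
  have h1 : ∀ n, ∀ c : {c // G (n, c)}, ∃ u, u ∈ U n ∧ Subtype.val ⁻¹' b c.1 ⊆ u :=
    fun n c => (hG n).1 c.1 c.2
  choose u hu1 hu2 using h1
  refine ⟨fun n => Set.range (u n), fun n => ⟨?_, ?_⟩, ?_⟩
  · rintro _ ⟨c, rfl⟩
    exact hu1 n c
  · obtain ⟨s, hs⟩ := (hG n).2
    have hfin : {c | G (n, c)}.Finite := s.finite_toSet.subset fun c hc => by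
      by_contra h
      exact hs c (by simpa using h) hc
    have : Finite {c // G (n, c)} := hfin
    exact Set.finite_range _
  · intro n p c hc hp
    exact ⟨_, ⟨⟨c, hc⟩, rfl⟩, hu2 n ⟨c, hc⟩ hp⟩

lemma menger_iff (hb : ∀ c, IsOpen (b c))
    (hB : ∀ (p : E) (V : Set E), IsOpen V → p ∈ V → ∃ c, p ∈ b c ∧ b c ⊆ V) (Z : Set E) :
    IsMenger Z ↔ PMenger Set.univ (fun (p : E) (c : C) => p ∈ b c) {0} Z := by
  constructor
  · intro h U _ hU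
    obtain ⟨F, hF1, hF2⟩ := h _ (cov hb hU)
    obtain ⟨G, hG, hG2⟩ := down hF1
    refine ⟨G, trivial, hG, fun p hp N hN => ?_⟩
    have h1 : (⟨p, hp⟩ : Z) ∈ ⋃ n, ⋃₀ F n := by
      rw [hF2]
      trivial
    obtain ⟨n, hn⟩ := Set.mem_iUnion.1 h1
    have hN0 : N = 0 := hN
    exact ⟨n, hN0 ▸ Nat.zero_le n, hG2 n _ hn⟩
  · intro h U hU
    obtain ⟨G, -, hG, hG2⟩ := h _ trivial (ref_covers hB hU)
    obtain ⟨F, hF, hF2⟩ := up hG
    refine ⟨F, hF, ?_⟩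
    rw [Set.eq_univ_iff_forall]
    intro p
    obtain ⟨n, -, c, hc, hpc⟩ := hG2 p.1 p.2 0 rfl
    exact Set.mem_iUnion.2 ⟨n, hF2 n p c hc hpc⟩

lemma scheepers_iff (hb : ∀ c, IsOpen (b c))
    (hB : ∀ (p : E) (V : Set E), IsOpen V → p ∈ V → ∃ c, p ∈ b c ∧ b c ⊆ V) (Z : Set E) :
    IsScheepers Z ↔ PScheepers Set.univ (fun (p : E) (c : C) => p ∈ b c) {0} Z := by
  constructor
  · intro h U _ hU
    obtain ⟨F, hF1, hF2⟩ := h _ (cov hb hU)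
    obtain ⟨G, hG, hG2⟩ := down hF1
    refine ⟨G, trivial, hG, fun A hA hAZ N hN => ?_⟩
    obtain ⟨n, hn⟩ := hF2 (Subtype.val ⁻¹' A) (hA.preimage Subtype.val_injective.injOn)
    have hN0 : N = 0 := hN
    exact ⟨n, hN0 ▸ Nat.zero_le n, fun p hp => hG2 n ⟨p, hAZ hp⟩ (hn hp)⟩
  · intro h U hU
    obtain ⟨G, -, hG, hG2⟩ := h _ trivial (ref_covers hB hU)
    obtain ⟨F, hF, hF2⟩ := up hG
    refine ⟨F, hF, fun A hA => ?_⟩
    obtain ⟨n, -, hn⟩ := hG2 (Subtype.val '' A) (hA.image _)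
      (by rintro _ ⟨p, -, rfl⟩; exact p.2) 0 rfl
    refine ⟨n, fun p hp => ?_⟩
    obtain ⟨c, hc, hpc⟩ := hn p.1 ⟨p, hp, rfl⟩
    exact hF2 n p c hc hpc

end basic

/-! ### Transport -/

section transport

variable {P E C : Type} {mem : P → C → Prop} {b : C → Set E} {e : E → P}

lemma menger_trans (he : ∀ r c, mem (e r) c ↔ r ∈ b c) {Z : Set P} {W : Set E}
    (hZ : ∀ p ∈ Z, ∃ r, e r = p) (hW : ∀ r, r ∈ W ↔ e r ∈ Z) (M : Set (ℕ × C → Prop))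
    (S : Set ℕ) : PMenger M mem S Z ↔ PMenger M (fun (r : E) (c : C) => r ∈ b c) S W := by
  have hcov : ∀ U : ℕ × C → Prop, PCovers mem Z U ↔
      PCovers (fun (r : E) (c : C) => r ∈ b c) W U := by
    intro U
    constructor
    · intro h r hr n
      obtain ⟨c, h1, h2⟩ := h (e r) ((hW r).1 hr) n
      exact ⟨c, h1, (he r c).1 h2⟩
    · intro h p hp n
      obtain ⟨r, rfl⟩ := hZ p hp
      obtain ⟨c, h1, h2⟩ := h r ((hW r).2 hp) n
      exact ⟨c, h1, (he r c).2 h2⟩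
  constructor
  · intro h U hU hUc
    obtain ⟨F, hF, hF1, hF2⟩ := h U hU ((hcov U).2 hUc)
    refine ⟨F, hF, hF1, fun r hr N hN => ?_⟩
    obtain ⟨n, hn, c, h1, h2⟩ := hF2 (e r) ((hW r).1 hr) N hN
    exact ⟨n, hn, c, h1, (he r c).1 h2⟩
  · intro h U hU hUc
    obtain ⟨F, hF, hF1, hF2⟩ := h U hU ((hcov U).1 hUc)
    refine ⟨F, hF, hF1, fun p hp N hN => ?_⟩
    obtain ⟨r, rfl⟩ := hZ p hp
    obtain ⟨n, hn, c, h1, h2⟩ := hF2 r ((hW r).2 hp) N hN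
    exact ⟨n, hn, c, h1, (he r c).2 h2⟩

lemma scheepers_trans (hinj : Function.Injective e) (he : ∀ r c, mem (e r) c ↔ r ∈ b c)
    {Z : Set P} {W : Set E} (hZ : ∀ p ∈ Z, ∃ r, e r = p) (hW : ∀ r, r ∈ W ↔ e r ∈ Z)
    (M : Set (ℕ × C → Prop)) (S : Set ℕ) :
    PScheepers M mem S Z ↔ PScheepers M (fun (r : E) (c : C) => r ∈ b c) S W := by
  have hcov : ∀ U : ℕ × C → Prop, PCovers mem Z U ↔
      PCovers (fun (r : E) (c : C) => r ∈ b c) W U := by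
    intro U
    constructor
    · intro h r hr n
      obtain ⟨c, h1, h2⟩ := h (e r) ((hW r).1 hr) n
      exact ⟨c, h1, (he r c).1 h2⟩
    · intro h p hp n
      obtain ⟨r, rfl⟩ := hZ p hp
      obtain ⟨c, h1, h2⟩ := h r ((hW r).2 hp) n
      exact ⟨c, h1, (he r c).2 h2⟩
  constructor
  · intro h U hU hUc
    obtain ⟨F, hF, hF1, hF2⟩ := h U hU ((hcov U).2 hUc)
    refine ⟨F, hF, hF1, fun A hA hAW N hN => ?_⟩
    obtain ⟨n, hn, h3⟩ := hF2 (e '' A) (hA.image _)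
      (by rintro _ ⟨r, hr, rfl⟩; exact (hW r).1 (hAW hr)) N hN
    refine ⟨n, hn, fun r hr => ?_⟩
    obtain ⟨c, h1, h2⟩ := h3 (e r) ⟨r, hr, rfl⟩
    exact ⟨c, h1, (he r c).1 h2⟩
  · intro h U hU hUc
    obtain ⟨F, hF, hF1, hF2⟩ := h U hU ((hcov U).1 hUc)
    refine ⟨F, hF, hF1, fun A hA hAZ N hN => ?_⟩
    obtain ⟨n, hn, h3⟩ := hF2 (e ⁻¹' A) (hA.preimage hinj.injOn)
      (fun r hr => (hW r).2 (hAZ hr)) N hN
    refine ⟨n, hn, fun p hp => ?_⟩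
    obtain ⟨r, rfl⟩ := hZ p (hAZ hp)
    obtain ⟨c, h1, h2⟩ := h3 r hp
    exact ⟨c, h1, (he r c).2 h2⟩

end transport

/-! ### The two-element algebra -/

section prop

variable {P C : Type} (mem : P → C → Prop)

lemma vMenger_prop (Z : P → Prop) :
    vMenger (B := Prop) mem Z ↔ PMenger Set.univ mem {0} {p | Z p} := by
  simp only [vMenger, vCovers, vChoice, iInf_Prop_eq, iSup_Prop_eq, inf_Prop_eq, himp_iff_imp,
    compl_iff_not, PMenger, PCovers, PChoice]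
  constructor
  · intro h U _ hU
    obtain ⟨F, hF1, hF2⟩ := h U hU
    refine ⟨F, trivial, fun n => ?_, fun p hp N hN => ?_⟩
    · obtain ⟨h1, s, h2⟩ := hF1 n
      exact ⟨h1, s, fun c hc => h2 c hc⟩
    · obtain ⟨n, c, h1⟩ := hF2 p hp
      have hN0 : N = 0 := hN
      exact ⟨n, hN0 ▸ Nat.zero_le n, c, h1⟩
  · intro h U hU
    obtain ⟨F, -, hF1, hF2⟩ := h U trivial hU
    refine ⟨F, fun n => ?_, fun p hp => ?_⟩
    · obtain ⟨h1, s, h2⟩ := hF1 n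
      exact ⟨h1, s, fun c hc => h2 c hc⟩
    · obtain ⟨n, -, c, h1⟩ := hF2 p hp 0 rfl
      exact ⟨n, c, h1⟩

lemma vScheepers_prop (Z : P → Prop) :
    vScheepers (B := Prop) mem Z ↔ PScheepers Set.univ mem {0} {p | Z p} := by
  simp only [vScheepers, vCovers, vChoice, iInf_Prop_eq, iSup_Prop_eq, inf_Prop_eq, himp_iff_imp,
    compl_iff_not, PScheepers, PCovers, PChoice]
  constructor
  · intro h U _ hU
    obtain ⟨F, hF1, hF2⟩ := h U hU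
    refine ⟨F, trivial, fun n => ?_, fun A hA hAZ N hN => ?_⟩
    · obtain ⟨h1, s, h2⟩ := hF1 n
      exact ⟨h1, s, fun c hc => h2 c hc⟩
    · obtain ⟨k, q, -, rfl⟩ := hA.fin_param
      obtain ⟨n, h1⟩ := hF2 k q (fun i => hAZ ⟨i, rfl⟩)
      have hN0 : N = 0 := hN
      refine ⟨n, hN0 ▸ Nat.zero_le n, fun p hp => ?_⟩
      obtain ⟨i, rfl⟩ := hp
      exact h1 i
  · intro h U hU
    obtain ⟨F, -, hF1, hF2⟩ := h U trivial hU
    refine ⟨F, fun n => ?_, fun k p hp => ?_⟩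
    · obtain ⟨h1, s, h2⟩ := hF1 n
      exact ⟨h1, s, fun c hc => h2 c hc⟩
    · obtain ⟨n, -, h1⟩ := hF2 (Set.range p) (Set.finite_range p)
        (by rintro _ ⟨i, rfl⟩; exact hp i) 0 rfl
      exact ⟨n, fun i => h1 (p i) ⟨i, rfl⟩⟩

end prop

/-! ### Cuts -/

lemma ext_prop {T : Type} (F : (T → Prop) → Prop) : Ext F := by
  rintro x y ⟨h1, h2⟩
  have h3 : x = y := by
    simp only [vEq, iInf_Prop_eq, inf_Prop_eq, himp_iff_imp] at h2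
    exact funext fun t => propext ⟨(h2 t).1, (h2 t).2⟩
  exact h3 ▸ h1

lemma vReal_prop (x : ℚ → Prop) : vReal x ↔ ∃ r : ℝ, cut r = x := by
  simp only [vReal, iInf_Prop_eq, iSup_Prop_eq, inf_Prop_eq, himp_iff_imp, compl_iff_not]
  constructor
  · rintro ⟨⟨⟨q0, h0⟩, ⟨q1, h1⟩⟩, h2⟩
    have hdown : ∀ q r, q < r → x r → x q := fun q r hqr hr => (h2 q).2 ⟨r, hqr, hr⟩
    have hle : ∀ q, x q → q ≤ q1 := by
      intro q hq
      by_contra h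
      exact h1 (hdown q1 q (not_le.1 h) hq)
    have hbdd : BddAbove {s : ℝ | ∃ q : ℚ, x q ∧ s = q} := by
      refine ⟨(q1 : ℝ), ?_⟩
      rintro _ ⟨q, hq, rfl⟩
      exact_mod_cast hle q hq
    refine ⟨sSup {s : ℝ | ∃ q : ℚ, x q ∧ s = q}, funext fun q => propext ⟨fun hq => ?_, fun hq => ?_⟩⟩
    · have hne : {s : ℝ | ∃ q : ℚ, x q ∧ s = q}.Nonempty := ⟨(q0 : ℝ), q0, h0, rfl⟩
      obtain ⟨_, ⟨r, hr, rfl⟩, hqr⟩ := exists_lt_of_lt_csSup hne hq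
      exact hdown q r (by exact_mod_cast hqr) hr
    · obtain ⟨r, hqr, hr⟩ := (h2 q).1 hq
      refine lt_of_lt_of_le (?_ : (q : ℝ) < r) (le_csSup hbdd ⟨r, hr, rfl⟩)
      exact_mod_cast hqr
  · rintro ⟨r, rfl⟩
    refine ⟨⟨?_, ?_⟩, fun q => ⟨fun hq => ?_, ?_⟩⟩
    · obtain ⟨q, hq⟩ := exists_rat_lt r
      exact ⟨q, hq⟩
    · obtain ⟨q, hq⟩ := exists_rat_gt r
      exact ⟨q, not_lt.2 hq.le⟩
    · obtain ⟨s, hs1, hs2⟩ := exists_rat_btwn (show (q : ℝ) < r from hq)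
      exact ⟨s, by exact_mod_cast hs1, hs2⟩
    · rintro ⟨s, hs1, hs2⟩
      have h1 : (q : ℝ) < s := by exact_mod_cast hs1
      exact h1.trans (show (s : ℝ) < r from hs2)

lemma vIvl_prop : (vIvl : (ℚ → Prop) → ℚ × ℚ → Prop) = pIvl := by
  funext x c
  simp only [vIvl, iSup_Prop_eq, inf_Prop_eq, compl_iff_not, pIvl, exists_prop]

lemma vBox_prop : (vBox : (ℚ → Prop) × (ℚ → Prop) → (ℚ × ℚ) × (ℚ × ℚ) → Prop) = pBox := by
  funext x c
  simp only [vBox, vIvl_prop, inf_Prop_eq, pBox]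

lemma vSet_prop (X : (ℚ → Prop) → Prop) : vSet X ↔ ∀ x, X x → ∃ r : ℝ, cut r = x := by
  simp only [vSet, iInf_Prop_eq, himp_iff_imp, vReal_prop]

/-- Intervals. -/
def ivl (c : ℚ × ℚ) : Set ℝ := Set.Ioo (c.1 : ℝ) c.2

/-- Boxes. -/
def box (c : (ℚ × ℚ) × (ℚ × ℚ)) : Set (ℝ × ℝ) := ivl c.1 ×ˢ ivl c.2

/-- Pairs of cuts. -/
def cut2 (p : ℝ × ℝ) : (ℚ → Prop) × (ℚ → Prop) := (cut p.1, cut p.2)

lemma cut2_injective : Function.Injective cut2 := by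
  intro p q h
  have h1 : cut p.1 = cut q.1 := congrArg Prod.fst h
  have h2 : cut p.2 = cut q.2 := congrArg Prod.snd h
  exact Prod.ext (cut_injective h1) (cut_injective h2)

lemma pIvl_cut' (r : ℝ) (c : ℚ × ℚ) : pIvl (cut r) c ↔ r ∈ ivl c := pIvl_cut r c

lemma pBox_cut2 (p : ℝ × ℝ) (c : (ℚ × ℚ) × (ℚ × ℚ)) : pBox (cut2 p) c ↔ p ∈ box c :=
  and_congr (pIvl_cut p.1 c.1) (pIvl_cut p.2 c.2)

lemma isOpen_ivl (c : ℚ × ℚ) : IsOpen (ivl c) := isOpen_Ioo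

lemma isOpen_box (c : (ℚ × ℚ) × (ℚ × ℚ)) : IsOpen (box c) := (isOpen_ivl _).prod (isOpen_ivl _)

lemma exists_ivl (r : ℝ) (V : Set ℝ) (hV : V ∈ 𝓝 r) : ∃ c, r ∈ ivl c ∧ ivl c ⊆ V := by
  obtain ⟨l, u, ⟨hl, hu⟩, hlu⟩ := mem_nhds_iff_exists_Ioo_subset.1 hV
  obtain ⟨p, hp1, hp2⟩ := exists_rat_btwn hl
  obtain ⟨q, hq1, hq2⟩ := exists_rat_btwn hu
  exact ⟨(p, q), ⟨hp2, hq1⟩, (Set.Ioo_subset_Ioo hp1.le hq2.le).trans hlu⟩

lemma exists_box (p : ℝ × ℝ) (V : Set (ℝ × ℝ)) (hV : IsOpen V) (hp : p ∈ V) :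
    ∃ c, p ∈ box c ∧ box c ⊆ V := by
  obtain ⟨u, hu, v, hv, huv⟩ := mem_nhds_prod_iff.1 (hV.mem_nhds hp)
  obtain ⟨c, hc1, hc2⟩ := exists_ivl p.1 u hu
  obtain ⟨d, hd1, hd2⟩ := exists_ivl p.2 v hv
  exact ⟨(c, d), ⟨hc1, hd1⟩, (Set.prod_mono hc2 hd2).trans huv⟩

lemma vMenger_one {Y : (ℚ → Prop) → Prop} (hY : vSet Y) :
    vMenger vIvl Y ↔ IsMenger {r : ℝ | Y (cut r)} := by
  rw [vIvl_prop, vMenger_prop, menger_iff (b := ivl) isOpen_ivl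
    (fun r V hV hr => exists_ivl r V (hV.mem_nhds hr))]
  exact menger_trans pIvl_cut' ((vSet_prop Y).1 hY) (fun r => Iff.rfl) _ _

lemma vScheepers_one {Y : (ℚ → Prop) → Prop} (hY : vSet Y) :
    vScheepers vIvl Y ↔ IsScheepers {r : ℝ | Y (cut r)} := by
  rw [vIvl_prop, vScheepers_prop, scheepers_iff (b := ivl) isOpen_ivl
    (fun r V hV hr => exists_ivl r V (hV.mem_nhds hr))]
  exact scheepers_trans cut_injective pIvl_cut' ((vSet_prop Y).1 hY) (fun r => Iff.rfl) _ _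

lemma prod_cut {X Y : (ℚ → Prop) → Prop} (hX : vSet X) (hY : vSet Y) :
    ∀ p ∈ {p | vProd X Y p}, ∃ r, cut2 r = p := by
  rintro ⟨x, y⟩ ⟨hx, hy⟩
  obtain ⟨r, rfl⟩ := (vSet_prop X).1 hX x hx
  obtain ⟨s, rfl⟩ := (vSet_prop Y).1 hY y hy
  exact ⟨(r, s), rfl⟩

lemma vMenger_two {X Y : (ℚ → Prop) → Prop} (hX : vSet X) (hY : vSet Y) :
    vMenger vBox (vProd X Y) ↔ IsMenger ↥({r : ℝ | X (cut r)} ×ˢ {r : ℝ | Y (cut r)}) := by
  rw [vBox_prop, vMenger_prop, menger_iff (b := box) isOpen_box exists_box]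
  exact menger_trans pBox_cut2 (prod_cut hX hY) (fun r => Iff.rfl) _ _

lemma vScheepers_two {X Y : (ℚ → Prop) → Prop} (hX : vSet X) (hY : vSet Y) :
    vScheepers vBox (vProd X Y) ↔
      IsScheepers ↥({r : ℝ | X (cut r)} ×ˢ {r : ℝ | Y (cut r)}) := by
  rw [vBox_prop, vScheepers_prop, scheepers_iff (b := box) isOpen_box exists_box]
  exact scheepers_trans cut2_injective pBox_cut2 (prod_cut hX hY) (fun r => Iff.rfl) _ _

/-- The set of cuts of the members of a set of reals. -/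
def cuts (Y : Set ℝ) (x : ℚ → Prop) : Prop := ∃ r ∈ Y, cut r = x

lemma vSet_cuts (Y : Set ℝ) : vSet (cuts Y) := (vSet_prop _).2 fun _ ⟨r, _, h⟩ => ⟨r, h⟩

lemma cuts_eq (Y : Set ℝ) : {r : ℝ | cuts Y (cut r)} = Y := by
  ext r
  exact ⟨fun ⟨s, hs, h⟩ => cut_injective h ▸ hs, fun h => ⟨r, h, rfl⟩⟩

lemma vProdMenger_iff {X : (ℚ → Prop) → Prop} (hX : vSet X) :
    vProdMenger X ↔ ProductivelyMenger {r : ℝ | X (cut r)} := by
  have e : vProdMenger X ↔ ∀ Y : (ℚ → Prop) → Prop, vSet Y → vMenger vIvl Y →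
      vMenger vBox (vProd X Y) := by
    simp only [vProdMenger, iInf_Prop_eq, inf_Prop_eq, himp_iff_imp, Subtype.forall]
    exact ⟨fun h Y h1 h2 => h Y (ext_prop Y) ⟨h1, h2⟩, fun h Y _ h1 => h Y h1.1 h1.2⟩
  rw [e]
  constructor
  · intro h Y hY
    have h1 := vSet_cuts Y
    have h2 := (vMenger_two hX h1).1 (h (cuts Y) h1 ((vMenger_one h1).2 (by
      rw [cuts_eq]
      exact hY)))
    rw [cuts_eq] at h2
    exact h2
  · intro h Y h1 h2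
    exact (vMenger_two hX h1).2 (h _ ((vMenger_one h1).1 h2))

lemma vProdScheepers_iff {X : (ℚ → Prop) → Prop} (hX : vSet X) :
    vProdScheepers X ↔ ProductivelyScheepers {r : ℝ | X (cut r)} := by
  have e : vProdScheepers X ↔ ∀ Y : (ℚ → Prop) → Prop, vSet Y → vScheepers vIvl Y →
      vScheepers vBox (vProd X Y) := by
    simp only [vProdScheepers, iInf_Prop_eq, inf_Prop_eq, himp_iff_imp, Subtype.forall]
    exact ⟨fun h Y h1 h2 => h Y (ext_prop Y) ⟨h1, h2⟩, fun h Y _ h1 => h Y h1.1 h1.2⟩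
  rw [e]
  constructor
  · intro h Y hY
    have h1 := vSet_cuts Y
    have h2 := (vScheepers_two hX h1).1 (h (cuts Y) h1 ((vScheepers_one h1).2 (by
      rw [cuts_eq]
      exact hY)))
    rw [cuts_eq] at h2
    exact h2
  · intro h Y h1 h2
    exact (vScheepers_two hX h1).2 (h _ ((vScheepers_one h1).1 h2))

end San

open San

/-- In the two-element algebra `theta` is the statement of the problem. -/
theorem theta_prop : theta Prop ↔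
    ∃ X : Set ℝ, ProductivelyScheepers X ∧ ¬ ProductivelyMenger X := by
  have e : theta Prop ↔ ∃ X : (ℚ → Prop) → Prop, vSet X ∧ vProdScheepers X ∧
      ¬ vProdMenger X := by
    simp only [theta, iSup_Prop_eq, inf_Prop_eq, compl_iff_not, Subtype.exists, and_assoc]
    exact ⟨fun ⟨X, _, h⟩ => ⟨X, h⟩, fun ⟨X, h⟩ => ⟨X, ext_prop X, h⟩⟩
  rw [e]
  constructor
  · rintro ⟨X, h1, h2, h3⟩
    exact ⟨_, (vProdScheepers_iff h1).1 h2, fun h => h3 ((vProdMenger_iff h1).2 h)⟩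
  · rintro ⟨X, h1, h2⟩
    have h3 := vSet_cuts X
    refine ⟨cuts X, h3, (vProdScheepers_iff h3).2 ?_, fun h => h2 ?_⟩
    · rw [cuts_eq]
      exact h1
    · have h4 := (vProdMenger_iff h3).1 h
      rw [cuts_eq] at h4
      exact h4

end Pool.Agent.SigF
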