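import Pool.Agent.SigF.In

/-!
The complete Boolean algebra of the regular open subsets of the space of all functions from `ω₁`
to `R`, and the truth of its elements at a function `G`, for almost all `G`.
-/

namespace Pool.Agent.SigF

open Set Filter TopologicalSpace Pool.Agent.Fo65

variable {R : Type}

lemma isOpen_In (b : RO (Br R)) : IsOpen {G | In G b} := b.val.isOpen

lemma In.le {a b : RO (Br R)} (h : a ≤ b) {G : Br R} (hG : In G a) : In G b := h hG

lemma in_top (G : Br R) : In G (⊤ : RO (Br R)) := trivial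

lemma not_in_bot (G : Br R) : ¬ In G (⊥ : RO (Br R)) := fun h => h

lemma in_inf {a b : RO (Br R)} {G : Br R} : In G (a ⊓ b) ↔ In G a ∧ In G b := Iff.rfl

lemma in_iInf {ι : Sort*} {f : ι → RO (Br R)} {G : Br R} (h : In G (⨅ i, f i)) (i : ι) :
    In G (f i) := h.le (iInf_le f i)

lemma in_iSup {ι : Sort*} {f : ι → RO (Br R)} {G : Br R} {i : ι} (h : In G (f i)) :
    In G (⨆ i, f i) := h.le (le_iSup f i)

/-- An open set or its pseudocomplement contains almost every function. -/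
lemma ev_or_compl (U : Opens (Br R)) : ∀ᶠ G in Gn R, G ∈ U ∨ G ∈ Uᶜ := by
  refine ev_of_DO (p := fun G => G ∈ U ∨ G ∈ Uᶜ) ⟨(U ⊔ Uᶜ).isOpen, fun G δ => ?_⟩
  by_cases h : ∃ H, H ∈ U ∧ Agr G H δ
  · obtain ⟨H, h1, h2⟩ := h
    exact ⟨H, Or.inl h1, h2⟩
  · refine ⟨G, Or.inr (mem_compl_opens.2 ⟨⟨_, isOpen_cyl G δ⟩, Agr.rfl', ?_⟩), Agr.rfl'⟩
    rw [disjoint_iff_inf_le]
    intro H hH
    exact absurd ⟨H, hH.2, hH.1⟩ h

lemma ev_compl (a : RO (Br R)) : ∀ᶠ G in Gn R, In G aᶜ ↔ ¬ In G a := by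
  filter_upwards [ev_or_compl a.val] with G hG
  constructor
  · intro h1
    exact not_mem_of_compl (U := a.val) h1
  · intro h1
    exact hG.resolve_left h1

lemma le_iff {a b : RO (Br R)} : a ≤ b ↔ ∀ᶠ G in Gn R, In G a → In G b := by
  constructor
  · intro h
    exact Filter.Eventually.of_forall fun G hG => hG.le h
  · intro h
    have hle : a.val ≤ (b.val)ᶜᶜ := by
      rw [le_compl_iff_disjoint_right, disjoint_iff_inf_le]
      intro G hG
      obtain ⟨δ, hδ⟩ := (a.val ⊓ (b.val)ᶜ).isOpen G hG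
      obtain ⟨H, hH1, hH2⟩ := Gn.exists h G δ
      have hH := hδ H hH1
      exact absurd (hH2 hH.1) (not_mem_of_compl hH.2)
    have : (b.val)ᶜᶜ = b.val := b.prop
    rw [this] at hle
    exact hle

lemma eq_top_iff' {a : RO (Br R)} : a = ⊤ ↔ ∀ᶠ G in Gn R, In G a := by
  rw [eq_top_iff, le_iff]
  constructor
  · intro h
    filter_upwards [h] with G hG
    exact hG (in_top G)
  · intro h
    filter_upwards [h] with G hG _
    exact hG

lemma ext_iff {a b : RO (Br R)} : a = b ↔ ∀ᶠ G in Gn R, (In G a ↔ In G b) := by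
  rw [le_antisymm_iff, le_iff, le_iff]
  constructor
  · rintro ⟨h1, h2⟩
    filter_upwards [h1, h2] with G hG1 hG2
    exact ⟨hG1, hG2⟩
  · intro h
    exact ⟨h.mono fun G hG => hG.1, h.mono fun G hG => hG.2⟩

lemma ev_iSup {ι : Sort*} (f : ι → RO (Br R)) :
    ∀ᶠ G in Gn R, In G (⨆ i, f i) ↔ ∃ i, In G (f i) := by
  have hle : ((⨆ i, f i : RO (Br R))) ≤ Heyting.Regular.toRegular (⨆ i, (f i).val) := by
    refine iSup_le fun i => ?_
    have : (f i).val ≤ ⨆ i, (f i).val := le_iSup (fun i => (f i).val) i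
    exact (le_compl_compl (a := (f i).val)).trans (compl_le_compl (compl_le_compl this))
  filter_upwards [ev_or_compl (⨆ i, (f i).val)] with G hG
  constructor
  · intro h1
    have h2 : G ∈ (⨆ i, (f i).val)ᶜᶜ := hle h1
    have h3 := hG.resolve_right (not_mem_of_compl h2)
    rw [Opens.mem_iSup] at h3
    exact h3
  · rintro ⟨i, hi⟩
    exact in_iSup hi

lemma ev_sup (a b : RO (Br R)) : ∀ᶠ G in Gn R, In G (a ⊔ b) ↔ In G a ∨ In G b := by
  have h := ev_iSup fun i : Bool => cond i a b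
  filter_upwards [h] with G hG
  rw [sup_eq_iSup, hG]
  simp only [Bool.exists_bool, cond_false, cond_true]
  exact Or.comm

lemma ev_himp (a b : RO (Br R)) : ∀ᶠ G in Gn R, In G (a ⇨ b) ↔ (In G a → In G b) := by
  filter_upwards [ev_sup b aᶜ, ev_compl a] with G hG1 hG2
  rw [himp_eq, hG1, hG2]
  tauto

/-- The infimum of a family, when the members are realised by indices in `Om`. -/
lemma ev_iInf_iff {ι : Sort*} (f : ι → RO (Br R)) :
    ∀ᶠ G in Gn R, In G (⨅ i, f i) ↔ ¬ ∃ i, In G (f i)ᶜ := by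
  have h0 : (⨅ i, f i) = (⨆ i, (f i)ᶜ)ᶜ := by
    rw [compl_iSup]; simp only [compl_compl]
  filter_upwards [ev_compl (⨆ i, (f i)ᶜ), ev_iSup fun i => (f i)ᶜ] with G hG1 hG2
  rw [h0, hG1, hG2]

lemma ev_iInf_of_surj {ι : Sort*} (e : Om → ι) (he : Function.Surjective e) (f : ι → RO (Br R)) :
    ∀ᶠ G in Gn R, In G (⨅ i, f i) ↔ ∀ i, In G (f i) := by
  filter_upwards [ev_iInf_iff f, ev_all_of_surj e he fun i => ev_compl (f i)] with G hG1 hG2
  rw [hG1]
  push Not
  exact forall_congr' fun i => by rw [hG2 i]; exact not_not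

lemma ev_iInf_Om (f : Om → RO (Br R)) : ∀ᶠ G in Gn R, In G (⨅ i, f i) ↔ ∀ i, In G (f i) :=
  ev_iInf_of_surj id Function.surjective_id f

lemma ev_iInf_countable {ι : Type*} [Countable ι] (f : ι → RO (Br R)) :
    ∀ᶠ G in Gn R, In G (⨅ i, f i) ↔ ∀ i, In G (f i) := by
  rcases isEmpty_or_nonempty ι with hι | hι
  · refine Filter.Eventually.of_forall fun G => ⟨fun _ i => (hι.false i).elim, fun _ => ?_⟩
    rw [iInf_of_empty]
    exact in_top G
  · obtain ⟨e, he⟩ := Om.exists_surj ι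
    exact ev_iInf_of_surj e he f

lemma ev_iInf_prop {p : Prop} (f : p → RO (Br R)) :
    ∀ᶠ G in Gn R, In G (⨅ h, f h) ↔ ∀ h, In G (f h) := by
  by_cases hp : p
  · refine Filter.Eventually.of_forall fun G => ?_
    rw [iInf_pos hp]
    exact ⟨fun h _ => h, fun h => h hp⟩
  · refine Filter.Eventually.of_forall fun G => ?_
    rw [iInf_neg hp]
    exact ⟨fun _ h => absurd h hp, fun _ => in_top G⟩

/-- A value which is taken by a generic function, in an open set. -/
lemma ev_value_in {S : R → Prop} (f : R → RO (Br R)) :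
    ∀ᶠ G in Gn R, (∃ r, S r ∧ In G (f r)) → ∃ α, S (G α) ∧ In G (f (G α)) := by
  classical
  let U : Opens (Br R) := ⟨{G | ∃ r, S r ∧ In G (f r)}, by
    rintro G ⟨r, hr, hG⟩
    obtain ⟨δ, hδ⟩ := isOpen_In (f r) G hG
    exact ⟨δ, fun H hH => ⟨r, hr, hδ H hH⟩⟩⟩
  have h1 : ∀ᶠ G in Gn R, (G ∈ Uᶜ) ∨ ∃ α, S (G α) ∧ In G (f (G α)) := by
    refine ev_of_DO ⟨?_, fun G δ => ?_⟩
    · rintro G (hG | ⟨α, hα, hG⟩)
      · obtain ⟨δ, hδ⟩ := (Uᶜ).isOpen G hG
        exact ⟨δ, fun H hH => Or.inl (hδ H hH)⟩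
      · obtain ⟨δ, hδ⟩ := isOpen_In (f (G α)) G hG
        obtain ⟨ε, hε⟩ := exists_gt (max δ α)
        refine ⟨ε, fun H hH => Or.inr ⟨α, ?_, ?_⟩⟩
        · rw [hH α ((le_max_right _ _).trans_lt hε)]
          exact hα
        · rw [hH α ((le_max_right _ _).trans_lt hε)]
          exact hδ H (hH.mono ((le_max_left _ _).trans hε.le))
    · by_cases h : ∃ H, H ∈ U ∧ Agr G H δ
      · obtain ⟨H, ⟨r, hr, hH⟩, h2⟩ := h
        obtain ⟨ε, hε⟩ := isOpen_In (f r) H hH
        let K : Br R := fun β => if β < max δ ε then H β else r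
        have hK : Agr H K (max δ ε) := fun β hβ => if_pos hβ
        have hKr : K (max δ ε) = r := if_neg (lt_irrefl _)
        refine ⟨K, Or.inr ⟨max δ ε, ?_, ?_⟩, h2.trans (hK.mono (le_max_left _ _))⟩
        · rw [hKr]
          exact hr
        · rw [hKr]
          exact hε K (hK.mono (le_max_right _ _))
      · refine ⟨G, Or.inl (mem_compl_opens.2 ⟨⟨_, isOpen_cyl G δ⟩, Agr.rfl', ?_⟩), Agr.rfl'⟩
        rw [disjoint_iff_inf_le]
        intro H hH
        exact absurd ⟨H, hH.2, hH.1⟩ h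
  filter_upwards [h1] with G hG hr
  rcases hG with hG | hG
  · exact absurd (show G ∈ U from hr) (not_mem_of_compl hG)
  · exact hG

/-- Suprema over the reals are attained in the range. -/
lemma ev_iSup_real (f : R → RO (Br R)) :
    ∀ᶠ G in Gn R, In G (⨆ r, f r) ↔ ∃ α : Om, In G (f (G α)) := by
  filter_upwards [ev_iSup f, ev_value_in (S := fun _ => True) f] with G hG1 hG2
  rw [hG1]
  constructor
  · rintro ⟨r, hr⟩
    obtain ⟨α, -, hα⟩ := hG2 ⟨r, trivial, hr⟩
    exact ⟨α, hα⟩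
  · rintro ⟨α, hα⟩
    exact ⟨_, hα⟩

/-- A statement about a real holds at the indices. -/
lemma ev_at {p : R → Br R → Prop} (h : ∀ r, ∀ᶠ G in Gn R, p r G) :
    ∀ᶠ G in Gn R, ∀ α : Om, p (G α) G := ev_all fun α => ev_param (Loc.eval α) h

/-- Infima over the reals are infima over the range. -/
lemma ev_iInf_real (f : R → RO (Br R)) :
    ∀ᶠ G in Gn R, In G (⨅ r, f r) ↔ ∀ α : Om, In G (f (G α)) := by
  filter_upwards [ev_iInf_iff f, ev_iSup fun r => (f r)ᶜ, ev_iSup_real fun r => (f r)ᶜ,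
    ev_at (p := fun r G => In G (f r)ᶜ ↔ ¬ In G (f r)) fun r => ev_compl (f r)] with
    G hG1 hG2 hG3 hG4
  rw [hG1, ← hG2, hG3]
  push Not
  exact forall_congr' fun α => by rw [hG4 α]; exact not_not

/-- The truth value of an open property. -/
noncomputable def val (p : Br R → Prop) (hp : IsOpen {G | p G}) : RO (Br R) :=
  Heyting.Regular.toRegular ⟨{G | p G}, hp⟩

lemma in_val {p : Br R → Prop} {hp : IsOpen {G | p G}} {G : Br R} (h : p G) :
    In G (val p hp) := le_compl_compl (a := (⟨{G | p G}, hp⟩ : Opens (Br R))) h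

lemma ev_val (p : Br R → Prop) (hp : IsOpen {G | p G}) :
    ∀ᶠ G in Gn R, In G (val p hp) ↔ p G := by
  filter_upwards [ev_or_compl ⟨{G | p G}, hp⟩] with G hG
  constructor
  · intro h1
    exact hG.resolve_right (not_mem_of_compl h1)
  · intro h1
    exact in_val h1

instance [Nonempty R] : Nontrivial (RO (Br R)) :=
  ⟨⊤, ⊥, fun h => not_in_bot (fun _ => Classical.arbitrary R : Br R) (h ▸ in_top _)⟩

end Pool.Agent.SigF
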