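import Pool.Agent.Helper48.PS.NotM

/-!
MP_42532c: recursions along a parameter, with values depending only on initial segments of the
parameter.
-/

set_option autoImplicit false

namespace Pool.Agent.SigF.Rel

open Pool.Agent.Helper48.PS

open Classical in
/-- A choice from a predicate. -/
noncomputable def pick {X : Type*} [Inhabited X] (Q : X → Prop) : X :=
  if h : ∃ d, Q d then h.choose else default

theorem pick_spec {X : Type*} [Inhabited X] {Q : X → Prop} (h : ∃ d, Q d) : Q (pick Q) := by
  unfold pick
  rw [dif_pos h]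
  exact h.choose_spec

/-- Well-founded recursion with a predicate and a parameter. -/
theorem exists_rec_loc {I R X : Type*} [LinearOrder I] [WellFoundedLT I] [Inhabited X]
    (P : (I → R) → I → (I → X) → X → Prop)
    (hP : ∀ G G' a D d, (∀ b ≤ a, G b = G' b) → P G a D d → P G' a D d)
    (hc : ∀ G a D D' d, (∀ b < a, D b = D' b) → P G a D d → P G a D' d)
    (hx : ∀ G a D, (∀ b < a, P G b D (D b)) → ∃ d, P G a D d) :
    ∃ D : (I → R) → I → X, (∀ G a, P G a (D G) (D G a)) ∧
      ∀ G G' a, (∀ b ≤ a, G b = G' b) → D G a = D G' a := by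
  classical
  let ex : ∀ a : I, (∀ b, b < a → X) → I → X := fun a r b => if h : b < a then r b h else default
  let D : (I → R) → I → X := fun G => WellFoundedLT.fix fun a r => pick (P G a (ex a r))
  have hD : ∀ G a, D G a = pick (P G a (ex a fun b _ => D G b)) := by
    intro G a
    exact WellFoundedLT.fix_eq _ a
  refine ⟨D, fun G a => ?_, fun G G' a => ?_⟩
  · induction a using WellFoundedLT.induction with
    | ind a ih =>
      obtain ⟨d, hd⟩ := hx G a (D G) ih
      have he : ∀ b < a, D G b = ex a (fun b _ => D G b) b := fun b hb => by simp [ex, hb]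
      have h : ∃ d, P G a (ex a fun b _ => D G b) d := ⟨d, hc G a _ _ d he hd⟩
      have h2 : P G a (ex a fun b _ => D G b) (D G a) := by
        rw [hD G a]
        exact pick_spec h
      exact hc G a _ _ _ (fun b hb => (he b hb).symm) h2
  · induction a using WellFoundedLT.induction with
    | ind a ih =>
      intro h
      have e1 : (ex a fun b _ => D G b) = ex a fun b _ => D G' b := by
        funext b
        by_cases hb : b < a
        · simp only [ex, dif_pos hb]
          exact ih b hb fun c hc => h c (hc.trans hb.le)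
        · simp only [ex, dif_neg hb]
      have e2 : ∀ D', P G a D' = P G' a D' := by
        intro D'
        funext d
        exact propext ⟨hP G G' a D' d h, hP G' G a D' d fun b hb => (h b hb).symm⟩
      rw [hD G a, hD G' a, e1, e2]

variable {I : Type*} [LinearOrder I]

theorem good_loc {r r' : I → ℕ → ℕ} {U U' : I → ℕ → ℕ → Set (ℕ → ℕ)} (a : I) (D : I → Dat)
    (d : Dat) (hr : r a = r' a) (hU : ∀ b ≤ a, U b = U' b) (H : Good r U a D d) :
    Good r' U' a D d where
  cF := H.cF
  mono := H.mono
  sub := H.sub
  comp := H.comp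
  rle := by rw [← hr]; exact H.rle
  GF := H.GF
  MG := by rw [← hU a le_rfl]; exact H.MG
  T1 := H.T1
  T2 := H.T2
  T3 b hb := by rw [← hU b hb.le]; exact H.T3 b hb
  T3' := by rw [← hU a le_rfl]; exact H.T3'
  vw := H.vw
  vinf := H.vinf
  T4 := H.T4
  T5 := H.T5

/-- The construction of the sequence, depending locally on the parameter. -/
theorem exists_all_loc [WellFoundedLT I] {R : Type*} (rr : R → ℕ → ℕ)
    (UU : R → ℕ → ℕ → Set (ℕ → ℕ)) (hU : ∀ c n m h, h ∈ UU c n m → ∃ j, Dec (UU c n) j m h)
    (hI : ∀ a : I, (Set.Iio a).Countable) : ∃ D : (I → R) → I → Dat,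
      (∀ G a, Good (fun b => rr (G b)) (fun b => UU (G b)) a (D G) (D G a)) ∧
      ∀ G G' a, (∀ b ≤ a, G b = G' b) → D G a = D G' a :=
  exists_rec_loc (fun G => Good (fun b => rr (G b)) fun b => UU (G b))
    (fun G G' a D d h H => good_loc a D d (by rw [h a le_rfl]) (fun b hb => by rw [h b hb]) H)
    (fun G a D D' d h H => good_congr a D D' d h H)
    fun G a D H => exists_good (fun b => hU (G b)) hI a D H

end Pool.Agent.SigF.Rel
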