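import Pool.Agent.SigF.In
import Pool.Agent.Sc72.Full

/-!
In the definitions of Menger and Scheepers sets one may ask that each point (each finite set) is
covered by infinitely many of the finite families.
-/

namespace Pool.Agent.SigF

open Pool.Agent.Sc72

variable {B : Type*} [CompleteBooleanAlgebra B] {P C : Type*} {mem : P → C → B} {Z : P → B}

theorem ext_vChoice (U : ℕ × C → B) : Ext (fun F : ℕ × C → B => vChoice U F) := by
  classical
  refine Ext.iInf fun n => Ext.inf (Ext.iInf fun c => Ext.himp (Ext.coord (n, c)) (Ext.const _)) ?_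
  exact Ext.iSup fun s => Ext.iInf fun c => Ext.iInf fun _ => Ext.compl (Ext.coord (n, c))

/-- Finite choices for all shifts of `U` are combined to one finite choice for `U`. -/
theorem combine (e : B) (U : ℕ × C → B) (Φ : (ℕ × C → B) → B) (hΦ : Ext Φ)
    (h : ∀ N : ℕ, e ≤ ⨆ F : ℕ × C → B, vChoice (fun q => U (q.1 + N, q.2)) F ⊓ Φ F) :
    ∃ F : ℕ × C → B, e ≤ vChoice U F ∧ ∀ N : ℕ, ∃ F' : ℕ × C → B, e ≤ Φ F' ∧
      ∀ n c, F' (n, c) ≤ F (n + N, c) := by
  classical
  have hex : ∀ N : ℕ, ∃ F : ℕ × C → B, e ≤ vChoice (fun q => U (q.1 + N, q.2)) F ⊓ Φ F := by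
    intro N
    obtain ⟨F, hF⟩ := exists_max (Ext.inf (ext_vChoice (fun q => U (q.1 + N, q.2))) hΦ)
    exact ⟨F, by rw [hF]; exact h N⟩
  choose F hF using hex
  refine ⟨fun q => ⨆ N : ℕ, ⨆ _ : N ≤ q.1, F N (q.1 - N, q.2), ?_, fun N =>
    ⟨F N, (hF N).trans inf_le_right, fun n c => ?_⟩⟩
  · refine le_iInf fun n => le_inf (le_iInf fun c => ?_) ?_
    · rw [le_himp_iff, inf_iSup_eq]
      refine iSup_le fun N => ?_
      rw [inf_iSup_eq]
      refine iSup_le fun hN => ?_
      have h1 : e ≤ F N (n - N, c) ⇨ U (n - N + N, c) :=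
        ((hF N).trans inf_le_left).trans
          ((iInf_le _ (n - N)).trans (inf_le_left.trans (iInf_le _ c)))
      rw [Nat.sub_add_cancel hN, le_himp_iff] at h1
      exact h1
    · have key : ∀ m : ℕ, e ≤ ⨆ s : Finset C, ⨅ c : C, ⨅ _ : c ∉ s,
          (⨆ N : ℕ, ⨆ _ : N ≤ n ∧ N < m, F N (n - N, c))ᶜ := by
        intro m
        induction m with
        | zero =>
          refine le_trans ?_ (le_iSup _ (∅ : Finset C))
          refine le_iInf fun c => le_iInf fun _ => ?_
          simp
        | succ m ih =>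
          by_cases hm : m ≤ n
          · have h2 : e ≤ ⨆ s : Finset C, ⨅ c : C, ⨅ _ : c ∉ s, (F m (n - m, c))ᶜ :=
              ((hF m).trans inf_le_left).trans ((iInf_le _ (n - m)).trans inf_le_right)
            refine (le_inf ih h2).trans ?_
            rw [iSup_inf_iSup]
            refine iSup_le fun st => ?_
            refine le_trans ?_ (le_iSup _ (st.1 ∪ st.2))
            refine le_iInf fun c => le_iInf fun hc => ?_
            rw [Finset.mem_union, not_or] at hc
            rw [compl_iSup]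
            refine le_iInf fun N => ?_
            rw [compl_iSup]
            refine le_iInf fun hN => ?_
            rcases Nat.lt_succ_iff_lt_or_eq.1 hN.2 with h3 | h3
            · refine (inf_le_left.trans ((iInf_le _ c).trans (iInf_le _ hc.1))).trans ?_
              exact compl_le_compl (le_iSup_of_le N (le_iSup_of_le ⟨hN.1, h3⟩ le_rfl))
            · subst h3
              exact inf_le_right.trans ((iInf_le _ c).trans (iInf_le _ hc.2))
          · refine ih.trans (iSup_mono fun s => iInf_mono fun c => iInf_mono fun _ => ?_)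
            refine compl_le_compl (iSup_le fun N => iSup_le fun hN => ?_)
            have h4 : N < m := by omega
            exact le_iSup_of_le N (le_iSup_of_le ⟨hN.1, h4⟩ le_rfl)
      refine (key (n + 1)).trans (iSup_mono fun s => iInf_mono fun c => iInf_mono fun _ => ?_)
      refine compl_le_compl (iSup_le fun N => iSup_le fun hN => ?_)
      exact le_iSup_of_le N (le_iSup_of_le ⟨hN, Nat.lt_succ_of_le hN⟩ le_rfl)
  · refine le_trans ?_ (le_iSup _ N)
    refine le_trans ?_ (le_iSup _ (Nat.le_add_left N n))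
    show F N (n, c) ≤ F N (n + N - N, c)
    rw [Nat.add_sub_cancel]

theorem vCovers_shift (U : ℕ × C → B) (N : ℕ) :
    vCovers mem Z U ≤ vCovers mem Z (fun q => U (q.1 + N, q.2)) :=
  iInf_mono fun _ => himp_le_himp_left (le_iInf fun n => iInf_le _ (n + N))

theorem vMenger_eq : vMenger mem Z = vMengerS mem {0} Z := by
  unfold vMenger vMengerS
  simp

theorem vScheepers_eq : vScheepers mem Z = vScheepersS mem {0} Z := by
  unfold vScheepers vScheepersS
  simp

theorem ext_mengerF : Ext (fun F : ℕ × C → B => ⨅ p : P, Z p ⇨ ⨆ n : ℕ, ⨆ c : C,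
    F (n, c) ⊓ mem p c) :=
  Ext.iInf fun _ => Ext.himp (Ext.const _) (Ext.iSup fun n => Ext.iSup fun c =>
    Ext.inf (Ext.coord (n, c)) (Ext.const _))

theorem ext_scheepersF : Ext (fun F : ℕ × C → B => ⨅ k : ℕ, ⨅ p : Fin k → P, (⨅ i, Z (p i)) ⇨
    ⨆ n : ℕ, ⨅ i, ⨆ c : C, F (n, c) ⊓ mem (p i) c) :=
  Ext.iInf fun _ => Ext.iInf fun _ => Ext.himp (Ext.const _) (Ext.iSup fun n => Ext.iInf fun _ =>
    Ext.iSup fun c => Ext.inf (Ext.coord (n, c)) (Ext.const _))

theorem vMenger_le (S : Set ℕ) : vMenger mem Z ≤ vMengerS mem S Z := by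
  refine le_iInf fun U => ?_
  rw [le_himp_iff]
  obtain ⟨F, h1, h2⟩ := combine (vMenger mem Z ⊓ vCovers mem Z U) U _
    (ext_mengerF (mem := mem) (Z := Z)) (by
      intro N
      have h := iInf_le (fun U : ℕ × C → B => vCovers mem Z U ⇨ ⨆ F : ℕ × C → B, vChoice U F ⊓
        ⨅ p : P, Z p ⇨ ⨆ n : ℕ, ⨆ c : C, F (n, c) ⊓ mem p c) (fun q => U (q.1 + N, q.2))
      refine le_trans ?_ (le_himp_iff.1 h)
      exact inf_le_inf_left _ (vCovers_shift U N))
  refine le_iSup_of_le F (le_inf h1 ?_)
  refine le_iInf fun p => ?_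
  rw [le_himp_iff]
  refine le_iInf fun N => le_iInf fun _ => ?_
  obtain ⟨F', h3, h4⟩ := h2 N
  have h5 := le_himp_iff.1 (h3.trans (iInf_le _ p))
  refine h5.trans (iSup_le fun n => iSup_le fun c => ?_)
  refine le_trans ?_ (le_iSup _ (n + N))
  refine le_trans ?_ (le_iSup _ (Nat.le_add_left N n))
  exact le_trans (inf_le_inf_right _ (h4 n c)) (le_iSup (fun c => F (n + N, c) ⊓ mem p c) c)

theorem vScheepers_le (S : Set ℕ) : vScheepers mem Z ≤ vScheepersS mem S Z := by
  refine le_iInf fun U => ?_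
  rw [le_himp_iff]
  obtain ⟨F, h1, h2⟩ := combine (vScheepers mem Z ⊓ vCovers mem Z U) U _
    (ext_scheepersF (mem := mem) (Z := Z)) (by
      intro N
      have h := iInf_le (fun U : ℕ × C → B => vCovers mem Z U ⇨ ⨆ F : ℕ × C → B, vChoice U F ⊓
        ⨅ k : ℕ, ⨅ p : Fin k → P, (⨅ i, Z (p i)) ⇨ ⨆ n : ℕ, ⨅ i, ⨆ c : C,
          F (n, c) ⊓ mem (p i) c) (fun q => U (q.1 + N, q.2))
      refine le_trans ?_ (le_himp_iff.1 h)
      exact inf_le_inf_left _ (vCovers_shift U N))
  refine le_iSup_of_le F (le_inf h1 ?_)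
  refine le_iInf fun k => le_iInf fun p => ?_
  rw [le_himp_iff]
  refine le_iInf fun N => le_iInf fun _ => ?_
  obtain ⟨F', h3, h4⟩ := h2 N
  have h5 := le_himp_iff.1 (h3.trans ((iInf_le _ k).trans (iInf_le _ p)))
  refine h5.trans (iSup_le fun n => ?_)
  refine le_trans ?_ (le_iSup _ (n + N))
  refine le_trans ?_ (le_iSup _ (Nat.le_add_left N n))
  exact iInf_mono fun i => iSup_mono fun c => inf_le_inf_right _ (h4 n c)

/-- The truth values of the versions with infinitely many are the same. -/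
theorem vMengerS_eq (S : Set ℕ) : vMengerS mem S Z = vMenger mem Z ∨ S = ∅ := by
  rcases S.eq_empty_or_nonempty with h | ⟨N₀, hN₀⟩
  · exact Or.inr h
  · left
    refine le_antisymm ?_ (vMenger_le S)
    refine iInf_mono fun U => himp_le_himp_left (iSup_mono fun F => inf_le_inf_left _
      (iInf_mono fun p => himp_le_himp_left ?_))
    refine (iInf_le _ N₀).trans ((iInf_le _ hN₀).trans (iSup_mono fun n => iSup_le fun _ => le_rfl))

theorem vScheepersS_eq (S : Set ℕ) : vScheepersS mem S Z = vScheepers mem Z ∨ S = ∅ := by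
  rcases S.eq_empty_or_nonempty with h | ⟨N₀, hN₀⟩
  · exact Or.inr h
  · left
    refine le_antisymm ?_ (vScheepers_le S)
    refine iInf_mono fun U => himp_le_himp_left (iSup_mono fun F => inf_le_inf_left _
      (iInf_mono fun k => iInf_mono fun p => himp_le_himp_left ?_))
    refine (iInf_le _ N₀).trans ((iInf_le _ hN₀).trans (iSup_mono fun n => iSup_le fun _ => le_rfl))

end Pool.Agent.SigF
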