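import Pool.Agent.SigF.Los2

/-!
Names of families of locally constant sets: the set named by such a name, at almost every branch.
-/

namespace Pool.Agent.SigF

open Set Filter TopologicalSpace Pool.Agent.Fo65 Pool.Agent.Sc72

variable {T Ξ : Type}

lemma ext_nm (Ψ : Ξ → Br (Set ℕ) → T → Prop) : Ext (nm Ψ) := ext_fam _

/-- The name of a locally constant set. -/
lemma rz_nm1 {Ψ : Br (Set ℕ) → T → Prop} (h : Loc Ψ) (t : T) : Rz (nm1 Ψ t) fun G => Ψ G t := by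
  have ho : IsOpen {G | Ψ G t} := (h.comp fun x => x t).isOpen_prop
  unfold nm1
  rw [dif_pos ho]
  exact ev_val (p := fun G => Ψ G t) ho

lemma evN_nm1 [Countable T] {Ψ : Br (Set ℕ) → T → Prop} (h : Loc Ψ) :
    ∀ᶠ G in Gn (Set ℕ), evN (nm1 Ψ) G = Ψ G := by
  have h1 : ∀ᶠ G in Gn (Set ℕ), ∀ t, (In G (nm1 Ψ t) ↔ Ψ G t) :=
    ev_all_countable fun t => rz_nm1 h t
  filter_upwards [h1] with G hG
  exact funext fun t => propext (hG t)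

/-- Membership of a ground model set in a named family. -/
lemma rz_nm [Countable T] {Ψ : Ξ → Br (Set ℕ) → T → Prop} (h : ∀ ξ, Loc (Ψ ξ)) {f : Om → Ξ}
    (hf : Function.Surjective f) (x : T → Prop) :
    Rz (nm Ψ (chk x)) fun G => ∃ ξ, Ψ ξ G = x := by
  have h1 : ∀ᶠ G in Gn (Set ℕ), ∀ ξ, (In G (vEq (chk x) (nm1 (Ψ ξ))) ↔ Ψ ξ G = x) := by
    refine ev_all_of_surj f hf fun ξ => ?_
    filter_upwards [rz_vEq (chk x) (nm1 (Ψ ξ)), evN_nm1 (h ξ)] with G h2 h3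
    have h4 : evN (chk x) G = x := funext fun t => propext in_chk
    rw [h2, h3, h4]
    exact eq_comm
  filter_upwards [h1, ev_iSup fun ξ => vEq (chk x) (nm1 (Ψ ξ))] with G h2 h3
  unfold nm fam
  rw [h3]
  exact exists_congr h2

/-- **The set named by a family.** -/
theorem Int_nm [Encodable T] {Ψ : Ξ → Br (Set ℕ) → T → Prop} (h : ∀ ξ, Loc (Ψ ξ)) {f : Om → Ξ}
    (hf : Function.Surjective f) :
    ∀ᶠ G in Gn (Set ℕ), Int T (nm Ψ) G = Set.range fun ξ => Ψ ξ G := by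
  have h1 : ∀ᶠ G in Gn (Set ℕ), ∀ α,
      (In G (nm Ψ (chk (dec T (G α)))) ↔ ∃ ξ, Ψ ξ G = dec T (G α)) :=
    ev_at (p := fun r G => (In G (nm Ψ (chk (dec T r))) ↔ ∃ ξ, Ψ ξ G = dec T r))
      fun r => rz_nm h hf (dec T r)
  have h2 : ∀ᶠ G in Gn (Set ℕ), ∀ ξ, ∃ α, dec T (G α) = Ψ ξ G :=
    ev_all_of_surj f hf fun ξ => ev_rangeD (dec_surj T) (h ξ).ld
  filter_upwards [h1, h2] with G h3 h4
  ext x
  constructor
  · rintro ⟨⟨α, rfl⟩, hx⟩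
    exact (h3 α).1 hx
  · rintro ⟨ξ, rfl⟩
    obtain ⟨α, hα⟩ := h4 ξ
    refine ⟨⟨α, hα⟩, ?_⟩
    have h5 := (h3 α).2 ⟨ξ, hα.symm⟩
    rw [hα] at h5
    exact h5

/-- A family of real numbers. -/
theorem vSet_nm {Ψ : Ξ → Br (Set ℕ) → ℚ → Prop} (h : ∀ ξ, Loc (Ψ ξ)) {f : Om → Ξ}
    (hf : Function.Surjective f) (hr : ∀ ξ G, ∃ r : ℝ, Ψ ξ G = cut r) : vSet (nm Ψ) = ⊤ := by
  rw [eq_top_iff']
  filter_upwards [rz_vSet (ext_nm Ψ), Int_nm h hf] with G h1 h2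
  rw [h1, h2]
  rintro x ⟨ξ, rfl⟩
  exact hr ξ G

end Pool.Agent.SigF
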