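import Pool.Agent.SigF.KTwo3
import Pool.Agent.SigF.Freq
import Pool.Agent.SigF.Nm89
import Pool.Agent.Helper48.PS.Emb

/-!
The value of `theta` in the algebra `BB` is the largest element.
-/

namespace Pool.Agent.SigF

open Pool.Agent.Sc72 Pool.Agent.SigF.Rel Pool.Agent.Helper48.PS

/-! ### from cuts to real numbers -/

lemma pIvl_cut_iff (r : ℝ) (c : ℚ × ℚ) : pIvl (cut r) c ↔ memR r c := pIvl_cut r c

/-- Pairs of cuts. -/
def cutP (p : ℝ × ℝ) : (ℚ → Prop) × (ℚ → Prop) := (cut p.1, cut p.2)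

lemma cutP_injective : Function.Injective cutP := by
  rintro ⟨a, b⟩ ⟨c, d⟩ h
  rw [cutP, cutP, Prod.mk.injEq] at h
  exact Prod.ext (cut_injective h.1) (cut_injective h.2)

lemma pBox_cutP (p : ℝ × ℝ) (c : (ℚ × ℚ) × (ℚ × ℚ)) : pBox (cutP p) c ↔ memR2 p c :=
  and_congr (pIvl_cut_iff _ _) (pIvl_cut_iff _ _)

section trans
variable {P E C : Type*} {mem : P → C → Prop} {mem' : E → C → Prop} {e : E → P}
  {M : Set (ℕ × C → Prop)} {S : Set ℕ}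

lemma PCovers_image (he : ∀ r c, mem (e r) c ↔ mem' r c) {W : Set E} {U : ℕ × C → Prop} :
    PCovers mem (e '' W) U ↔ PCovers mem' W U := by
  constructor
  · intro h r hr n
    obtain ⟨c, h1, h2⟩ := h (e r) ⟨r, hr, rfl⟩ n
    exact ⟨c, h1, (he r c).1 h2⟩
  · rintro h _ ⟨r, hr, rfl⟩ n
    obtain ⟨c, h1, h2⟩ := h r hr n
    exact ⟨c, h1, (he r c).2 h2⟩

lemma PMenger_image (he : ∀ r c, mem (e r) c ↔ mem' r c) {W : Set E} :
    PMenger M mem S (e '' W) ↔ PMenger M mem' S W := by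
  constructor
  · intro h U hU hUc
    obtain ⟨F, hF, hF1, hF2⟩ := h U hU ((PCovers_image he).2 hUc)
    refine ⟨F, hF, hF1, fun r hr N hN => ?_⟩
    obtain ⟨n, hn, c, h1, h2⟩ := hF2 (e r) ⟨r, hr, rfl⟩ N hN
    exact ⟨n, hn, c, h1, (he r c).1 h2⟩
  · intro h U hU hUc
    obtain ⟨F, hF, hF1, hF2⟩ := h U hU ((PCovers_image he).1 hUc)
    refine ⟨F, hF, hF1, ?_⟩
    rintro _ ⟨r, hr, rfl⟩ N hN
    obtain ⟨n, hn, c, h1, h2⟩ := hF2 r hr N hN
    exact ⟨n, hn, c, h1, (he r c).2 h2⟩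

lemma PScheepers_image (hi : Function.Injective e) (he : ∀ r c, mem (e r) c ↔ mem' r c)
    {W : Set E} : PScheepers M mem S (e '' W) ↔ PScheepers M mem' S W := by
  constructor
  · intro h U hU hUc
    obtain ⟨F, hF, hF1, hF2⟩ := h U hU ((PCovers_image he).2 hUc)
    refine ⟨F, hF, hF1, fun A hA hAW N hN => ?_⟩
    obtain ⟨n, hn, h1⟩ := hF2 (e '' A) (hA.image e) (Set.image_mono hAW) N hN
    refine ⟨n, hn, fun r hr => ?_⟩
    obtain ⟨c, h2, h3⟩ := h1 (e r) ⟨r, hr, rfl⟩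
    exact ⟨c, h2, (he r c).1 h3⟩
  · intro h U hU hUc
    obtain ⟨F, hF, hF1, hF2⟩ := h U hU ((PCovers_image he).1 hUc)
    refine ⟨F, hF, hF1, fun A hA hAW N hN => ?_⟩
    obtain ⟨n, hn, h1⟩ := hF2 (e ⁻¹' A) (hA.preimage hi.injOn) (by
      intro r hr
      obtain ⟨s, hs, hsr⟩ := hAW hr
      exact hi hsr ▸ hs) N hN
    refine ⟨n, hn, fun p hp => ?_⟩
    obtain ⟨s, hs, rfl⟩ := hAW hp
    obtain ⟨c, h2, h3⟩ := h1 s hp
    exact ⟨c, h2, (he s c).2 h3⟩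

end trans

lemma image_cutP (X Y : Set ℝ) : (cut '' X) ×ˢ (cut '' Y) = cutP '' (X ×ˢ Y) := by
  ext ⟨a, b⟩
  constructor
  · rintro ⟨⟨x, hx, rfl⟩, ⟨y, hy, rfl⟩⟩
    exact ⟨(x, y), ⟨hx, hy⟩, rfl⟩
  · rintro ⟨⟨x, y⟩, ⟨hx, hy⟩, h⟩
    rw [cutP, Prod.mk.injEq] at h
    exact ⟨⟨x, hx, h.1⟩, ⟨y, hy, h.2⟩⟩

/-! ### the two names -/

/-- An enumeration of the eventually zero sequences. -/
noncomputable def fin2 : ℕ → ℕ → ℕ :=
  (Fin2_countable.exists_eq_range ⟨fun _ => 0, ⟨fun _ => Nat.zero_le _, 0, fun _ _ => rfl⟩⟩).choose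

lemma fin2_range : Helper48.PS.Fin2 = Set.range fin2 :=
  (Fin2_countable.exists_eq_range
    ⟨fun _ => 0, ⟨fun _ => Nat.zero_le _, 0, fun _ _ => rfl⟩⟩).choose_spec

/-- The points of the first set. -/
noncomputable def ptX (ξ : ℕ ⊕ Om) (G : Br (Set ℕ)) : ℕ → ℕ :=
  Sum.elim fin2 (fun a => (DG G).x a) ξ

lemma range_ptX (G : Br (Set ℕ)) : Set.range (fun ξ => ptX ξ G) = (DG G).X := by
  unfold DataR.X
  rw [fin2_range]
  ext z
  constructor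
  · rintro ⟨ξ | a, rfl⟩
    · exact Or.inl ⟨ξ, rfl⟩
    · exact Or.inr ⟨a, rfl⟩
  · rintro (⟨n, rfl⟩ | ⟨a, rfl⟩)
    · exact ⟨Sum.inl n, rfl⟩
    · exact ⟨Sum.inr a, rfl⟩

lemma loc_ptX (ξ : ℕ ⊕ Om) : Loc (ptX ξ) := by
  rcases ξ with n | a
  · exact Loc.const _
  · exact (loc_DD a).comp fun d => pt d.w d.v

lemma loc_h (a : Om) : Loc fun G => (DG G).h a := (loc_DD a).comp fun d => d.h

lemma exists_surj_sum : ∃ g : Om → ℕ ⊕ Om, Function.Surjective g := by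
  obtain ⟨f, hf⟩ := Om.exists_surj (Option ℕ)
  obtain ⟨e⟩ := Om.exists_pairing
  refine ⟨fun i => (f (e i).1).elim (Sum.inr (e i).2) Sum.inl, ?_⟩
  rintro (n | a)
  · obtain ⟨i, hi⟩ := hf (some n)
    refine ⟨e.symm (i, Classical.arbitrary Om), ?_⟩
    simp [hi]
  · obtain ⟨i, hi⟩ := hf none
    refine ⟨e.symm (i, a), ?_⟩
    simp [hi]

section
variable {f : (ℕ → ℕ) → ℝ} (hf : Topology.IsEmbedding f)

/-- The name of the first set. -/
noncomputable def XX (f : (ℕ → ℕ) → ℝ) : (ℚ → BB) → BB :=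
  nm fun (ξ : ℕ ⊕ Om) G => cut (f (ptX ξ G))

/-- The name of the second set. -/
noncomputable def MM (f : (ℕ → ℕ) → ℝ) : (ℚ → BB) → BB :=
  nm fun (a : Om) G => cut (f ((DG G).h a))

lemma ext_XX : Ext (XX f) := ext_nm _

lemma ext_MM : Ext (MM f) := ext_nm _

lemma Int_XX (f : (ℕ → ℕ) → ℝ) :
    ∀ᶠ G in Gn (Set ℕ), Int ℚ (XX f) G = cut '' (f '' (DG G).X) := by
  obtain ⟨g, hg⟩ := exists_surj_sum
  filter_upwards [Int_nm (Ψ := fun (ξ : ℕ ⊕ Om) G => cut (f (ptX ξ G)))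
    (fun ξ => (loc_ptX ξ).comp fun z => cut (f z)) hg] with G hG
  show Int ℚ (nm _) G = _
  rw [hG, ← range_ptX, ← Set.range_comp, ← Set.range_comp]
  rfl

lemma Int_MM (f : (ℕ → ℕ) → ℝ) :
    ∀ᶠ G in Gn (Set ℕ), Int ℚ (MM f) G = cut '' (f '' Set.range (DG G).h) := by
  filter_upwards [Int_nm (Ψ := fun (a : Om) G => cut (f ((DG G).h a)))
    (fun a => (loc_h a).comp fun z => cut (f z)) Function.surjective_id] with G hG
  show Int ℚ (nm _) G = _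
  rw [hG, ← Set.range_comp, ← Set.range_comp]
  rfl

lemma vSet_XX (f : (ℕ → ℕ) → ℝ) : vSet (XX f) = ⊤ := by
  obtain ⟨g, hg⟩ := exists_surj_sum
  exact vSet_nm (fun ξ => (loc_ptX ξ).comp fun z => cut (f z)) hg fun _ _ => ⟨_, rfl⟩

lemma vSet_MM (f : (ℕ → ℕ) → ℝ) : vSet (MM f) = ⊤ :=
  vSet_nm (fun a => (loc_h a).comp fun z => cut (f z)) Function.surjective_id
    fun _ _ => ⟨_, rfl⟩

include hf

theorem vProdScheepers_XX : vProdScheepers (XX f) = ⊤ := by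
  unfold vProdScheepers
  rw [iInf_eq_top]
  rintro ⟨Y, hY⟩
  rw [himp_eq_top_iff, le_iff]
  filter_upwards [ev_S1 Set.univ hY, rz_vSet hY, ev_S2 {0} (ext_XX (f := f)) hY, Int_XX f,
    ev_K1 hf] with G h1 h2 h3 h4 h5 hG
  have hG := in_inf.1 hG
  have hS : PScheepers (Rg (ℕ × (ℚ × ℚ)) G) pIvl Set.univ (Int ℚ Y G) :=
    h1.1 (hG.2.le (vScheepers_le Set.univ))
  set Y' : Set ℝ := {r | cut r ∈ Int ℚ Y G} with hY'
  have hYY : Int ℚ Y G = cut '' Y' := by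
    ext x
    constructor
    · intro hx
      obtain ⟨r, rfl⟩ := h2.1 hG.1 x hx
      exact ⟨r, hx, rfl⟩
    · rintro ⟨r, hr, rfl⟩
      exact hr
  rw [hYY, PScheepers_image cut_injective pIvl_cut_iff] at hS
  rw [vScheepers_eq]
  refine h3.2 ?_
  rw [h4, hYY, image_cutP, PScheepers_image cutP_injective pBox_cutP]
  exact h5 Y' hS

theorem vMenger_MM : vMenger vIvl (MM f) = ⊤ := by
  rw [vMenger_eq, eq_top_iff']
  filter_upwards [ev_M1 {0} (ext_MM (f := f)), Int_MM f, ev_K2 hf] with G h1 h2 h3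
  refine h1.2 ?_
  rw [h2, PMenger_image pIvl_cut_iff]
  exact h3

theorem vMenger_prod : vMenger vBox (vProd (XX f) (MM f)) = ⊥ := by
  rw [eq_bot_iff, le_iff]
  filter_upwards [ev_M2 Set.univ (ext_XX (f := f)) (ext_MM (f := f)), Int_XX f, Int_MM f,
    ev_K3 hf] with G h1 h2 h3 h4 hG
  exfalso
  have h5 := h1.1 (hG.le (vMenger_le Set.univ))
  rw [h2, h3, image_cutP, PMenger_image pBox_cutP] at h5
  exact h4 h5

theorem vProdMenger_XX : vProdMenger (XX f) = ⊥ := by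
  rw [eq_bot_iff]
  unfold vProdMenger
  refine (iInf_le _ ⟨MM f, ext_MM⟩).trans ?_
  rw [vSet_MM, vMenger_MM hf, vMenger_prod hf, top_inf_eq, top_himp]

end

/-- **The value of `theta` is the largest element.** -/
theorem theta_BB : theta BB = ⊤ := by
  obtain ⟨f, hf⟩ := exists_emb
  rw [eq_top_iff]
  unfold theta
  refine le_trans ?_ (le_iSup _ ⟨XX f, ext_XX⟩)
  show ⊤ ≤ vSet (XX f) ⊓ vProdScheepers (XX f) ⊓ (vProdMenger (XX f))ᶜ
  rw [vSet_XX, vProdScheepers_XX hf, vProdMenger_XX hf, compl_bot]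
  exact le_inf (le_inf le_rfl le_rfl) le_rfl

end Pool.Agent.SigF
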