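import Pool.Agent.SigF.Los

/-!
A generic function `G` from `ω₁` to the functions from `ω₁` to `A` guesses every function from
`ω₁` to `A` in the extension: the value `G a` agrees below `a` with the given function, for
arbitrarily large limits `a`.
-/

namespace Pool.Agent.SigF

open Set Filter

/-- Least upper bounds of sequences. -/
lemma Om.exists_lub (s : ℕ → Om) (hs : ∀ n, s n < s (n + 1)) :
    ∃ a, (∀ n, s n < a) ∧ ∀ b < a, ∃ n, b < s n := by
  obtain ⟨b, hb⟩ := Om.exists_gt_seq s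
  have hne : {a | ∀ n, s n < a}.Nonempty := ⟨b, hb⟩
  refine ⟨wellFounded_lt.min _ hne, wellFounded_lt.min_mem _ hne, fun c hc => ?_⟩
  have h1 : c ∉ {a | ∀ n, s n < a} := fun h => wellFounded_lt.not_lt_min _ h hc
  have h2 : ∃ n, c ≤ s n := by
    by_contra h
    push Not at h
    exact h1 h
  obtain ⟨n, hn⟩ := h2
  exact ⟨n + 1, hn.trans_lt (hs n)⟩

theorem ev_guess {A : Type} {Φ : Om → Br (Om → A) → A} (hΦ : ∀ b, LD (Φ b)) :
    ∀ᶠ G in Gn (Om → A), ∀ a₀, ∃ a, a₀ ≤ a ∧ ((∃ b, b < a) ∧ ∀ b < a, ∃ c, b < c ∧ c < a) ∧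
      ∀ b < a, Φ b G = G a b := by
  classical
  refine ev_all fun a₀ => ?_
  have h0 : ∀ᶠ G in Gn (Om → A), ∃ a, a₀ ≤ a ∧ ((∃ b, b < a) ∧ ∀ b < a, ∃ c, b < c ∧ c < a) ∧
      ∀ b < a, (∀ H, Agr G H a → Φ b H = Φ b G) ∧ Φ b G = G a b := by
    refine ev_of_DO ⟨?_, ?_⟩
    · rintro G ⟨a, h1, h2, h3⟩
      obtain ⟨ε, hε⟩ := exists_gt a
      refine ⟨ε, fun H hH => ⟨a, h1, h2, fun b hb => ?_⟩⟩
      have hHa : Agr G H a := hH.mono hε.le
      have e1 : Φ b H = Φ b G := (h3 b hb).1 H hHa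
      refine ⟨fun K hK => ?_, ?_⟩
      · rw [e1]
        exact (h3 b hb).1 K (hHa.trans hK)
      · rw [e1, hH a hε]
        exact (h3 b hb).2
    · intro G₀ δ₀
      -- one step
      have step : ∀ p : Br (Om → A) × Om, ∃ q : Br (Om → A) × Om, p.2 < q.2 ∧ Agr p.1 q.1 p.2 ∧
          ∀ b < p.2, ∀ H, Agr q.1 H q.2 → Φ b H = Φ b q.1 := by
        rintro ⟨G, a⟩
        have : Countable (Iio a) := Om.countable_Iio a
        have h4 : ∀ᶠ H in Gn (Om → A), ∀ b : Iio a, LocAt (Φ b) H :=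
          ev_all_countable fun b : Iio a => hΦ b.1
        obtain ⟨H, hGH, hH⟩ := Gn.exists h4 G a
        choose δ hδ using hH
        obtain ⟨ε, hε⟩ := Om.exists_gt_countable (Set.countable_range δ)
        obtain ⟨ε', hε'⟩ := exists_gt (max ε a)
        refine ⟨(H, ε'), (le_max_right _ _).trans_lt hε', hGH, fun b hb K hK => ?_⟩
        refine hδ ⟨b, hb⟩ K (hK.mono ?_)
        exact ((hε _ ⟨_, rfl⟩).trans ((le_max_left _ _).trans_lt hε')).le
      choose nx h1 h2 h3 using step
      let p : ℕ → Br (Om → A) × Om := fun n => Nat.rec (G₀, max a₀ δ₀) (fun _ q => nx q) n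
      have hp : ∀ n, p (n + 1) = nx (p n) := fun n => rfl
      have hlt : ∀ n, (p n).2 < (p (n + 1)).2 := fun n => by rw [hp]; exact h1 _
      have hag : ∀ n, Agr (p n).1 (p (n + 1)).1 (p n).2 := fun n => by rw [hp]; exact h2 _
      have hcst : ∀ n, ∀ b < (p n).2, ∀ H, Agr (p (n + 1)).1 H (p (n + 1)).2 →
          Φ b H = Φ b (p (n + 1)).1 := fun n => by rw [hp]; exact h3 _
      have hmono : StrictMono fun n => (p n).2 := strictMono_nat_of_lt_succ hlt
      have hagm : ∀ n m, n ≤ m → Agr (p n).1 (p m).1 (p n).2 := by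
        intro n m hnm
        induction m, hnm using Nat.le_induction with
        | base => exact Agr.rfl'
        | succ m hnm ih => exact ih.trans ((hag m).mono (hmono.monotone hnm))
      obtain ⟨a, ha1, ha2⟩ := Om.exists_lub (fun n => (p n).2) hlt
      let K : Br (Om → A) := fun b => if h : ∃ n, b < (p n).2 then (p h.choose).1 b else G₀ b
      have hK : ∀ n, Agr (p n).1 K (p n).2 := by
        intro n b hb
        have hex : ∃ n, b < (p n).2 := ⟨n, hb⟩
        have e : K b = (p hex.choose).1 b := dif_pos hex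
        rw [e]
        have h5 := hex.choose_spec
        rcases le_total n hex.choose with h | h
        · exact hagm _ _ h b hb
        · exact (hagm _ _ h b h5).symm
      let L : Br (Om → A) := fun b => if b = a then fun c => Φ c K else K b
      have hL : Agr K L a := fun b hb => if_neg hb.ne
      have hLa : L a = fun c => Φ c K := if_pos rfl
      have hLp : ∀ n, Agr (p n).1 L (p n).2 := fun n => (hK n).trans (hL.mono (ha1 n).le)
      have key : ∀ b < a, ∀ H, Agr L H a → Φ b H = Φ b K := by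
        intro b hb H hH
        obtain ⟨n, hn⟩ := ha2 b hb
        have e1 := hcst n b hn H ((hLp (n + 1)).trans (hH.mono (ha1 (n + 1)).le))
        have e2 := hcst n b hn K (hK (n + 1))
        rw [e1, e2]
      refine ⟨L, ⟨a, (le_max_left _ _).trans (ha1 0).le, ⟨⟨_, ha1 0⟩, fun b hb => ?_⟩,
        fun b hb => ⟨fun H hH => ?_, ?_⟩⟩, ?_⟩
      · obtain ⟨n, hn⟩ := ha2 b hb
        exact ⟨_, hn, ha1 n⟩
      · rw [key b hb H hH, key b hb L Agr.rfl']
      · rw [key b hb L Agr.rfl', hLa]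
      · have h6 : Agr G₀ L (max a₀ δ₀) := hLp 0
        exact h6.mono (le_max_right _ _)
  refine h0.mono fun G hG => ?_
  obtain ⟨a, h1, h2, h3⟩ := hG
  exact ⟨a, h1, h2, fun b hb => (h3 b hb).2⟩

end Pool.Agent.SigF
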