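import Pool.Agent.SigF.Stmt

/-!
The covering properties for actual sets of points, relative to a set `M` of families of basic
open sets; coding of the subsets of a countable type by sets of natural numbers.
-/

namespace Pool.Agent.SigF

section
variable {P C : Type*} (M : Set (ℕ × C → Prop)) (mem : P → C → Prop)

/-- The `n`-th family covers `Z`, for all `n`. -/
def PCovers (Z : Set P) (U : ℕ × C → Prop) : Prop := ∀ p ∈ Z, ∀ n, ∃ c, U (n, c) ∧ mem p c

/-- `F` consists of finite subfamilies of `U`. -/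
def PChoice {C : Type*} (U F : ℕ × C → Prop) : Prop :=
  ∀ n, (∀ c, F (n, c) → U (n, c)) ∧ ∃ s : Finset C, ∀ c, c ∉ s → ¬ F (n, c)

/-- Menger, for covers in `M`, with finite subfamilies in `M`; for each `N` in `S` the point is in
a member of the `n`-th finite family with some `n ≥ N`. -/
def PMenger (S : Set ℕ) (Z : Set P) : Prop :=
  ∀ U ∈ M, PCovers mem Z U → ∃ F ∈ M, PChoice U F ∧
    ∀ p ∈ Z, ∀ N ∈ S, ∃ n, N ≤ n ∧ ∃ c, F (n, c) ∧ mem p c

/-- Scheepers, for covers in `M`, with finite subfamilies in `M`. -/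
def PScheepers (S : Set ℕ) (Z : Set P) : Prop :=
  ∀ U ∈ M, PCovers mem Z U → ∃ F ∈ M, PChoice U F ∧
    ∀ A : Set P, A.Finite → A ⊆ Z → ∀ N ∈ S, ∃ n, N ≤ n ∧ ∀ p ∈ A, ∃ c, F (n, c) ∧ mem p c

end

/-- The subset of `T` coded by a set of natural numbers. -/
def dec (T : Type) [Encodable T] (x : Set ℕ) : T → Prop := fun t => Encodable.encode t ∈ x

lemma dec_surj (T : Type) [Encodable T] : Function.Surjective (dec T) := by
  intro y
  refine ⟨Encodable.encode '' {t | y t}, funext fun t => propext ⟨?_, fun h => ⟨t, h, rfl⟩⟩⟩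
  rintro ⟨s, hs, h⟩
  exact Encodable.encode_injective h ▸ hs

/-- The Dedekind cut of a real number. -/
def cut (r : ℝ) : ℚ → Prop := fun q => (q : ℝ) < r

/-- `x` is the cut of a real number in the interval `c`. -/
def pIvl (x : ℚ → Prop) (c : ℚ × ℚ) : Prop := x c.1 ∧ ∃ r < c.2, ¬ x r

/-- Boxes. -/
def pBox (p : (ℚ → Prop) × (ℚ → Prop)) (c : (ℚ × ℚ) × (ℚ × ℚ)) : Prop :=
  pIvl p.1 c.1 ∧ pIvl p.2 c.2

lemma pIvl_cut (r : ℝ) (c : ℚ × ℚ) : pIvl (cut r) c ↔ (c.1 : ℝ) < r ∧ r < c.2 := by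
  constructor
  · rintro ⟨h1, q, hq, h2⟩
    refine ⟨h1, (not_lt.1 h2).trans_lt ?_⟩
    exact_mod_cast hq
  · rintro ⟨h1, h2⟩
    obtain ⟨q, hq1, hq2⟩ := exists_rat_btwn h2
    exact ⟨h1, q, by exact_mod_cast hq2, not_lt.2 hq1.le⟩

lemma cut_injective : Function.Injective cut := by
  intro r s h
  apply le_antisymm
  · by_contra hc
    obtain ⟨q, hq1, hq2⟩ := exists_rat_btwn (not_le.1 hc)
    have h1 : cut s q := h ▸ (show cut r q from hq2)
    exact absurd (show (q : ℝ) < s from h1) (not_lt.2 hq1.le)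
  · by_contra hc
    obtain ⟨q, hq1, hq2⟩ := exists_rat_btwn (not_le.1 hc)
    have h1 : cut r q := h.symm ▸ (show cut s q from hq2)
    exact absurd (show (q : ℝ) < r from h1) (not_lt.2 hq1.le)

end Pool.Agent.SigF
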