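import Pool.Agent.SigF.Space
import Pool.Agent.SigF.Pw
import Pool.Agent.Sc72.Gen
import Pool.Agent.Fo65.RO

/-!
Definitions: the algebra, membership of a branch in a truth value, names of ground model sets, the
set named by `Z` at a branch, names of families.
-/

namespace Pool.Agent.SigF

open Pool.Agent.Sc72 Pool.Agent.Fo65

/-- The branch `G` is in the regular open set `b`. -/
def In {R : Type} (G : Br R) (b : RO (Br R)) : Prop := G ∈ b.val

/-- The algebra: regular open sets of the space of functions from `ω₁` to the set of all sets of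
natural numbers. -/
abbrev BB : Type := RO (Br (Set ℕ))

/-- The name of a set of the ground model. -/
def chk {B : Type*} [CompleteBooleanAlgebra B] {T : Type*} (x : T → Prop) : T → B :=
  fun t => ⨆ _ : x t, ⊤

/-- The subsets of `T` which are listed by `G`. -/
def Rg (T : Type) [Encodable T] (G : Br (Set ℕ)) : Set (T → Prop) := {x | ∃ α, dec T (G α) = x}

/-- The set named by `Z` at `G`. -/
def Int (T : Type) [Encodable T] (Z : (T → BB) → BB) (G : Br (Set ℕ)) : Set (T → Prop) :=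
  {x | x ∈ Rg T G ∧ In G (Z (chk x))}

section
variable {B : Type*} [CompleteBooleanAlgebra B] {P C : Type*} (mem : P → C → B) (S : Set ℕ)

/-- `vMenger` in the form: for every `N` in `S` there is `n ≥ N`. -/
def vMengerS (Z : P → B) : B :=
  ⨅ U : ℕ × C → B, vCovers mem Z U ⇨ ⨆ F : ℕ × C → B, vChoice U F ⊓
    ⨅ p : P, Z p ⇨ ⨅ N : ℕ, ⨅ _ : N ∈ S, ⨆ n : ℕ, ⨆ _ : N ≤ n, ⨆ c : C, F (n, c) ⊓ mem p c

/-- `vScheepers` in the form: for every `N` in `S` there is `n ≥ N`. -/
def vScheepersS (Z : P → B) : B :=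
  ⨅ U : ℕ × C → B, vCovers mem Z U ⇨ ⨆ F : ℕ × C → B, vChoice U F ⊓
    ⨅ k : ℕ, ⨅ p : Fin k → P, (⨅ i, Z (p i)) ⇨ ⨅ N : ℕ, ⨅ _ : N ∈ S, ⨆ n : ℕ, ⨆ _ : N ≤ n,
      ⨅ i, ⨆ c : C, F (n, c) ⊓ mem (p i) c

end

open Classical in
/-- The name of the subset `{t | Ψ G t}` of `T`. -/
noncomputable def nm1 {T : Type} (Ψ : Br (Set ℕ) → T → Prop) (t : T) : BB :=
  if h : IsOpen {G | Ψ G t} then Heyting.Regular.toRegular ⟨{G | Ψ G t}, h⟩ else ⊥

/-- The name of the set of all `Ψ ξ G`. -/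
noncomputable def nm {T Ξ : Type} (Ψ : Ξ → Br (Set ℕ) → T → Prop) : (T → BB) → BB :=
  fam fun ξ => nm1 (Ψ ξ)

end Pool.Agent.SigF
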