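import Pool.Agent.SigF.Loc65

/-!
MP_42532c: the combinatorial part, relative to a family of codes indexed by `I`.
-/

set_option autoImplicit false

namespace Pool.Agent.SigF.Rel

open Topology Pool.Agent.Helper48.PS

variable {I : Type} [LinearOrder I]

/-- The combinatorial data, for functions `r a` and open sets `U a n m`, `a` in `I`. -/
structure DataR (I : Type) [LinearOrder I] (r : I → ℕ → ℕ) (U : I → ℕ → ℕ → Set (ℕ → ℕ)) where
  w : I → Set ℕ
  v : I → Set ℕ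
  h : I → ℕ → ℕ
  s : I → ℕ → ℕ
  G : I → ℕ → ℕ
  cnt : ∀ a : I, (Set.Iio a).Countable
  unc : ¬ Countable I
  serve : ∀ a i, ∃ m ∈ w a, i ≤ m ∧ m < h a i
  vw : ∀ a, v a ⊆ w a
  vinf : ∀ a, (v a).Infinite
  scale : ∀ δ : I, ∃ g : ℕ → ℕ, Monotone g ∧ (∀ k, k < g k) ∧ (∀ k, r δ k ≤ g k) ∧
    (∀ b, δ ≤ b → ∀ a, b < a → ∃ N, ∀ m ∈ w a, N ≤ m → Far g (w b) m) ∧
    (∀ a, δ ≤ a → ∃ N, ∀ m ∈ v a, N ≤ m → ∀ m' ∈ v a, m < m' → g m ≤ m') ∧
    (∀ a, δ ≤ a → ∃ N, ∀ n, N ≤ n → g n ≤ s a n)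
  menger : ∀ δ a : I, δ ≤ a →
    (∃ n, ∀ m, h a ∉ U δ n m) ∨ ∀ N, ∃ n, N ≤ n ∧ ∃ m, m ≤ G δ n ∧ h a ∈ U δ n m

/-- A function dominating a countable family. -/
noncomputable def dom (F : Set (ℕ → ℕ)) : ℕ → ℕ :=
  pick fun s => ∀ f ∈ F, ∃ N, ∀ n, N ≤ n → f n ≤ s n

/-- The data of the recursion. -/
noncomputable def toData {r : I → ℕ → ℕ} {U : I → ℕ → ℕ → Set (ℕ → ℕ)} (D : I → Dat)
    (hD : ∀ a, Good r U a D (D a)) (hcnt : ∀ a : I, (Set.Iio a).Countable)
    (hunc : ¬ Countable I) : DataR I r U where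
  w := fun a => (D a).w
  v := fun a => (D a).v
  h := fun a => (D a).h
  s := fun a => dom (D a).F
  G := fun a => (D a).G
  cnt := hcnt
  unc := hunc
  serve := fun a => (hD a).T5
  vw := fun a => (hD a).vw
  vinf := fun a => (hD a).vinf
  scale := by
    have hsub : ∀ a b, a ≤ b → (D a).F ⊆ (D b).F := by
      intro a b hab
      rcases hab.lt_or_eq with h | rfl
      · exact (hD b).sub a h
      · exact subset_rfl
    intro δ
    obtain ⟨g, hg, hfg⟩ := (hD δ).rle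
    refine ⟨g, ((hD δ).mono g hg).1, ((hD δ).mono g hg).2, hfg, fun b hb a hab => ?_,
      fun a ha => ?_, fun a ha => ?_⟩
    · exact (hD a).T1 b hab g (hsub δ b hb hg)
    · exact (hD a).T4 g (hsub δ a ha hg)
    · exact pick_spec (exists_dom (hD a).cF) g (hsub δ a ha hg)
  menger := by
    intro δ a ha
    rcases ha.lt_or_eq with h | h
    · exact (hD a).T3 δ h
    · rw [← h]
      exact (hD δ).T3'

variable {r : I → ℕ → ℕ} {U : I → ℕ → ℕ → Set (ℕ → ℕ)}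

open Classical in
/-- The point with set `w` and markers `v`. -/
noncomputable def pt (w v : Set ℕ) : ℕ → ℕ := fun i => if i ∈ v then 2 else if i ∈ w then 1 else 0

/-- The point `x a` : 0 outside of `w a`, 2 on the markers, 1 on the other points of `w a`. -/
noncomputable def DataR.x (D : DataR I r U) (a : I) : ℕ → ℕ := pt (D.w a) (D.v a)

theorem DataR.x_zero (D : DataR I r U) {a : I} {i : ℕ} (h : i ∉ D.w a) : D.x a i = 0 := by
  classical
  unfold DataR.x pt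
  rw [if_neg fun hv => h (D.vw a hv), if_neg h]

theorem DataR.x_le (D : DataR I r U) (a : I) (i : ℕ) : D.x a i ≤ 2 := by
  classical
  unfold DataR.x pt
  split_ifs <;> omega

theorem DataR.x_ne (D : DataR I r U) {a : I} {i : ℕ} (h : i ∈ D.w a) : D.x a i ≠ 0 := by
  classical
  unfold DataR.x pt
  split_ifs <;> omega

theorem DataR.x_two (D : DataR I r U) {a : I} {i : ℕ} : D.x a i = 2 ↔ i ∈ D.v a := by
  classical
  unfold DataR.x pt
  split_ifs with h1 h2 <;> simp [h1]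

/-- The first set. -/
def DataR.X (D : DataR I r U) : Set (ℕ → ℕ) := Fin2 ∪ Set.range D.x

theorem DataR.fin2_mem (D : DataR I r U) {s : ℕ → ℕ} (h1 : ∀ i, s i ≤ 2) {k : ℕ}
    (h2 : ∀ i, k ≤ i → s i = 0) : s ∈ D.X := Or.inl ⟨h1, k, h2⟩

theorem DataR.nonempty (D : DataR I r U) : Nonempty I := by
  by_contra h
  rw [not_nonempty_iff] at h
  exact D.unc inferInstance

/-- Every sequence is bounded in `I`. -/
theorem DataR.exists_gt_seq (D : DataR I r U) (c : ℕ → I) : ∃ b : I, ∀ n, c n < b := by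
  by_contra hcon
  push Not at hcon
  have h1 : (Set.univ : Set I) ⊆ ⋃ n, insert (c n) (Set.Iio (c n)) := by
    intro b _
    obtain ⟨n, hn⟩ := hcon b
    refine Set.mem_iUnion.2 ⟨n, ?_⟩
    rcases hn.lt_or_eq with h | h
    · exact Or.inr h
    · exact Or.inl h
  have h2 : (Set.univ : Set I).Countable :=
    (Set.countable_iUnion fun n => (D.cnt (c n)).insert _).mono h1
  exact D.unc (Set.countable_univ_iff.1 h2)

theorem DataR.exists_gt (D : DataR I r U) (a : I) : ∃ b : I, a < b := by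
  obtain ⟨b, hb⟩ := D.exists_gt_seq fun _ => a
  exact ⟨b, hb 0⟩

theorem DataR.exists_gt_finset (D : DataR I r U) (s : Finset I) (a : I) :
    ∃ b : I, a < b ∧ ∀ c ∈ s, c < b := by
  classical
  induction s using Finset.induction_on with
  | empty =>
    obtain ⟨b, hb⟩ := D.exists_gt a
    exact ⟨b, hb, by simp⟩
  | insert c s _ ih =>
    obtain ⟨b, hb, hs⟩ := ih
    obtain ⟨d, hd⟩ := D.exists_gt (max b c)
    refine ⟨d, hb.trans ((le_max_left _ _).trans_lt hd), fun e he => ?_⟩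
    rcases Finset.mem_insert.1 he with rfl | he
    · exact (le_max_right _ _).trans_lt hd
    · exact (hs e he).trans ((le_max_left _ _).trans_lt hd)

/-- The pressing down argument for finite sets. -/
theorem DataR.exists_gap (D : DataR I r U) (s : I → Finset I) :
    ∃ δ : I, ∀ ε : I, ∃ c, ε ≤ c ∧ ∀ a ∈ s c, δ ≤ a → ε ≤ a := by
  by_contra hcon
  push Not at hcon
  choose ε hε using hcon
  obtain ⟨i₀⟩ := D.nonempty
  let d : ℕ → I := fun n => Nat.rec i₀ (fun _ x => ε x) n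
  have hd : ∀ n, d (n + 1) = ε (d n) := fun n => rfl
  obtain ⟨c, hc⟩ := D.exists_gt_seq d
  have key : ∀ n, ∃ a ∈ s c, d n ≤ a ∧ a < d (n + 1) := by
    intro n
    obtain ⟨a, h1, h2, h3⟩ := hε (d n) c (by rw [← hd]; exact (hc (n + 1)).le)
    exact ⟨a, h1, h2, by rw [hd]; exact h3⟩
  choose a ha1 ha2 ha3 using key
  have hmono : StrictMono a := strictMono_nat_of_lt_succ fun n => (ha3 n).trans_le (ha2 (n + 1))
  have hinf : (Set.range a).Infinite := Set.infinite_range_of_injective hmono.injective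
  exact hinf ((s c).finite_toSet.subset (by rintro _ ⟨n, rfl⟩; exact ha1 n))

/-- A sequence enumerating a countable nonempty set. -/
noncomputable def enum (Q : Set (ℕ → ℕ)) : ℕ → ℕ → ℕ := pick fun q => Q = Set.range q

theorem enum_spec {Q : Set (ℕ → ℕ)} (h : Q.Countable) (hne : Q.Nonempty) :
    Q = Set.range (enum Q) := pick_spec (h.exists_eq_range hne)

/-- The boxes given by an initial segment of length `j`. -/
def Box {Y : Type*} (V : ℕ → ℕ → Set ((ℕ → ℕ) × Y)) (s : ℕ → ℕ) (n j : ℕ) (y : Y) : Prop :=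
  ∀ x : ℕ → ℕ, (∀ i < j, x i = s i) → (x, y) ∈ V n j

/-- The countable part of `X`. -/
def QQ (x : I → ℕ → ℕ) (δ : I) : Set (ℕ → ℕ) := Fin2 ∪ x '' Set.Iio δ

/-- Finite sequences of length `k`. -/
def SS (k : ℕ) : Set (ℕ → ℕ) := {s | (∀ i, s i ≤ 2) ∧ ∀ i, k ≤ i → s i = 0}

/-- The covers of the second factor. -/
def WW {Y : Type*} [TopologicalSpace Y] (x : I → ℕ → ℕ) (V : ℕ → ℕ → Set ((ℕ → ℕ) × Y)) (δ : I)
    (k j : ℕ) : Set Y :=
  (⋂ s ∈ SS k, ⋂ n ∈ Set.Iic k, {y | ∀ᶠ y' in 𝓝 y, Box V s n j y'}) ∩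
    ⋂ i ∈ Set.Iic k, ⋂ n ∈ Set.Iic k, {y | (enum (QQ x δ) i, y) ∈ V n j}

section
variable {Y : Type*} [TopologicalSpace Y] (x : I → ℕ → ℕ) {V : ℕ → ℕ → Set ((ℕ → ℕ) × Y)}

theorem isOpen_WW (ho : ∀ n m, IsOpen (V n m)) (δ : I) (k j : ℕ) : IsOpen (WW x V δ k j) := by
  refine IsOpen.inter ?_ ?_
  · exact (finite_supp k).isOpen_biInter fun s _ =>
      (Set.finite_Iic k).isOpen_biInter fun n _ => isOpen_setOfPred_eventually_nhds
  · exact (Set.finite_Iic k).isOpen_biInter fun i _ =>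
      (Set.finite_Iic k).isOpen_biInter fun n _ =>
        (ho n j).preimage (Continuous.prodMk_right _)

theorem mono_WW (hm : ∀ n, Monotone (V n)) (δ : I) (k : ℕ) : Monotone (WW x V δ k) := by
  have hLm : ∀ s n j j', j ≤ j' → ∀ y, Box V s n j y → Box V s n j' y :=
    fun s n j j' hj y h x hx => hm n hj (h x fun i hi => hx i (by omega))
  intro j j' hj y hy
  refine ⟨?_, ?_⟩
  · simp only [Set.mem_iInter]
    intro s hs n hn
    have h1 := Set.mem_iInter₂.1 (Set.mem_iInter₂.1 hy.1 s hs) n hn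
    exact Filter.Eventually.mono h1 fun y' hy' => hLm s n j j' hj y' hy'
  · simp only [Set.mem_iInter]
    intro i hi n hn
    exact hm n hj (Set.mem_iInter₂.1 (Set.mem_iInter₂.1 hy.2 i hi) n hn)

/-- The sets `WW` cover when the sets `V` cover. -/
theorem cover_WW (ho : ∀ n m, IsOpen (V n m)) (hm : ∀ n, Monotone (V n)) (δ : I)
    (hcnt : (Set.Iio δ).Countable) (y : Y)
    (hc : ∀ z ∈ Helper48.PS.Fin2 ∪ Set.range x, ∀ n, ∃ m, (z, y) ∈ V n m) (k : ℕ) :
    ∃ j, y ∈ WW x V δ k j := by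
  have hQ : QQ x δ = Set.range (enum (QQ x δ)) := by
    refine enum_spec (Fin2_countable.union (hcnt.image x)) ?_
    exact ⟨fun _ => 0, Or.inl ⟨fun _ => Nat.zero_le _, 0, fun _ _ => rfl⟩⟩
  have hQX : ∀ i, enum (QQ x δ) i ∈ Helper48.PS.Fin2 ∪ Set.range x := by
    intro i
    have h1 : enum (QQ x δ) i ∈ QQ x δ := by rw [hQ]; exact ⟨i, by rw [← hQ]⟩
    rcases h1 with h1 | ⟨a, -, h1⟩
    · exact Or.inl h1
    · exact Or.inr ⟨a, h1⟩
  have h1 : ∀ᶠ j in Filter.atTop, ∀ s ∈ SS k, ∀ n ∈ Set.Iic k,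
      ∀ᶠ y' in 𝓝 y, Box V s n j y' := by
    refine (finite_supp k).eventually_all.2 fun s hs =>
      (Set.finite_Iic k).eventually_all.2 fun n _ => ?_
    obtain ⟨m, hm'⟩ := hc s (Or.inl ⟨hs.1, k, hs.2⟩) n
    obtain ⟨P, hP, R, hR, hPR⟩ := mem_nhds_prod_iff.1 ((ho n m).mem_nhds hm')
    obtain ⟨T, ⟨x, j₀, rfl⟩, hT1, hT2⟩ :=
      (PiNat.isTopologicalBasis_cylinders (fun _ : ℕ => ℕ)).mem_nhds_iff.1 hP
    refine Filter.eventually_atTop.2 ⟨max m j₀, fun j hj => ?_⟩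
    refine Filter.eventually_of_mem hR fun y' hy' x' hx' => ?_
    refine hm n ((le_max_left m j₀).trans hj) (hPR (Set.mk_mem_prod (hT2 ?_) hy'))
    rw [PiNat.mem_cylinder_iff] at hT1 ⊢
    intro i hi
    rw [← hT1 i hi]
    exact hx' i (hi.trans_le ((le_max_right m j₀).trans hj))
  have h2 : ∀ᶠ j in Filter.atTop, ∀ i ∈ Set.Iic k, ∀ n ∈ Set.Iic k,
      (enum (QQ x δ) i, y) ∈ V n j := by
    refine (Set.finite_Iic k).eventually_all.2 fun i _ =>
      (Set.finite_Iic k).eventually_all.2 fun n _ => ?_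
    obtain ⟨m, hm'⟩ := hc _ (hQX i) n
    exact Filter.eventually_atTop.2 ⟨m, fun j hj => hm n hj hm'⟩
  obtain ⟨j, hj1, hj2⟩ := (h1.and h2).exists
  exact ⟨j, Set.mem_iInter₂.2 fun s hs => Set.mem_iInter₂.2 fun n hn => hj1 s hs n hn,
    Set.mem_iInter₂.2 fun i hi => Set.mem_iInter₂.2 fun n hn => hj2 i hi n hn⟩

/-- `WW` depends on an initial segment only. -/
theorem congr_WW {x x' : I → ℕ → ℕ} {δ : I} (h : ∀ b < δ, x b = x' b) :
    WW x V δ = WW x' V δ := by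
  have e : QQ x δ = QQ x' δ := by
    have e1 : x '' Set.Iio δ = x' '' Set.Iio δ := Set.image_congr fun b hb => h b hb
    unfold QQ
    rw [e1]
  funext k j
  unfold WW
  rw [e]

end

/-- **The product lemma.** If for every `δ` some `r d` is a selection for the covers `WW δ`,
then some `s c` is a selection for `V`. -/
theorem DataR.prod_rel (D : DataR I r U) {Y : Type*} [TopologicalSpace Y] (M : Set Y)
    {V : ℕ → ℕ → Set ((ℕ → ℕ) × Y)} (hm : ∀ n, Monotone (V n))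
    (hW : ∀ δ : I, ∃ d : I, ∀ A : Set Y, A ⊆ M → A.Finite → ∀ N, ∃ n, N ≤ n ∧
      A ⊆ WW D.x V δ n (r d n)) :
    ∃ c : I, ∀ A : Set ((ℕ → ℕ) × Y), A ⊆ D.X ×ˢ M → A.Finite → ∃ n, A ⊆ V n (D.s c n) := by
  classical
  by_contra hcon
  push Not at hcon
  -- finite sets which are not covered along the scale
  choose A hAX hAf hA using hcon
  -- indices
  have hix : ∀ x : ℕ → ℕ, ∃ a : I, x ∈ D.X → x ∈ Helper48.PS.Fin2 ∨ x = D.x a := by
    intro x
    by_cases hx : x ∈ D.X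
    · rcases hx with hx | ⟨a, rfl⟩
      · exact ⟨D.nonempty.some, fun _ => Or.inl hx⟩
      · exact ⟨a, fun _ => Or.inr rfl⟩
    · exact ⟨D.nonempty.some, fun h => absurd h hx⟩
  choose ix hix using hix
  let s : I → Finset I := fun c => (hAf c).toFinset.image fun z => ix z.1
  obtain ⟨δ, hδ⟩ := D.exists_gap s
  have hWm : ∀ k, Monotone (WW D.x V δ k) := mono_WW D.x hm δ
  have hq : QQ D.x δ = Set.range (enum (QQ D.x δ)) := by
    refine enum_spec (Fin2_countable.union ((D.cnt δ).image D.x)) ?_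
    exact ⟨fun _ => 0, Or.inl ⟨fun _ => Nat.zero_le _, 0, fun _ _ => rfl⟩⟩
  obtain ⟨d, hg₀⟩ := hW δ
  obtain ⟨g, hgm, hgid, hg₀g, hfar, -, hdom⟩ := D.scale d
  -- the two indices
  obtain ⟨c, hc1, hc2⟩ := hδ (max δ d)
  obtain ⟨ε, hε1, hε2⟩ := D.exists_gt_finset (s c) (max δ d)
  obtain ⟨c', hc1', hc2'⟩ := hδ ε
  have hmem : ∀ c, ∀ z ∈ A c, ix z.1 ∈ s c := fun c z hz =>
    Finset.mem_image.2 ⟨z, (hAf c).mem_toFinset.2 hz, rfl⟩
  -- one side is not hit
  have key : ∀ c, (∃ N, ∀ n, N ≤ n → g n ≤ D.s c n) → ∃ N, ∀ k, N ≤ k →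
      (∀ z ∈ A c, z.2 ∈ WW D.x V δ k (g k)) →
      ∃ a ∈ s c, δ ≤ a ∧ ∃ e ∈ D.w a, k ≤ e ∧ e < g k := by
    rintro c ⟨N₁, hN₁⟩
    have h1 : ∀ᶠ k in Filter.atTop, ∀ z ∈ A c, z.1 ∈ QQ D.x δ →
        ∃ i ∈ Set.Iic k, enum (QQ D.x δ) i = z.1 := by
      refine (hAf c).eventually_all.2 fun z _ => ?_
      by_cases hz : z.1 ∈ QQ D.x δ
      · obtain ⟨i, hi⟩ : z.1 ∈ Set.range (enum (QQ D.x δ)) := by rw [← hq]; exact hz
        exact Filter.eventually_atTop.2 ⟨i, fun k hk _ => ⟨i, hk, hi⟩⟩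
      · exact Filter.Eventually.of_forall fun k h => absurd h hz
    obtain ⟨N₂, hN₂⟩ := Filter.eventually_atTop.1 h1
    refine ⟨max N₁ N₂, fun k hk hW => ?_⟩
    by_contra hno
    push Not at hno
    refine hA c k (Set.Subset.trans (fun z hz => ?_) (hm k (hN₁ k (by omega))))
    have hzW := hW z hz
    by_cases hzQ : z.1 ∈ QQ D.x δ
    · obtain ⟨i, hi, hqi⟩ := hN₂ k (by omega) z hz hzQ
      have h2 := Set.mem_iInter₂.1 (Set.mem_iInter₂.1 hzW.2 i hi) k (Set.mem_Iic.2 le_rfl)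
      simp only [Set.mem_ofPred_eq, hqi] at h2
      exact h2
    · have h2 : z.1 = D.x (ix z.1) := by
        rcases hix z.1 (hAX c hz).1 with h | h
        · exact absurd (Or.inl h) hzQ
        · exact h
      have h3 : δ ≤ ix z.1 := by
        by_contra h
        exact hzQ (Or.inr ⟨ix z.1, not_le.1 h, h2.symm⟩)
      have h4 := hno (ix z.1) (hmem c z hz) h3
      let t : ℕ → ℕ := fun i => if i < k then z.1 i else 0
      have ht : t ∈ SS k := by
        refine ⟨fun i => ?_, fun i hi => if_neg (by omega)⟩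
        by_cases h : i < k
        · simp only [t, if_pos h]
          rw [h2]
          exact D.x_le _ _
        · simp only [t, if_neg h]
          exact Nat.zero_le _
      have h5 : ∀ᶠ y' in 𝓝 z.2, Box V t k (g k) y' :=
        Set.mem_iInter₂.1 (Set.mem_iInter₂.1 hzW.1 t ht) k (Set.mem_Iic.2 le_rfl)
      refine h5.self_of_nhds z.1 fun i hi => ?_
      by_cases h : i < k
      · simp only [t, if_pos h]
      · simp only [t, if_neg h]
        rw [h2]
        exact D.x_zero fun hw => absurd hi (not_lt.2 (h4 i hw (by omega)))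
  obtain ⟨N₁, hN₁⟩ := key c (hdom c ((le_max_right _ _).trans hc1))
  obtain ⟨N₂, hN₂⟩ := key c' (hdom c' ((le_max_right δ d).trans (hε1.le.trans hc1')))
  -- far pairs
  have h1 : ∀ᶠ k in Filter.atTop, ∀ a ∈ s c, ∀ a' ∈ s c', δ ≤ a → δ ≤ a' →
      ∀ m ∈ D.w a', k ≤ m → Far g (D.w a) m := by
    refine (s c).finite_toSet.eventually_all.2 fun a ha =>
      (s c').finite_toSet.eventually_all.2 fun a' ha' => ?_
    by_cases h : δ ≤ a ∧ δ ≤ a'
    · have h2 : max δ d ≤ a := hc2 a ha h.1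
      have h3 : ε ≤ a' := hc2' a' ha' h.2
      have h4 : a < a' := (hε2 a ha).trans_le h3
      obtain ⟨N, hN⟩ := hfar a ((le_max_right _ _).trans h2) a' h4
      exact Filter.eventually_atTop.2 ⟨N, fun k hk _ _ m hm' hkm => hN m hm' (hk.trans hkm)⟩
    · exact Filter.Eventually.of_forall fun k h5 h6 => absurd ⟨h5, h6⟩ h
  obtain ⟨N₃, hN₃⟩ := Filter.eventually_atTop.1 h1
  obtain ⟨k, hk, hkW⟩ := hg₀ (Prod.snd '' (A c ∪ A c')) (by
    rintro _ ⟨z, hz | hz, rfl⟩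
    · exact (hAX c hz).2
    · exact (hAX c' hz).2) (((hAf c).union (hAf c')).image _) (max (max N₁ N₂) N₃)
  have hkW' : ∀ z ∈ A c ∪ A c', z.2 ∈ WW D.x V δ k (g k) := fun z hz =>
    hWm k (hg₀g k) (hkW (Set.mem_image_of_mem _ hz))
  obtain ⟨a, ha, hδa, e, he, hke, heg⟩ := hN₁ k (by omega) fun z hz => hkW' z (Or.inl hz)
  obtain ⟨a', ha', hδa', e', he', hke', heg'⟩ :=
    hN₂ k (by omega) fun z hz => hkW' z (Or.inr hz)
  have h2 : g (min e e') ≤ max e e' :=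
    hN₃ k (by omega) a ha a' ha' hδa hδa' e' he' hke' e he
  have h3 : g k ≤ g (min e e') := hgm (le_min hke hke')
  have h4 : max e e' < g k := max_lt heg heg'
  omega

/-! ### the second set -/

/-- The selection which shows that the second set is Menger. -/
noncomputable def gM (h : I → ℕ → ℕ) (Gd : ℕ → ℕ) (Ud : ℕ → ℕ → Set (ℕ → ℕ)) (δ : I) : ℕ → ℕ :=
  fun n => max (Gd n) ((Finset.range (n + 1)).sup fun i =>
    sInf {m | enum (h '' Set.Iio δ) i ∈ Ud n m})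

/-- **The second set is Menger.** -/
theorem DataR.menger_rel (D : DataR I r U) (δ : I) (hm : ∀ n, Monotone (U δ n))
    (hc : ∀ a n, ∃ m, D.h a ∈ U δ n m) (a : I) :
    ∃ n, D.h a ∈ U δ n (gM D.h (D.G δ) (U δ) δ n) := by
  by_cases ha : δ ≤ a
  · rcases D.menger δ a ha with ⟨n, hn⟩ | h
    · obtain ⟨m, hm'⟩ := hc a n
      exact absurd hm' (hn m)
    · obtain ⟨n, -, m, hmG, hmU⟩ := h 0
      exact ⟨n, hm n (hmG.trans (le_max_left _ _)) hmU⟩
  · rw [not_le] at ha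
    have hq := enum_spec ((D.cnt δ).image D.h) ⟨D.h a, a, ha, rfl⟩
    obtain ⟨i, hi⟩ : D.h a ∈ Set.range (enum (D.h '' Set.Iio δ)) := by
      rw [← hq]; exact ⟨a, ha, rfl⟩
    have h1 : enum (D.h '' Set.Iio δ) i ∈ U δ i
        (sInf {m | enum (D.h '' Set.Iio δ) i ∈ U δ i m}) := by
      have hne : {m | enum (D.h '' Set.Iio δ) i ∈ U δ i m}.Nonempty := by
        obtain ⟨m, hm'⟩ := hc a i
        exact ⟨m, by rw [Set.mem_ofPred_eq, hi]; exact hm'⟩
      exact Nat.sInf_mem hne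
    have h2 := Finset.le_sup (f := fun i' => sInf {m | enum (D.h '' Set.Iio δ) i' ∈ U δ i m})
      (Finset.mem_range.2 (Nat.lt_succ_self i))
    rw [← hi]
    exact ⟨i, hm i (le_trans h2 (le_max_right _ _)) h1⟩

/-! ### the product is not Menger -/

theorem DataR.cover_gap (D : DataR I r U) {z : ℕ → ℕ} (hz : z ∈ D.X) (y : ℕ → ℕ) (n : ℕ) :
    ∃ m, (z, y) ∈ GapSet ∪ TwoSet n m := by
  rcases hz with hx | ⟨a, rfl⟩
  · obtain ⟨-, N, hN⟩ := hx
    exact ⟨0, Or.inl ⟨N, fun t ht _ => hN t ht⟩⟩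
  · obtain ⟨i, hi, hni⟩ := (D.vinf a).exists_gt n
    obtain ⟨j, hj, hij⟩ := (D.vinf a).exists_gt i
    exact ⟨j + 1, Or.inr ⟨i, j, hni.le, hij, Nat.lt_succ_self j, D.x_two.2 hi,
      D.x_two.2 hj⟩⟩

theorem mono_gap (n : ℕ) : Monotone fun m => GapSet ∪ TwoSet n m := by
  intro m m' hmm
  refine Set.union_subset_union_right _ ?_
  rintro z ⟨a, b, h1, h2, h3, h4⟩
  exact ⟨a, b, h1, h2, h3.trans_le hmm, h4⟩

/-- **The product is not Menger.** -/
theorem DataR.not_menger_rel (D : DataR I r U) (δ : I) : ¬ ∀ a : I, ∀ N, ∃ n, N ≤ n ∧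
    (D.x a, D.h a) ∈ GapSet ∪ TwoSet n (r δ n) := by
  intro hg₀
  obtain ⟨g, hgm, hgid, hg₀g, -, hv, -⟩ := D.scale δ
  obtain ⟨N, hN⟩ := hv δ le_rfl
  obtain ⟨n, hn, hz⟩ := hg₀ δ N
  rcases hz with ⟨i, hi⟩ | ⟨a, b, h1, h2, h3, h4, h5⟩
  · obtain ⟨m, hm1, hm2, hm3⟩ := D.serve δ i
    exact D.x_ne hm1 (hi m hm2 hm3)
  · have h6 := hN a (D.x_two.1 h4) (by omega) b (D.x_two.1 h5) h2
    have h7 := hgm h1
    have h8 := hg₀g n
    omega

end Pool.Agent.SigF.Rel
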