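import Pool.Agent.SigF.Val
import Pool.Agent.SigF.Rel65

/-!
The decoders, and the pointwise statements K1, K2, K3.
-/

namespace Pool.Agent.SigF

open Pool.Agent.Helper48.PS Pool.Agent.SigF.Rel

/-- Membership of a real number in a rational interval. -/
def memR (r : ℝ) (c : ℚ × ℚ) : Prop := (c.1 : ℝ) < r ∧ r < c.2

/-- Membership in a rational box. -/
def memR2 (p : ℝ × ℝ) (c : (ℚ × ℚ) × (ℚ × ℚ)) : Prop := memR p.1 c.1 ∧ memR p.2 c.2

/-- The function coded by a set of natural numbers. -/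
noncomputable def rOf (x : Set ℕ) : ℕ → ℕ := fun n => sInf {m | dec (ℕ × ℕ) x (n, m)}

/-- The double sequence of sets of finite sequences coded by a set of natural numbers. -/
def uOf (x : Set ℕ) : ℕ → ℕ → Set (List ℕ) := fun n m => {l | dec (ℕ × ℕ × List ℕ) x (n, m, l)}

lemma rOf_surj : Function.Surjective rOf := by
  intro f
  obtain ⟨x, hx⟩ := dec_surj (ℕ × ℕ) fun p => f p.1 = p.2
  refine ⟨x, funext fun n => ?_⟩
  unfold rOf
  rw [hx]
  have : {m | (fun p : ℕ × ℕ => f p.1 = p.2) (n, m)} = {f n} := by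
    ext m
    exact ⟨fun h => (show f n = m from h).symm, fun h => (show m = f n from h).symm⟩
  rw [this, csInf_singleton]

lemma uOf_surj : Function.Surjective uOf := by
  intro c
  obtain ⟨x, hx⟩ := dec_surj (ℕ × ℕ × List ℕ) fun p => p.2.2 ∈ c p.1 p.2.1
  refine ⟨x, funext fun n => funext fun m => ?_⟩
  unfold uOf
  rw [hx]
  rfl

/-- The functions listed by `G`. -/
noncomputable def rG (G : Br (Set ℕ)) (a : Om) : ℕ → ℕ := rOf (G a)

/-- The sequences of open sets listed by `G`. -/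
def uG (G : Br (Set ℕ)) (a : Om) (n m : ℕ) : Set (ℕ → ℕ) := opn (uOf (G a) n m)

/-- The local recursion. -/
theorem exists_DD : ∃ DD : Br (Set ℕ) → Om → Dat,
    (∀ G a, Good (rG G) (uG G) a (DD G) (DD G a)) ∧
    ∀ G G' : Br (Set ℕ), ∀ a, (∀ b ≤ a, G b = G' b) → DD G a = DD G' a :=
  exists_all_loc (I := Om) rOf (fun x n m => opn (uOf x n m))
    (fun x n m h hh => opn_dec (c := fun m => uOf x n m) hh) Om.countable_Iio

/-- The data of the recursion. -/
noncomputable def DD : Br (Set ℕ) → Om → Dat := exists_DD.choose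

lemma DD_good (G : Br (Set ℕ)) (a : Om) : Good (rG G) (uG G) a (DD G) (DD G a) :=
  exists_DD.choose_spec.1 G a

lemma DD_congr {G G' : Br (Set ℕ)} {a : Om} (h : ∀ b ≤ a, G b = G' b) : DD G a = DD G' a :=
  exists_DD.choose_spec.2 G G' a h

lemma loc_DD (a : Om) : Loc fun G => DD G a := by
  intro G
  obtain ⟨δ, hδ⟩ := exists_gt a
  exact ⟨δ, fun H hH => DD_congr fun b hb => hH b (hb.trans_lt hδ)⟩

/-- The combinatorial data at `G`. -/
noncomputable def DG (G : Br (Set ℕ)) : DataR Om (rG G) (uG G) :=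
  toData (DD G) (DD_good G) Om.countable_Iio Om.not_countable

section
variable (f : (ℕ → ℕ) → ℝ) (G : Br (Set ℕ))

/-- The product of the first set with a Scheepers set is Scheepers. -/
def K1 : Prop := ∀ Y : Set ℝ, PScheepers (Rg (ℕ × (ℚ × ℚ)) G) memR Set.univ Y →
  PScheepers (Rg (ℕ × ((ℚ × ℚ) × (ℚ × ℚ))) G) memR2 {0} ((f '' (DG G).X) ×ˢ Y)

/-- The second set is Menger. -/
def K2 : Prop := PMenger (Rg (ℕ × (ℚ × ℚ)) G) memR {0} (f '' Set.range (DG G).h)

/-- The product of the two sets is not Menger. -/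
def K3 : Prop := ¬ PMenger (Rg (ℕ × ((ℚ × ℚ) × (ℚ × ℚ))) G) memR2 Set.univ
  ((f '' (DG G).X) ×ˢ (f '' Set.range (DG G).h))

end

end Pool.Agent.SigF
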