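import Pool.Agent.SigF.Los

/-!
The truth values of the covering properties are computed at almost every branch.
-/

namespace Pool.Agent.SigF

open Set Filter TopologicalSpace Pool.Agent.Fo65 Pool.Agent.Sc72

/-! ### closure properties of the listed sets -/

section closed

variable {T : Type} [Encodable T] {T' : Type} [Encodable T'] {S : Type} [Encodable S]

theorem ev_closed2 (f : (T → Prop) → (T' → Prop) → S → Prop) :
    ∀ᶠ G in Gn (Set ℕ), ∀ x ∈ Rg T G, ∀ y ∈ Rg T' G, f x y ∈ Rg S G := by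
  have h1 : ∀ᶠ G in Gn (Set ℕ), ∀ α α', ∃ β, dec S (G β) = f (dec T (G α)) (dec T' (G α')) :=
    ev_all2 fun α α' => ev_rangeD (dec_surj S)
      (((Loc.eval α).ld.prod (Loc.eval α').ld).comp fun r => f (dec T r.1) (dec T' r.2))
  filter_upwards [h1] with G hG
  rintro x ⟨α, rfl⟩ y ⟨α', rfl⟩
  exact hG α α'

lemma Om.exists_surj_pow (k : ℕ) : ∃ f : Om → (Fin k → Om), Function.Surjective f := by
  have h : Cardinal.mk (Fin k → Om) ≤ Cardinal.mk Om := by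
    have h0 : Cardinal.aleph0 ≤ Cardinal.mk Om := by
      rw [Om.mk_Om]
      exact Cardinal.aleph0_le_aleph 1
    have := Cardinal.power_nat_le (n := k) h0
    simpa [Cardinal.mk_pi] using this
  obtain ⟨e⟩ := Cardinal.le_def _ _ |>.1 h
  exact ⟨Function.invFun e, Function.invFun_surjective e.injective⟩

theorem ev_closed_tuple : ∀ᶠ G in Gn (Set ℕ), ∀ (k : ℕ) (p : Fin k → T → Prop),
    (∀ i, p i ∈ Rg T G) → (fun z : Fin k × T => p z.1 z.2) ∈ Rg (Fin k × T) G := by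
  refine ev_all_countable fun k => ?_
  obtain ⟨f, hf⟩ := Om.exists_surj_pow k
  have h1 : ∀ᶠ G in Gn (Set ℕ), ∀ a : Fin k → Om, ∃ β, dec (Fin k × T) (G β) =
      fun z => dec T (G (a z.1)) z.2 :=
    ev_all_of_surj f hf fun a => ev_rangeD (dec_surj (Fin k × T))
      ((LD.pi fun i : Fin k => (Loc.eval (a i)).ld).comp
        fun (r : Fin k → Set ℕ) (z : Fin k × T) => dec T (r z.1) z.2)
  filter_upwards [h1] with G hG p hp
  choose a ha using hp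
  obtain ⟨β, hβ⟩ := hG a
  refine ⟨β, hβ.trans ?_⟩
  funext z
  rw [← ha z.1]

end closed

/-! ### the covering properties -/

section cover

variable {T : Type} [Encodable T] {C : Type} [Encodable C] {mem : (T → BB) → C → BB}
  {memP : (T → Prop) → C → Prop} (S : Set ℕ) {Z : (T → BB) → BB}

lemma ext_vCovers {B P C : Type*} [CompleteBooleanAlgebra B] (mem : P → C → B) (Z : P → B) :
    Ext fun U : ℕ × C → B => vCovers mem Z U :=
  Ext.iInf fun _ => (Ext.const _).himp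
    (Ext.iInf fun n => Ext.iSup fun c => (Ext.coord (n, c)).inf (Ext.const _))

lemma ext_vChoice_left {B C : Type*} [CompleteBooleanAlgebra B] (F : ℕ × C → B) :
    Ext fun U : ℕ × C → B => vChoice U F :=
  Ext.iInf fun n => (Ext.iInf fun c => (Ext.const _).himp (Ext.coord (n, c))).inf (Ext.const _)

lemma ext_vChoice_right {B C : Type*} [CompleteBooleanAlgebra B] (U : ℕ × C → B) :
    Ext fun F : ℕ × C → B => vChoice U F :=
  Ext.iInf fun n => (Ext.iInf fun c => (Ext.coord (n, c)).himp (Ext.const _)).inf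
    (Ext.iSup fun _ => Ext.iInf fun c => Ext.iInf fun _ => (Ext.coord (n, c)).compl)

lemma rz_vChoice (U F : ℕ × C → Prop) :
    Rz (vChoice (chk U) (chk F)) fun _ => PChoice U F := by
  have : Countable (Finset C) := inferInstance
  exact Rz.iInf fun n => (Rz.iInf fun c => (rz_chk F (n, c)).himp (rz_chk U (n, c))).inf
    (Rz.iSup fun s => Rz.iInf fun c => Rz.iInf_p fun _ => (rz_chk F (n, c)).compl)

lemma rz_vCovers (hm : ∀ c, Ext fun x => mem x c)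
    (hmem : ∀ x c, Rz (mem (chk x) c) fun _ => memP x c) (hZ : Ext Z) (U : ℕ × C → Prop) :
    Rz (vCovers mem Z (chk U)) fun G => PCovers memP (Int T Z G) U := by
  have h : Rz (vCovers mem Z (chk U)) fun G => ∀ x ∈ Rg T G, In G (Z (chk x)) →
      ∀ n, ∃ c, U (n, c) ∧ memP x c :=
    Rz.iInf_name (φ := fun p => Z p ⇨ ⨅ n : ℕ, ⨆ c : C, chk U (n, c) ⊓ mem p c)
      (hZ.himp (Ext.iInf fun n => Ext.iSup fun c => (Ext.const _).inf (hm c)))
      fun x => (Rz.self (Z (chk x))).himp (Rz.iInf fun n => Rz.iSup fun c =>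
        (rz_chk U (n, c)).inf (hmem x c))
  exact h.congr fun G => ⟨fun h x hx => h x hx.1 hx.2, fun h x h1 h2 => h x ⟨h1, h2⟩⟩

/-- **Menger.** -/
theorem ev_vMengerS (hm : ∀ c, Ext fun x => mem x c)
    (hmem : ∀ x c, Rz (mem (chk x) c) fun _ => memP x c) (hZ : Ext Z) :
    Rz (vMengerS mem S Z) fun G => PMenger (Rg (ℕ × C) G) memP S (Int T Z G) := by
  have h : Rz (vMengerS mem S Z) fun G => ∀ U ∈ Rg (ℕ × C) G, PCovers memP (Int T Z G) U →
      ∃ F ∈ Rg (ℕ × C) G, PChoice U F ∧ ∀ p ∈ Rg T G, In G (Z (chk p)) →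
        ∀ N, N ∈ S → ∃ n, N ≤ n ∧ ∃ c, F (n, c) ∧ memP p c := by
    refine Rz.iInf_name (φ := fun U : ℕ × C → BB => vCovers mem Z U ⇨
      ⨆ F : ℕ × C → BB, vChoice U F ⊓ ⨅ p : T → BB, Z p ⇨ ⨅ N : ℕ, ⨅ _ : N ∈ S, ⨆ n : ℕ,
        ⨆ _ : N ≤ n, ⨆ c : C, F (n, c) ⊓ mem p c) ?_ fun U => ?_
    · exact (ext_vCovers mem Z).himp
        (Ext.iSup fun F => (ext_vChoice_left F).inf (Ext.const _))
    · refine (rz_vCovers hm hmem hZ U).himp (Rz.iSup_name (φ := fun F : ℕ × C → BB =>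
        vChoice (chk U) F ⊓ ⨅ p : T → BB, Z p ⇨ ⨅ N : ℕ, ⨅ _ : N ∈ S, ⨆ n : ℕ,
        ⨆ _ : N ≤ n, ⨆ c : C, F (n, c) ⊓ mem p c) ?_ fun F => (rz_vChoice U F).inf ?_)
      · exact (ext_vChoice_right _).inf (Ext.iInf fun p => (Ext.const _).himp
          (Ext.iInf fun N => Ext.iInf fun _ => Ext.iSup fun n => Ext.iSup fun _ =>
            Ext.iSup fun c => (Ext.coord (n, c)).inf (Ext.const _)))
      · exact Rz.iInf_name (φ := fun p : T → BB => Z p ⇨ ⨅ N : ℕ, ⨅ _ : N ∈ S, ⨆ n : ℕ,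
          ⨆ _ : N ≤ n, ⨆ c : C, chk F (n, c) ⊓ mem p c)
          (hZ.himp (Ext.iInf fun N => Ext.iInf fun _ => Ext.iSup fun n => Ext.iSup fun _ =>
            Ext.iSup fun c => (Ext.const _).inf (hm c)))
          fun x => (Rz.self (Z (chk x))).himp (Rz.iInf fun N => Rz.iInf_p fun _ =>
            Rz.iSup fun n => Rz.iSup_p fun _ => Rz.iSup fun c => (rz_chk F (n, c)).inf (hmem x c))
  refine h.congr fun G => ?_
  constructor
  · intro h U hU hc
    obtain ⟨F, hF, h1, h2⟩ := h U hU hc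
    exact ⟨F, hF, h1, fun p hp N hN => h2 p hp.1 hp.2 N hN⟩
  · intro h U hU hc
    obtain ⟨F, hF, h1, h2⟩ := h U hU hc
    exact ⟨F, hF, h1, fun p hp hp' N hN => h2 p ⟨hp, hp'⟩ N hN⟩

/-- Quantification over tuples of names. -/
theorem Rz.iInf_tuple {k : ℕ} {φ : (Fin k → T → BB) → BB}
    (hφ : Ext fun z : Fin k × T → BB => φ fun i t => z (i, t))
    {p : (Fin k → T → Prop) → Br (Set ℕ) → Prop} (h : ∀ x, Rz (φ fun i => chk (x i)) (p x)) :
    Rz (⨅ x, φ x) fun G => ∀ x : Fin k → T → Prop, (∀ i, x i ∈ Rg T G) → p x G := by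
  have e : ⨅ x, φ x = ⨅ z : Fin k × T → BB, φ fun i t => z (i, t) := by
    have hs : Function.Surjective fun (z : Fin k × T → BB) (i : Fin k) (t : T) => z (i, t) :=
      fun x => ⟨fun z => x z.1 z.2, rfl⟩
    exact (hs.iInf_comp φ).symm
  rw [e]
  have h1 : Rz (⨅ z : Fin k × T → BB, φ fun i t => z (i, t)) fun G =>
      ∀ z ∈ Rg (Fin k × T) G, p (fun i t => z (i, t)) G :=
    Rz.iInf_name hφ fun z => h fun i t => z (i, t)
  refine h1.congr_ev ?_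
  have h2 : ∀ᶠ G in Gn (Set ℕ), ∀ i : Fin k, ∀ z ∈ Rg (Fin k × T) G, (fun t => z (i, t)) ∈ Rg T G :=
    ev_all_countable fun i => ev_closed fun (z : Fin k × T → Prop) t => z (i, t)
  filter_upwards [h2, ev_closed_tuple (T := T)] with G h3 h4
  constructor
  · intro h5 x hx
    exact h5 _ (h4 k x hx)
  · intro h5 z hz
    exact h5 _ fun i => h3 i z hz

/-- **Scheepers.** -/
theorem ev_vScheepersS (hm : ∀ c, Ext fun x => mem x c)
    (hmem : ∀ x c, Rz (mem (chk x) c) fun _ => memP x c) (hZ : Ext Z) :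
    Rz (vScheepersS mem S Z) fun G => PScheepers (Rg (ℕ × C) G) memP S (Int T Z G) := by
  have hco : ∀ (k : ℕ) (i : Fin k) {φ : (T → BB) → BB}, Ext φ →
      Ext fun z : Fin k × T → BB => φ fun t => z (i, t) := fun k i φ h =>
    h.comp fun t => Ext.coord (i, t)
  have h : Rz (vScheepersS mem S Z) fun G => ∀ U ∈ Rg (ℕ × C) G, PCovers memP (Int T Z G) U →
      ∃ F ∈ Rg (ℕ × C) G, PChoice U F ∧ ∀ (k : ℕ) (p : Fin k → T → Prop), (∀ i, p i ∈ Rg T G) →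
        (∀ i, In G (Z (chk (p i)))) → ∀ N, N ∈ S → ∃ n, N ≤ n ∧ ∀ i, ∃ c, F (n, c) ∧ memP (p i) c := by
    refine Rz.iInf_name (φ := fun U : ℕ × C → BB => vCovers mem Z U ⇨
      ⨆ F : ℕ × C → BB, vChoice U F ⊓ ⨅ k : ℕ, ⨅ p : Fin k → T → BB, (⨅ i, Z (p i)) ⇨
        ⨅ N : ℕ, ⨅ _ : N ∈ S, ⨆ n : ℕ, ⨆ _ : N ≤ n, ⨅ i, ⨆ c : C, F (n, c) ⊓ mem (p i) c) ?_
        fun U => ?_
    · exact (ext_vCovers mem Z).himp
        (Ext.iSup fun F => (ext_vChoice_left F).inf (Ext.const _))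
    · refine (rz_vCovers hm hmem hZ U).himp (Rz.iSup_name (φ := fun F : ℕ × C → BB =>
        vChoice (chk U) F ⊓ ⨅ k : ℕ, ⨅ p : Fin k → T → BB, (⨅ i, Z (p i)) ⇨
        ⨅ N : ℕ, ⨅ _ : N ∈ S, ⨆ n : ℕ, ⨆ _ : N ≤ n, ⨅ i, ⨆ c : C, F (n, c) ⊓ mem (p i) c) ?_
        fun F => (rz_vChoice U F).inf (Rz.iInf fun k => ?_))
      · exact (ext_vChoice_right _).inf (Ext.iInf fun k => Ext.iInf fun p => (Ext.const _).himp
          (Ext.iInf fun N => Ext.iInf fun _ => Ext.iSup fun n => Ext.iSup fun _ =>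
            Ext.iInf fun i => Ext.iSup fun c => (Ext.coord (n, c)).inf (Ext.const _)))
      · refine Rz.iInf_tuple (φ := fun p : Fin k → T → BB => (⨅ i, Z (p i)) ⇨ ⨅ N : ℕ,
          ⨅ _ : N ∈ S, ⨆ n : ℕ, ⨆ _ : N ≤ n, ⨅ i, ⨆ c : C, chk F (n, c) ⊓ mem (p i) c) ?_ fun x => ?_
        · exact (Ext.iInf fun i => hco k i hZ).himp (Ext.iInf fun N => Ext.iInf fun _ =>
            Ext.iSup fun n => Ext.iSup fun _ => Ext.iInf fun i => Ext.iSup fun c =>
              (Ext.const _).inf (hco k i (hm c)))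
        · exact (Rz.iInf fun i => Rz.self (Z (chk (x i)))).himp (Rz.iInf fun N => Rz.iInf_p fun _ =>
            Rz.iSup fun n => Rz.iSup_p fun _ => Rz.iInf fun i => Rz.iSup fun c =>
              (rz_chk F (n, c)).inf (hmem (x i) c))
  refine h.congr fun G => ?_
  constructor
  · intro h U hU hc
    obtain ⟨F, hF, h1, h2⟩ := h U hU hc
    refine ⟨F, hF, h1, fun A hA hAZ N hN => ?_⟩
    obtain ⟨k, e, he⟩ : ∃ (k : ℕ) (e : Fin k → T → Prop), Set.range e = A := by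
      have : Finite A := hA
      obtain ⟨k, ⟨e⟩⟩ := Finite.exists_equiv_fin A
      refine ⟨k, fun i => (e.symm i).1, ?_⟩
      ext x
      constructor
      · rintro ⟨i, rfl⟩
        exact (e.symm i).2
      · intro hx
        exact ⟨e ⟨x, hx⟩, by simp⟩
    have hmemA : ∀ i, e i ∈ A := fun i => he ▸ ⟨i, rfl⟩
    obtain ⟨n, hn, h3⟩ := h2 k e (fun i => (hAZ (hmemA i)).1) (fun i => (hAZ (hmemA i)).2) N hN
    refine ⟨n, hn, fun p hp => ?_⟩
    rw [← he] at hp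
    obtain ⟨i, rfl⟩ := hp
    exact h3 i
  · intro h U hU hc
    obtain ⟨F, hF, h1, h2⟩ := h U hU hc
    refine ⟨F, hF, h1, fun k p hp hp' N hN => ?_⟩
    obtain ⟨n, hn, h3⟩ := h2 (Set.range p) (Set.finite_range p) (by
      rintro _ ⟨i, rfl⟩
      exact ⟨hp i, hp' i⟩) N hN
    exact ⟨n, hn, fun i => h3 _ ⟨i, rfl⟩⟩

end cover

/-! ### sets of reals and the plane -/

lemma ext_vIvl (c : ℚ × ℚ) : Ext fun x : ℚ → BB => vIvl x c :=
  (Ext.coord c.1).inf (Ext.iSup fun r => Ext.iSup fun _ => (Ext.coord r).compl)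

lemma rz_vIvl (x : ℚ → Prop) (c : ℚ × ℚ) : Rz (vIvl (chk x) c) fun _ => pIvl x c :=
  (rz_chk x c.1).inf (Rz.iSup fun r => Rz.iSup_p fun _ => (rz_chk x r).compl)

theorem ev_M1 (S : Set ℕ) {Y : (ℚ → BB) → BB} (hY : Ext Y) :
    Rz (vMengerS vIvl S Y) fun G => PMenger (Rg (ℕ × (ℚ × ℚ)) G) pIvl S (Int ℚ Y G) :=
  ev_vMengerS S ext_vIvl rz_vIvl hY

theorem ev_S1 (S : Set ℕ) {Y : (ℚ → BB) → BB} (hY : Ext Y) :
    Rz (vScheepersS vIvl S Y) fun G => PScheepers (Rg (ℕ × (ℚ × ℚ)) G) pIvl S (Int ℚ Y G) :=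
  ev_vScheepersS S ext_vIvl rz_vIvl hY

section plane

/-- Pairs of sets of rational numbers. -/
def pr {α : Type*} (z : ℚ ⊕ ℚ → α) : (ℚ → α) × (ℚ → α) := (fun q => z (Sum.inl q), fun q => z (Sum.inr q))

lemma pr_surj {α : Type*} : Function.Surjective (pr (α := α)) := fun p =>
  ⟨Sum.elim p.1 p.2, rfl⟩

lemma pr_inj {α : Type*} : Function.Injective (pr (α := α)) := by
  intro x y h
  funext z
  rcases z with q | q
  · exact congrFun (congrArg Prod.fst h) q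
  · exact congrFun (congrArg Prod.snd h) q

variable {B : Type*} [CompleteBooleanAlgebra B] {P P' C : Type*}

lemma vMengerS_comp {e : P' → P} (he : Function.Surjective e) (mem : P → C → B) (S : Set ℕ)
    (Z : P → B) : vMengerS (fun z => mem (e z)) S (fun z => Z (e z)) = vMengerS mem S Z := by
  unfold vMengerS vCovers
  refine iInf_congr fun U => ?_
  rw [he.iInf_comp (fun p : P => Z p ⇨ ⨅ n : ℕ, ⨆ c : C, U (n, c) ⊓ mem p c)]
  congr 1
  refine iSup_congr fun F => ?_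
  rw [he.iInf_comp (fun p : P => Z p ⇨ ⨅ N : ℕ, ⨅ _ : N ∈ S, ⨆ n : ℕ, ⨆ _ : N ≤ n, ⨆ c : C,
    F (n, c) ⊓ mem p c)]

lemma vScheepersS_comp {e : P' → P} (he : Function.Surjective e) (mem : P → C → B) (S : Set ℕ)
    (Z : P → B) : vScheepersS (fun z => mem (e z)) S (fun z => Z (e z)) = vScheepersS mem S Z := by
  unfold vScheepersS vCovers
  refine iInf_congr fun U => ?_
  rw [he.iInf_comp (fun p : P => Z p ⇨ ⨅ n : ℕ, ⨆ c : C, U (n, c) ⊓ mem p c)]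
  congr 1
  refine iSup_congr fun F => ?_
  congr 1
  refine iInf_congr fun k => ?_
  have hk : Function.Surjective fun (p : Fin k → P') (i : Fin k) => e (p i) := by
    intro p
    choose q hq using fun i => he (p i)
    exact ⟨q, funext hq⟩
  exact hk.iInf_comp (fun p : Fin k → P => (⨅ i, Z (p i)) ⇨ ⨅ N : ℕ, ⨅ _ : N ∈ S, ⨆ n : ℕ,
    ⨆ _ : N ≤ n, ⨅ i, ⨆ c : C, F (n, c) ⊓ mem (p i) c)

lemma pMenger_image {M : Set (ℕ × C → Prop)} {mem : P → C → Prop} {S : Set ℕ} (e : P' → P)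
    (Z : Set P') : PMenger M (fun z => mem (e z)) S Z ↔ PMenger M mem S (e '' Z) := by
  unfold PMenger PCovers
  simp only [Set.forall_mem_image]

lemma pScheepers_image {M : Set (ℕ × C → Prop)} {mem : P → C → Prop} {S : Set ℕ} {e : P' → P}
    (he : Function.Injective e) (Z : Set P') :
    PScheepers M (fun z => mem (e z)) S Z ↔ PScheepers M mem S (e '' Z) := by
  unfold PScheepers PCovers
  simp only [Set.forall_mem_image]
  refine forall_congr' fun U => forall_congr' fun _ => forall_congr' fun _ =>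
    exists_congr fun F => and_congr_right fun _ => and_congr_right fun _ => ?_
  constructor
  · intro h A hA hAZ N hN
    obtain ⟨n, hn, h1⟩ := h (e ⁻¹' A) (hA.preimage he.injOn) (by
      intro z hz
      obtain ⟨z', hz', h2⟩ := hAZ hz
      rwa [he h2] at hz') N hN
    refine ⟨n, hn, fun p hp => ?_⟩
    obtain ⟨z, hz, rfl⟩ := hAZ hp
    exact h1 z hp
  · intro h A hA hAZ N hN
    obtain ⟨n, hn, h1⟩ := h (e '' A) (hA.image e) (Set.image_mono hAZ) N hN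
    exact ⟨n, hn, fun p hp => h1 _ ⟨p, hp, rfl⟩⟩

lemma ext_pr {X Y : (ℚ → BB) → BB} (hX : Ext X) (hY : Ext Y) :
    Ext fun z : ℚ ⊕ ℚ → BB => vProd X Y (pr z) :=
  (hX.comp fun q => Ext.coord (Sum.inl q)).inf (hY.comp fun q => Ext.coord (Sum.inr q))

lemma ext_vBox (c : (ℚ × ℚ) × (ℚ × ℚ)) : Ext fun z : ℚ ⊕ ℚ → BB => vBox (pr z) c :=
  ((ext_vIvl c.1).comp fun q => Ext.coord (Sum.inl q)).inf
    ((ext_vIvl c.2).comp fun q => Ext.coord (Sum.inr q))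

lemma rz_vBox (x : ℚ ⊕ ℚ → Prop) (c : (ℚ × ℚ) × (ℚ × ℚ)) :
    Rz (vBox (pr (chk x)) c) fun _ => pBox (pr x) c :=
  (rz_vIvl (fun q => x (Sum.inl q)) c.1).inf (rz_vIvl (fun q => x (Sum.inr q)) c.2)

lemma ev_int_pr {X Y : (ℚ → BB) → BB} :
    ∀ᶠ G in Gn (Set ℕ), pr '' (Int (ℚ ⊕ ℚ) (fun z => vProd X Y (pr z)) G) =
      Int ℚ X G ×ˢ Int ℚ Y G := by
  filter_upwards [ev_closed (T := ℚ ⊕ ℚ) (S := ℚ) fun z q => z (Sum.inl q),
    ev_closed (T := ℚ ⊕ ℚ) (S := ℚ) fun z q => z (Sum.inr q),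
    ev_closed2 (T := ℚ) (T' := ℚ) (S := ℚ ⊕ ℚ) fun x y => Sum.elim x y] with G h1 h2 h3
  ext ⟨x, y⟩
  constructor
  · rintro ⟨z, ⟨hz, h4, h5⟩, h6⟩
    have e1 : x = fun q => z (Sum.inl q) := (congrArg Prod.fst h6).symm
    have e2 : y = fun q => z (Sum.inr q) := (congrArg Prod.snd h6).symm
    subst e1
    subst e2
    exact ⟨⟨h1 z hz, h4⟩, ⟨h2 z hz, h5⟩⟩
  · rintro ⟨⟨hx, hx'⟩, ⟨hy, hy'⟩⟩
    exact ⟨Sum.elim x y, ⟨h3 x hx y hy, hx', hy'⟩, rfl⟩

theorem ev_M2 (S : Set ℕ) {X Y : (ℚ → BB) → BB} (hX : Ext X) (hY : Ext Y) :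
    Rz (vMengerS vBox S (vProd X Y)) fun G =>
      PMenger (Rg (ℕ × ((ℚ × ℚ) × (ℚ × ℚ))) G) pBox S (Int ℚ X G ×ˢ Int ℚ Y G) := by
  rw [← vMengerS_comp (pr_surj (α := BB)) vBox S (vProd X Y)]
  refine (ev_vMengerS (memP := fun z c => pBox (pr z) c) S ext_vBox rz_vBox
    (ext_pr hX hY)).congr_ev ?_
  filter_upwards [ev_int_pr (X := X) (Y := Y)] with G hG
  rw [← hG]
  exact pMenger_image (mem := pBox) pr _

theorem ev_S2 (S : Set ℕ) {X Y : (ℚ → BB) → BB} (hX : Ext X) (hY : Ext Y) :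
    Rz (vScheepersS vBox S (vProd X Y)) fun G =>
      PScheepers (Rg (ℕ × ((ℚ × ℚ) × (ℚ × ℚ))) G) pBox S (Int ℚ X G ×ˢ Int ℚ Y G) := by
  rw [← vScheepersS_comp (pr_surj (α := BB)) vBox S (vProd X Y)]
  refine (ev_vScheepersS (memP := fun z c => pBox (pr z) c) S ext_vBox rz_vBox
    (ext_pr hX hY)).congr_ev ?_
  filter_upwards [ev_int_pr (X := X) (Y := Y)] with G hG
  rw [← hG]
  exact pScheepers_image (mem := pBox) pr_inj _

end plane

/-- A Dedekind cut is the cut of a real number. -/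
theorem exists_cut {x : ℚ → Prop} (h1 : ∃ q, x q) (h2 : ∃ q, ¬ x q)
    (h3 : ∀ q, (x q → ∃ r, q < r ∧ x r) ∧ ((∃ r, q < r ∧ x r) → x q)) : ∃ r : ℝ, x = cut r := by
  obtain ⟨a, ha⟩ := h1
  obtain ⟨b, hb⟩ := h2
  let s : Set ℝ := (fun q : ℚ => (q : ℝ)) '' {q | x q}
  have hs : s.Nonempty := ⟨a, a, ha, rfl⟩
  have hbd : BddAbove s := by
    refine ⟨b, ?_⟩
    rintro _ ⟨q, hq, rfl⟩
    by_contra hc
    have h4 : (b : ℝ) < (q : ℝ) := not_le.1 hc
    have : b < q := by exact_mod_cast h4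
    exact hb ((h3 b).2 ⟨q, this, hq⟩)
  refine ⟨sSup s, funext fun q => propext ⟨fun hq => ?_, fun hq => ?_⟩⟩
  · obtain ⟨r, hr, hxr⟩ := (h3 q).1 hq
    have h4 : (r : ℝ) ≤ sSup s := le_csSup hbd ⟨r, hxr, rfl⟩
    have h5 : (q : ℝ) < r := by exact_mod_cast hr
    exact h5.trans_le h4
  · obtain ⟨_, ⟨r, hr, rfl⟩, h4⟩ := exists_lt_of_lt_csSup hs hq
    have h5 : (q : ℝ) < (r : ℝ) := h4
    exact (h3 q).2 ⟨r, by exact_mod_cast h5, hr⟩

lemma ext_vReal {B : Type*} [CompleteBooleanAlgebra B] : Ext fun x : ℚ → B => vReal x :=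
  ((Ext.iSup fun q => Ext.coord q).inf (Ext.iSup fun q => (Ext.coord q).compl)).inf
    (Ext.iInf fun q => ((Ext.coord q).himp (Ext.iSup fun r => Ext.iSup fun _ => Ext.coord r)).inf
      ((Ext.iSup fun r => Ext.iSup fun _ => Ext.coord r).himp (Ext.coord q)))

lemma rz_vReal (x : ℚ → Prop) : Rz (vReal (chk x)) fun _ => ∃ r : ℝ, x = cut r := by
  have h : Rz (vReal (chk x)) fun _ => ((∃ q, x q) ∧ ∃ q, ¬ x q) ∧
      ∀ q, (x q → ∃ r, q < r ∧ x r) ∧ ((∃ r, q < r ∧ x r) → x q) :=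
    ((Rz.iSup fun q => rz_chk x q).inf (Rz.iSup fun q => (rz_chk x q).compl)).inf
      (Rz.iInf fun q => ((rz_chk x q).himp (Rz.iSup fun r => Rz.iSup_p fun _ => rz_chk x r)).inf
        ((Rz.iSup fun r => Rz.iSup_p fun _ => rz_chk x r).himp (rz_chk x q)))
  refine h.congr fun _ => ⟨fun h => exists_cut h.1.1 h.1.2 h.2, ?_⟩
  rintro ⟨r, rfl⟩
  refine ⟨⟨?_, ?_⟩, fun q => ⟨fun hq => ?_, ?_⟩⟩
  · obtain ⟨q, hq⟩ := exists_rat_lt r
    exact ⟨q, hq⟩
  · obtain ⟨q, hq⟩ := exists_rat_gt r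
    exact ⟨q, not_lt.2 hq.le⟩
  · obtain ⟨s, h1, h2⟩ := exists_rat_btwn (show (q : ℝ) < r from hq)
    exact ⟨s, by exact_mod_cast h1, h2⟩
  · rintro ⟨s, h1, h2⟩
    have h3 : (q : ℝ) < s := by exact_mod_cast h1
    exact h3.trans (show (s : ℝ) < r from h2)

/-- **Sets of reals.** -/
theorem rz_vSet {Y : (ℚ → BB) → BB} (hY : Ext Y) :
    Rz (vSet Y) fun G => ∀ x ∈ Int ℚ Y G, ∃ r : ℝ, x = cut r := by
  have h : Rz (vSet Y) fun G => ∀ x ∈ Rg ℚ G, In G (Y (chk x)) → ∃ r : ℝ, x = cut r :=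
    Rz.iInf_name (φ := fun x => Y x ⇨ vReal x) (hY.himp ext_vReal)
      fun x => (Rz.self (Y (chk x))).himp (rz_vReal x)
  exact h.congr fun G => ⟨fun h x hx => h x hx.1 hx.2, fun h x h1 h2 => h x ⟨h1, h2⟩⟩

end Pool.Agent.SigF
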