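import Pool.Agent.SigF.KDef
import Pool.Agent.SigF.Los2

/-!
K1: at almost every branch, the product of the first set with a Scheepers set is Scheepers.
-/

namespace Pool.Agent.SigF

open Set Filter Topology Pool.Agent.Helper48.PS Pool.Agent.SigF.Rel

/-- The open interval with rational end points. -/
def ivl (c : ℚ × ℚ) : Set ℝ := {r | memR r c}

/-- The open sets given by finitely many boxes of a family. -/
def Vf (f : (ℕ → ℕ) → ℝ) (U : ℕ × ((ℚ × ℚ) × (ℚ × ℚ)) → Prop) (n j : ℕ) :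
    Set ((ℕ → ℕ) × ℝ) := {p | ∃ b, U (n, b) ∧ Encodable.encode b < j ∧ memR2 (f p.1, p.2) b}

lemma isOpen_ivl (c : ℚ × ℚ) : IsOpen (ivl c) := isOpen_Ioo

lemma isOpen_Vf {f : (ℕ → ℕ) → ℝ} (hf : Continuous f) (U : ℕ × ((ℚ × ℚ) × (ℚ × ℚ)) → Prop)
    (n j : ℕ) : IsOpen (Vf f U n j) := by
  have e : Vf f U n j = ⋃ b, ⋃ (_ : U (n, b) ∧ Encodable.encode b < j),
      (fun p : (ℕ → ℕ) × ℝ => f p.1) ⁻¹' ivl b.1 ∩ (fun p : (ℕ → ℕ) × ℝ => p.2) ⁻¹' ivl b.2 := by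
    ext p
    simp only [Vf, mem_iUnion]
    constructor
    · rintro ⟨b, h1, h2, h3⟩
      exact ⟨b, ⟨h1, h2⟩, h3.1, h3.2⟩
    · rintro ⟨b, ⟨h1, h2⟩, h3⟩
      exact ⟨b, h1, h2, h3.1, h3.2⟩
  rw [e]
  exact isOpen_iUnion fun b => isOpen_iUnion fun _ =>
    ((isOpen_ivl _).preimage (hf.comp continuous_fst)).inter
      ((isOpen_ivl _).preimage continuous_snd)

lemma mono_Vf (f : (ℕ → ℕ) → ℝ) (U : ℕ × ((ℚ × ℚ) × (ℚ × ℚ)) → Prop) (n : ℕ) :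
    Monotone (Vf f U n) := by
  rintro j j' h p ⟨b, h1, h2, h3⟩
  exact ⟨b, h1, h2.trans_le h, h3⟩

/-- The covers of the second factor, as families of intervals. -/
def cov1 (W : ℕ → ℕ → Set ℝ) (p : ℕ × (ℚ × ℚ)) : Prop := ∃ j, ivl p.2 ⊆ W p.1 j

/-- The numbers of the open sets which contain finitely many intervals. -/
noncomputable def g0 (W : ℕ → ℕ → Set ℝ) (F : ℕ × (ℚ × ℚ) → Prop) (n : ℕ) : ℕ :=
  sInf {j | ∀ c, F (n, c) → ivl c ⊆ W n j}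

/-- The boxes with small numbers. -/
def cut2 (U : ℕ × ((ℚ × ℚ) × (ℚ × ℚ)) → Prop) (s : ℕ → ℕ) (p : ℕ × ((ℚ × ℚ) × (ℚ × ℚ))) : Prop :=
  U p ∧ Encodable.encode p.2 < s p.1

lemma exists_ivl {W : Set ℝ} (hW : IsOpen W) {y : ℝ} (hy : y ∈ W) : ∃ c, y ∈ ivl c ∧ ivl c ⊆ W := by
  obtain ⟨l, u, hlu, h1⟩ := mem_nhds_iff_exists_Ioo_subset.1 (hW.mem_nhds hy)
  obtain ⟨a, ha1, ha2⟩ := exists_rat_btwn hlu.1
  obtain ⟨b, hb1, hb2⟩ := exists_rat_btwn hlu.2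
  exact ⟨(a, b), ⟨ha2, hb1⟩, fun z hz => h1 ⟨ha1.trans hz.1, hz.2.trans hb2⟩⟩

lemma g0_spec {W : ℕ → ℕ → Set ℝ} (hm : ∀ n, Monotone (W n)) {F : ℕ × (ℚ × ℚ) → Prop}
    (hF : PChoice (cov1 W) F) (n : ℕ) (c : ℚ × ℚ) (hc : F (n, c)) : ivl c ⊆ W n (g0 W F n) := by
  classical
  have hne : {j | ∀ c, F (n, c) → ivl c ⊆ W n j}.Nonempty := by
    obtain ⟨h1, s, hs⟩ := hF n
    have h2 : ∀ c : ℚ × ℚ, ∃ j, F (n, c) → ivl c ⊆ W n j := by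
      intro c
      by_cases hc : F (n, c)
      · obtain ⟨j, hj⟩ := h1 c hc
        exact ⟨j, fun _ => hj⟩
      · exact ⟨0, fun h => absurd h hc⟩
    choose j hj using h2
    refine ⟨s.sup j, fun c hc => (hj c hc).trans (hm n (Finset.le_sup ?_))⟩
    by_contra h
    exact hs c h hc
  exact Nat.sInf_mem hne c hc

lemma DG_x (G : Br (Set ℕ)) (a : Om) : (DG G).x a = pt (DD G a).w (DD G a).v := rfl

lemma DG_x_congr {G H : Br (Set ℕ)} {δ : Om} (h : Agr G H δ) : ∀ b < δ, (DG H).x b = (DG G).x b := by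
  intro b hb
  rw [DG_x, DG_x, DD_congr fun c hc => h c (hc.trans_lt hb)]

lemma DG_s (G : Br (Set ℕ)) (a : Om) : (DG G).s a = dom (DD G a).F := rfl

/-- The set `WW` at `G`. -/
noncomputable def WG (f : (ℕ → ℕ) → ℝ) (α δ : Om) (G : Br (Set ℕ)) : ℕ → ℕ → Set ℝ :=
  WW (DG G).x (Vf f (dec (ℕ × ((ℚ × ℚ) × (ℚ × ℚ))) (G α))) δ

lemma loc_WG (f : (ℕ → ℕ) → ℝ) (α δ : Om) : Loc (WG f α δ) := by
  intro G
  obtain ⟨ε, hε⟩ := exists_gt (max α δ)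
  refine ⟨ε, fun H hH => ?_⟩
  unfold WG
  rw [hH α ((le_max_left _ _).trans_lt hε)]
  exact congr_WW (DG_x_congr (hH.mono ((le_max_right α δ).trans hε.le)))

theorem ev_K1 {f : (ℕ → ℕ) → ℝ} (hf : IsEmbedding f) : ∀ᶠ G in Gn (Set ℕ), K1 f G := by
  have c1 : ∀ᶠ G in Gn (Set ℕ), ∀ α δ, cov1 (WG f α δ G) ∈ Rg (ℕ × (ℚ × ℚ)) G :=
    ev_all2 fun α δ => ev_rangeD (dec_surj _) ((loc_WG f α δ).ld.comp cov1)
  have c2 : ∀ᶠ G in Gn (Set ℕ), ∀ α c,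
      cut2 (dec _ (G α)) ((DG G).s c) ∈ Rg (ℕ × ((ℚ × ℚ) × (ℚ × ℚ))) G :=
    ev_all2 fun α c => ev_rangeD (dec_surj _)
      (((Loc.eval α).ld.prod (loc_DD c).ld).comp fun r => cut2 (dec _ r.1) (dom r.2.F))
  have c3 : ∀ᶠ G in Gn (Set ℕ), ∀ α δ β, ∃ d, rG G d =
      g0 (WG f α δ G) (dec (ℕ × (ℚ × ℚ)) (G β)) :=
    ev_all2 fun α δ => ev_all fun β => ev_rangeD rOf_surj
      (((loc_WG f α δ).ld.prod (Loc.eval β).ld).comp fun r => g0 r.1 (dec _ r.2))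
  filter_upwards [c1, c2, c3] with G h1 h2 h3
  rintro Y hY U ⟨α, rfl⟩ hcov
  set U := dec (ℕ × ((ℚ × ℚ) × (ℚ × ℚ))) (G α) with hU
  set D := DG G with hD
  have hc : ∀ z ∈ D.X, ∀ y ∈ Y, ∀ n, ∃ m, (z, y) ∈ Vf f U n m := by
    intro z hz y hy n
    obtain ⟨b, hb1, hb2⟩ := hcov (f z, y) ⟨⟨z, hz, rfl⟩, hy⟩ n
    exact ⟨Encodable.encode b + 1, b, hb1, Nat.lt_succ_self _, hb2⟩
  have hVo := isOpen_Vf hf.continuous U
  have hVm := mono_Vf f U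
  obtain ⟨c, hsel⟩ := D.prod_rel Y (V := Vf f U) hVm (by
    intro δ
    have hcY : PCovers memR Y (cov1 (WG f α δ G)) := by
      intro y hy k
      obtain ⟨j, hj⟩ := cover_WW D.x hVo hVm δ (Om.countable_Iio δ) y
        (fun z hz n => hc z hz y hy n) k
      obtain ⟨c, hc1, hc2⟩ := exists_ivl (isOpen_WW D.x hVo δ k j) hj
      exact ⟨c, ⟨j, hc2⟩, hc1⟩
    obtain ⟨F, ⟨β, rfl⟩, hF1, hF2⟩ := hY _ (h1 α δ) hcY
    obtain ⟨d, hd⟩ := h3 α δ β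
    refine ⟨d, fun A hA hAf N => ?_⟩
    obtain ⟨n, hn, h4⟩ := hF2 A hAf hA N (mem_univ N)
    refine ⟨n, hn, fun y hy => ?_⟩
    obtain ⟨c, hc1, hc2⟩ := h4 y hy
    have h5 := g0_spec (W := WG f α δ G) (mono_WW D.x hVm δ) hF1 n c hc1 hc2
    rw [hd]
    exact h5)
  refine ⟨cut2 U (D.s c), h2 α c, fun n => ⟨fun b hb => hb.1, ?_⟩, fun A hAf hA N _ => ?_⟩
  · have hfin : {b : (ℚ × ℚ) × (ℚ × ℚ) | Encodable.encode b < D.s c n}.Finite :=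
      (Set.finite_Iio (D.s c n)).preimage Encodable.encode_injective.injOn
    exact ⟨hfin.toFinset, fun b hb hb' => hb (hfin.mem_toFinset.2 hb'.2)⟩
  · let e : (ℕ → ℕ) × ℝ → ℝ × ℝ := fun p => (f p.1, p.2)
    have he : Function.Injective e := by
      rintro ⟨x, y⟩ ⟨x', y'⟩ h
      have e1 : f x = f x' := congrArg Prod.fst h
      have e2 : y = y' := congrArg Prod.snd h
      rw [hf.injective e1, e2]
    obtain ⟨n, hn⟩ := hsel (e ⁻¹' A) (by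
      rintro ⟨x, y⟩ hxy
      obtain ⟨⟨x', hx', h6⟩, h7⟩ := hA hxy
      exact ⟨hf.injective h6 ▸ hx', h7⟩) (hAf.preimage he.injOn)
    refine ⟨n, ?_, fun p hp => ?_⟩
    · have hN : N = 0 := by assumption
      omega
    · obtain ⟨⟨x, hx, h6⟩, h7⟩ := hA hp
      have h8 : (x, p.2) ∈ e ⁻¹' A := by
        show (f x, p.2) ∈ A
        rw [h6]
        exact hp
      obtain ⟨b, hb1, hb2, hb3⟩ := hn h8
      refine ⟨b, ⟨hb1, hb2⟩, ?_⟩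
      have e3 : (f x, p.2) = p := Prod.ext h6 rfl
      rw [e3] at hb3
      exact hb3

end Pool.Agent.SigF
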