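import Pool.Agent.SigF.KOne

/-!
K2 and K3: at almost every branch the second set is Menger and the product of the two sets is not
Menger.
-/

namespace Pool.Agent.SigF

open Set Filter Topology Pool.Agent.Helper48.PS Pool.Agent.SigF.Rel

/-! ### K2 -/

/-- The open subsets of the Baire space given by finitely many intervals of a family. -/
def V1 (f : (ℕ → ℕ) → ℝ) (U : ℕ × (ℚ × ℚ) → Prop) (n j : ℕ) : Set (ℕ → ℕ) :=
  {x | ∃ c, U (n, c) ∧ Encodable.encode c < j ∧ memR (f x) c}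

lemma isOpen_V1 {f : (ℕ → ℕ) → ℝ} (hf : Continuous f) (U : ℕ × (ℚ × ℚ) → Prop) (n j : ℕ) :
    IsOpen (V1 f U n j) := by
  have e : V1 f U n j = ⋃ c, ⋃ (_ : U (n, c) ∧ Encodable.encode c < j), f ⁻¹' ivl c := by
    ext x
    simp only [V1, mem_iUnion]
    constructor
    · rintro ⟨c, h1, h2, h3⟩
      exact ⟨c, ⟨h1, h2⟩, h3⟩
    · rintro ⟨c, ⟨h1, h2⟩, h3⟩
      exact ⟨c, h1, h2, h3⟩
  rw [e]
  exact isOpen_iUnion fun c => isOpen_iUnion fun _ => (isOpen_ivl _).preimage hf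

lemma mono_V1 (f : (ℕ → ℕ) → ℝ) (U : ℕ × (ℚ × ℚ) → Prop) (n : ℕ) : Monotone (V1 f U n) := by
  rintro j j' h x ⟨c, h1, h2, h3⟩
  exact ⟨c, h1, h2.trans_le h, h3⟩

/-- The code of the open sets. -/
noncomputable def code1 (f : (ℕ → ℕ) → ℝ) (U : ℕ × (ℚ × ℚ) → Prop) : ℕ → ℕ → Set (List ℕ) :=
  fun n j => pick fun c => opn c = V1 f U n j

lemma opn_code1 {f : (ℕ → ℕ) → ℝ} (hf : Continuous f) (U : ℕ × (ℚ × ℚ) → Prop) (n j : ℕ) :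
    opn (code1 f U n j) = V1 f U n j := pick_spec (exists_code (isOpen_V1 hf U n j))

/-- The intervals with small numbers. -/
def cut1 (U : ℕ × (ℚ × ℚ) → Prop) (s : ℕ → ℕ) (p : ℕ × (ℚ × ℚ)) : Prop :=
  U p ∧ Encodable.encode p.2 < s p.1

/-- The selection at `G`. -/
noncomputable def gG (δ : Om) (G : Br (Set ℕ)) : ℕ → ℕ :=
  gM (DG G).h ((DG G).G δ) (uG G δ) δ

lemma gM_congr {h h' : Om → ℕ → ℕ} {δ : Om} (e : ∀ b < δ, h b = h' b) (g : ℕ → ℕ)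
    (u : ℕ → ℕ → Set (ℕ → ℕ)) : gM h g u δ = gM h' g u δ := by
  have e1 : h '' Set.Iio δ = h' '' Set.Iio δ := Set.image_congr fun b hb => e b hb
  unfold gM
  rw [e1]

lemma loc_gG (δ : Om) : Loc (gG δ) := by
  intro G
  obtain ⟨ε, hε⟩ := exists_gt δ
  refine ⟨ε, fun H hH => ?_⟩
  unfold gG
  have e1 : uG H δ = uG G δ := by
    unfold uG
    rw [hH δ hε]
  have e2 : (DG H).G δ = (DG G).G δ :=
    congrArg Dat.G (DD_congr fun b hb => hH b (hb.trans_lt hε))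
  rw [e1, e2]
  refine gM_congr (fun b hb => ?_) _ _
  exact congrArg Dat.h (DD_congr fun c hc => hH c (hc.trans_lt (hb.trans hε)))

theorem ev_K2 {f : (ℕ → ℕ) → ℝ} (hf : IsEmbedding f) : ∀ᶠ G in Gn (Set ℕ), K2 f G := by
  have c1 : ∀ᶠ G in Gn (Set ℕ), ∀ α, ∃ δ, uOf (G δ) = code1 f (dec (ℕ × (ℚ × ℚ)) (G α)) :=
    ev_all fun α => ev_rangeD uOf_surj ((Loc.eval α).ld.comp fun x => code1 f (dec _ x))
  have c2 : ∀ᶠ G in Gn (Set ℕ), ∀ α δ,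
      cut1 (dec _ (G α)) (gG δ G) ∈ Rg (ℕ × (ℚ × ℚ)) G :=
    ev_all2 fun α δ => ev_rangeD (dec_surj _)
      (((Loc.eval α).ld.prod (loc_gG δ).ld).comp fun r => cut1 (dec _ r.1) r.2)
  filter_upwards [c1, c2] with G h1 h2
  rintro U ⟨α, rfl⟩ hcov
  obtain ⟨δ, hδ⟩ := h1 α
  set U := dec (ℕ × (ℚ × ℚ)) (G α) with hU
  set D := DG G with hD
  have hu : uG G δ = V1 f U := by
    funext n j
    unfold uG
    rw [hδ]
    exact opn_code1 hf.continuous U n j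
  refine ⟨cut1 U (gG δ G), h2 α δ, fun n => ⟨fun b hb => hb.1, ?_⟩, ?_⟩
  · have hfin : {b : ℚ × ℚ | Encodable.encode b < gG δ G n}.Finite :=
      (Set.finite_Iio (gG δ G n)).preimage Encodable.encode_injective.injOn
    exact ⟨hfin.toFinset, fun b hb hb' => hb (hfin.mem_toFinset.2 hb'.2)⟩
  · rintro _ ⟨_, ⟨a, rfl⟩, rfl⟩ N hN
    have hN' : N = 0 := hN
    obtain ⟨n, hn⟩ := D.menger_rel δ (by rw [hu]; exact mono_V1 f U) (by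
      intro a n
      obtain ⟨c, hc1, hc2⟩ := hcov (f (D.h a)) ⟨_, ⟨a, rfl⟩, rfl⟩ n
      rw [hu]
      exact ⟨Encodable.encode c + 1, c, hc1, Nat.lt_succ_self _, hc2⟩) a
    rw [hu] at hn
    obtain ⟨c, hc1, hc2, hc3⟩ := hn
    refine ⟨n, by omega, c, ⟨hc1, ?_⟩, hc3⟩
    have e : gG δ G = gM D.h (D.G δ) (V1 f U) δ := by
      unfold gG
      rw [hu]
    rw [e]
    exact hc2

/-! ### K3 -/

/-- The open sets of pairs. -/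
def OO (n m : ℕ) : Set ((ℕ → ℕ) × (ℕ → ℕ)) := GapSet ∪ TwoSet n m

/-- All pairs in the box are in the set. -/
def Inb (f : (ℕ → ℕ) → ℝ) (n m : ℕ) (b : (ℚ × ℚ) × (ℚ × ℚ)) : Prop :=
  ∀ x y : ℕ → ℕ, memR2 (f x, f y) b → (x, y) ∈ OO n m

/-- The cover of the product. -/
def U3 (f : (ℕ → ℕ) → ℝ) (p : ℕ × ((ℚ × ℚ) × (ℚ × ℚ))) : Prop := ∃ m, Inb f p.1 m p.2

/-- The bound for a finite subfamily. -/
noncomputable def g3 (f : (ℕ → ℕ) → ℝ) (F : ℕ × ((ℚ × ℚ) × (ℚ × ℚ)) → Prop) (n : ℕ) : ℕ :=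
  sInf {m | ∀ b, F (n, b) → Inb f n m b}

lemma g3_spec {f : (ℕ → ℕ) → ℝ} {F : ℕ × ((ℚ × ℚ) × (ℚ × ℚ)) → Prop} (hF : PChoice (U3 f) F)
    (n : ℕ) (b : (ℚ × ℚ) × (ℚ × ℚ)) (hb : F (n, b)) : Inb f n (g3 f F n) b := by
  classical
  have hne : {m | ∀ b, F (n, b) → Inb f n m b}.Nonempty := by
    obtain ⟨h1, s, hs⟩ := hF n
    have h2 : ∀ b, ∃ m, F (n, b) → Inb f n m b := by
      intro b
      by_cases hb : F (n, b)
      · obtain ⟨m, hm⟩ := h1 b hb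
        exact ⟨m, fun _ => hm⟩
      · exact ⟨0, fun h => absurd h hb⟩
    choose m hm using h2
    refine ⟨s.sup m, fun b hb x y hxy => ?_⟩
    refine mono_gap n (Finset.le_sup (f := m) ?_) (hm b hb x y hxy)
    by_contra h
    exact hs b h hb
  exact Nat.sInf_mem hne b hb

lemma exists_box3 {f : (ℕ → ℕ) → ℝ} (hf : IsEmbedding f) {n m : ℕ} {x y : ℕ → ℕ}
    (h : (x, y) ∈ OO n m) : ∃ b, memR2 (f x, f y) b ∧ Inb f n m b := by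
  have hf2 : IsEmbedding (Prod.map f f) := hf.prodMap hf
  have ho : IsOpen (OO n m) := isOpen_gap.union (isOpen_two n m)
  obtain ⟨O, hO, hOe⟩ := hf2.isOpen_iff.1 ho
  have h1 : (f x, f y) ∈ O := by
    have : (x, y) ∈ Prod.map f f ⁻¹' O := by rw [hOe]; exact h
    exact this
  obtain ⟨P, hP, Q, hQ, hPQ⟩ := mem_nhds_prod_iff.1 (hO.mem_nhds h1)
  obtain ⟨P', hP', hPo, hxP⟩ := mem_nhds_iff.1 hP
  obtain ⟨Q', hQ', hQo, hyQ⟩ := mem_nhds_iff.1 hQ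
  obtain ⟨c, hc1, hc2⟩ := exists_ivl hPo hxP
  obtain ⟨d, hd1, hd2⟩ := exists_ivl hQo hyQ
  refine ⟨(c, d), ⟨hc1, hd1⟩, fun x' y' h' => ?_⟩
  have h2 : (f x', f y') ∈ O := hPQ ⟨hP' (hc2 h'.1), hQ' (hd2 h'.2)⟩
  have h3 : (x', y') ∈ Prod.map f f ⁻¹' O := h2
  rw [hOe] at h3
  exact h3

theorem ev_K3 {f : (ℕ → ℕ) → ℝ} (hf : IsEmbedding f) : ∀ᶠ G in Gn (Set ℕ), K3 f G := by
  have c1 : ∀ᶠ G in Gn (Set ℕ), U3 f ∈ Rg (ℕ × ((ℚ × ℚ) × (ℚ × ℚ))) G :=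
    ev_rangeD (dec_surj _) (Loc.const (U3 f)).ld
  have c2 : ∀ᶠ G in Gn (Set ℕ), ∀ β, ∃ d, rOf (G d) =
      g3 f (dec (ℕ × ((ℚ × ℚ) × (ℚ × ℚ))) (G β)) :=
    ev_all fun β => ev_rangeD rOf_surj ((Loc.eval β).ld.comp fun x => g3 f (dec _ x))
  filter_upwards [c1, c2] with G h1 h2 hcon
  obtain ⟨F, ⟨β, rfl⟩, hF1, hF2⟩ := hcon (U3 f) h1 (by
    rintro ⟨_, _⟩ ⟨⟨z, hz, rfl⟩, ⟨_, ⟨a, rfl⟩, rfl⟩⟩ n
    obtain ⟨m, hm⟩ := (DG G).cover_gap hz ((DG G).h a) n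
    obtain ⟨b, hb1, hb2⟩ := exists_box3 hf (n := n) (m := m) hm
    exact ⟨b, ⟨m, hb2⟩, hb1⟩)
  obtain ⟨d, hd⟩ := h2 β
  refine (DG G).not_menger_rel d fun a N => ?_
  obtain ⟨n, hn, b, hb1, hb2⟩ := hF2 (f ((DG G).x a), f ((DG G).h a))
    ⟨⟨_, Or.inr ⟨a, rfl⟩, rfl⟩, ⟨_, ⟨a, rfl⟩, rfl⟩⟩ N (mem_univ N)
  refine ⟨n, hn, ?_⟩
  have h3 := g3_spec hF1 n b hb1 _ _ hb2
  unfold rG
  rw [hd]
  exact h3

end Pool.Agent.SigF
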