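import Pool.Agent.SigF.Val

/-!
Names of subsets of countable sets are locally names of ground model sets; the truth values of the
covering properties are computed at almost every branch.
-/

namespace Pool.Agent.SigF

open Set Filter TopologicalSpace Pool.Agent.Fo65 Pool.Agent.Sc72

/-! ### functions which are locally constant at almost every branch -/

section loc

variable {R : Type}

/-- `Ψ` is locally constant at `G`. -/
def LocAt {A : Type*} (Ψ : Br R → A) (G : Br R) : Prop := ∃ δ, ∀ H, Agr G H δ → Ψ H = Ψ G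

/-- `Ψ` is locally constant at almost every branch. -/
def LD {A : Type*} (Ψ : Br R → A) : Prop := ∀ᶠ G in Gn R, LocAt Ψ G

lemma Loc.ld {A : Type*} {Ψ : Br R → A} (h : Loc Ψ) : LD Ψ := Filter.Eventually.of_forall h

lemma LD.comp {A C : Type*} {Ψ : Br R → A} (h : LD Ψ) (f : A → C) : LD fun G => f (Ψ G) := by
  refine h.mono fun G hG => ?_
  obtain ⟨δ, hδ⟩ := hG
  exact ⟨δ, fun H hH => congrArg f (hδ H hH)⟩

lemma LD.pi {ι : Type*} [Countable ι] {A : ι → Type*} {Ψ : ∀ i, Br R → A i} (h : ∀ i, LD (Ψ i)) :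
    LD fun G => fun i => Ψ i G := by
  have h' : ∀ᶠ G in Gn R, ∀ i, LocAt (Ψ i) G := ev_all_countable h
  refine h'.mono fun G hG => ?_
  choose δ hδ using hG
  obtain ⟨ε, hε⟩ := Om.exists_gt_countable (Set.countable_range δ)
  exact ⟨ε, fun H hH => funext fun i => hδ i H (hH.mono (hε _ ⟨i, rfl⟩).le)⟩

lemma LD.prod {A C : Type*} {Ψ : Br R → A} {Φ : Br R → C} (h : LD Ψ) (h' : LD Φ) :
    LD fun G => (Ψ G, Φ G) := by
  filter_upwards [h, h'] with G ⟨δ, hδ⟩ ⟨ε, hε⟩
  exact ⟨max δ ε, fun H hH => Prod.ext (hδ H (hH.mono (le_max_left _ _)))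
    (hε H (hH.mono (le_max_right _ _)))⟩

/-- Parameters. -/
theorem ev_paramD {A : Type*} {Ψ : Br R → A} (hΨ : LD Ψ) {p : A → Br R → Prop}
    (h : ∀ a, ∀ᶠ G in Gn R, p a G) : ∀ᶠ G in Gn R, p (Ψ G) G := by
  choose D hD hDp using h
  have h0 : ∀ᶠ G in Gn R, ∀ i, LocAt Ψ G ∧ G ∈ D (Ψ G) i := by
    refine ev_all fun i => ev_of_DO ⟨?_, ?_⟩
    · rintro G ⟨⟨δ, hδ⟩, hG⟩
      obtain ⟨ε, hε⟩ := (hD (Ψ G) i).1 G hG
      refine ⟨max δ ε, fun H hH => ?_⟩
      have e : Ψ H = Ψ G := hδ H (hH.mono (le_max_left _ _))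
      refine ⟨⟨δ, fun K hK => ?_⟩, ?_⟩
      · rw [e]
        exact hδ K ((hH.mono (le_max_left _ _)).trans hK)
      · rw [e]
        exact hε H (hH.mono (le_max_right _ _))
    · intro G δ
      obtain ⟨G₁, h1, ε, hε⟩ := Gn.exists hΨ G δ
      obtain ⟨H, hH, hGH⟩ := (hD (Ψ G₁) i).2 G₁ (max δ ε)
      have e : Ψ H = Ψ G₁ := hε H (hGH.mono (le_max_right _ _))
      refine ⟨H, ⟨⟨ε, fun K hK => ?_⟩, ?_⟩, h1.trans (hGH.mono (le_max_left _ _))⟩
      · rw [e]
        exact hε K ((hGH.mono (le_max_right _ _)).trans hK)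
      · rw [e]
        exact hH
  refine h0.mono fun G hG => hDp (Ψ G) (mem_iInter.2 fun i => (hG i).2)

/-- Generic functions take all values which are determined locally. -/
theorem ev_rangeD {A : Type*} {f : R → A} (hf : Function.Surjective f) {Ψ : Br R → A}
    (hΨ : LD Ψ) : ∀ᶠ G in Gn R, ∃ α, f (G α) = Ψ G := by
  refine ev_paramD (p := fun a G => ∃ α, f (G α) = a) hΨ fun a => ?_
  obtain ⟨r, rfl⟩ := hf a
  filter_upwards [ev_mem_range_const r] with G hG
  obtain ⟨α, hα⟩ := hG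
  exact ⟨α, by rw [hα]⟩

end loc

/-! ### evaluation of names -/

/-- The branch `G` realises the truth value `b` as `p G`, for almost every `G`. -/
def Rz (b : BB) (p : Br (Set ℕ) → Prop) : Prop := ∀ᶠ G in Gn (Set ℕ), (In G b ↔ p G)

namespace Rz

variable {a b : BB} {p q : Br (Set ℕ) → Prop}

lemma self (b : BB) : Rz b fun G => In G b := Filter.Eventually.of_forall fun _ => Iff.rfl

lemma congr (h : Rz b p) (hpq : ∀ G, p G ↔ q G) : Rz b q := h.mono fun G hG => hG.trans (hpq G)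

lemma congr_ev (h : Rz b p) (hpq : ∀ᶠ G in Gn (Set ℕ), (p G ↔ q G)) : Rz b q := by
  filter_upwards [h, hpq] with G h1 h2
  exact h1.trans h2

lemma inf (ha : Rz a p) (hb : Rz b q) : Rz (a ⊓ b) fun G => p G ∧ q G := by
  filter_upwards [ha, hb] with G h1 h2
  rw [in_inf, h1, h2]

lemma sup (ha : Rz a p) (hb : Rz b q) : Rz (a ⊔ b) fun G => p G ∨ q G := by
  filter_upwards [ha, hb, ev_sup a b] with G h1 h2 h3
  rw [h3, h1, h2]

lemma himp (ha : Rz a p) (hb : Rz b q) : Rz (a ⇨ b) fun G => p G → q G := by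
  filter_upwards [ha, hb, ev_himp a b] with G h1 h2 h3
  rw [h3, h1, h2]

lemma compl (ha : Rz a p) : Rz aᶜ fun G => ¬ p G := by
  filter_upwards [ha, ev_compl a] with G h1 h3
  rw [h3, h1]

lemma top : Rz (⊤ : BB) fun _ => True := Filter.Eventually.of_forall fun G =>
  ⟨fun _ => trivial, fun _ => in_top G⟩

lemma iInf {ι : Type*} [Countable ι] {f : ι → BB} {p : ι → Br (Set ℕ) → Prop}
    (h : ∀ i, Rz (f i) (p i)) : Rz (⨅ i, f i) fun G => ∀ i, p i G := by
  have h' : ∀ᶠ G in Gn (Set ℕ), ∀ i, In G (f i) ↔ p i G := ev_all_countable h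
  filter_upwards [h', ev_iInf_countable f] with G h1 h2
  rw [h2]
  exact forall_congr' h1

lemma iSup {ι : Type*} [Countable ι] {f : ι → BB} {p : ι → Br (Set ℕ) → Prop}
    (h : ∀ i, Rz (f i) (p i)) : Rz (⨆ i, f i) fun G => ∃ i, p i G := by
  have h' : ∀ᶠ G in Gn (Set ℕ), ∀ i, In G (f i) ↔ p i G := ev_all_countable h
  filter_upwards [h', ev_iSup f] with G h1 h2
  rw [h2]
  exact exists_congr h1

lemma iInf_p {r : Prop} {f : r → BB} {p : Br (Set ℕ) → Prop} (h : ∀ i, Rz (f i) p) :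
    Rz (⨅ i, f i) fun G => r → p G := by
  by_cases hr : r
  · rw [iInf_pos hr]
    exact (h hr).congr fun G => ⟨fun h1 _ => h1, fun h1 => h1 hr⟩
  · rw [iInf_neg hr]
    exact Rz.top.congr fun G => ⟨fun _ h1 => absurd h1 hr, fun _ => trivial⟩

lemma iSup_p {r : Prop} {f : r → BB} {p : Br (Set ℕ) → Prop} (h : ∀ i, Rz (f i) p) :
    Rz (⨆ i, f i) fun G => r ∧ p G := by
  by_cases hr : r
  · rw [iSup_pos hr]
    exact (h hr).congr fun G => ⟨fun h1 => ⟨hr, h1⟩, fun h1 => h1.2⟩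
  · rw [iSup_neg hr]
    exact Filter.Eventually.of_forall fun G => ⟨fun h1 => absurd h1 (not_in_bot G),
      fun h1 => absurd h1.1 hr⟩

end Rz

section names

variable {T : Type}

lemma in_chk {G : Br (Set ℕ)} {x : T → Prop} {t : T} : In G (chk (B := BB) x t) ↔ x t := by
  unfold chk
  by_cases h : x t
  · rw [iSup_pos h]
    exact ⟨fun _ => h, fun _ => in_top G⟩
  · rw [iSup_neg h]
    exact ⟨fun h1 => absurd h1 (not_in_bot G), fun h1 => absurd h1 h⟩

lemma rz_chk (x : T → Prop) (t : T) : Rz (chk x t) fun _ => x t :=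
  Filter.Eventually.of_forall fun _ => in_chk

/-- The set named by `x` at `G`. -/
def evN (x : T → BB) (G : Br (Set ℕ)) : T → Prop := fun t => In G (x t)

/-- Names of subsets of a countable set are locally constant almost everywhere. -/
theorem ld_evN [Countable T] (x : T → BB) : LD (evN x) := by
  have h : ∀ᶠ G in Gn (Set ℕ), ∀ t, In G (x t)ᶜ ↔ ¬ In G (x t) :=
    ev_all_countable fun t => ev_compl (x t)
  refine h.mono fun G hG => ?_
  have h1 : ∀ t, ∃ δ, ∀ H, Agr G H δ → (In H (x t) ↔ In G (x t)) := by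
    intro t
    by_cases ht : In G (x t)
    · obtain ⟨δ, hδ⟩ := isOpen_In (x t) G ht
      exact ⟨δ, fun H hH => ⟨fun _ => ht, fun _ => hδ H hH⟩⟩
    · obtain ⟨δ, hδ⟩ := isOpen_In (x t)ᶜ G ((hG t).2 ht)
      exact ⟨δ, fun H hH => ⟨fun h2 => absurd h2 (not_mem_of_compl (U := (x t).val) (hδ H hH)),
        fun h2 => absurd h2 ht⟩⟩
  choose δ hδ using h1
  obtain ⟨ε, hε⟩ := Om.exists_gt_countable (Set.countable_range δ)
  exact ⟨ε, fun H hH => funext fun t => propext (hδ t H (hH.mono (hε _ ⟨t, rfl⟩).le))⟩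

lemma rz_vEq [Countable T] (x y : T → BB) : Rz (vEq x y) fun G => evN x G = evN y G := by
  have h : Rz (vEq x y) fun G => ∀ t, (In G (x t) → In G (y t)) ∧ (In G (y t) → In G (x t)) :=
    Rz.iInf fun t => ((Rz.self (x t)).himp (Rz.self (y t))).inf
      ((Rz.self (y t)).himp (Rz.self (x t)))
  refine h.congr fun G => ⟨fun h1 => funext fun t => propext ⟨(h1 t).1, (h1 t).2⟩,
    fun h1 t => ?_⟩
  have h2 : In G (x t) = In G (y t) := congrFun h1 t
  rw [h2]
  exact ⟨id, id⟩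

/-- A statement about a name is the statement about the named set. -/
theorem ev_name [Countable T] {φ : (T → BB) → BB} (hφ : Ext φ) (x : T → BB) :
    ∀ᶠ G in Gn (Set ℕ), In G (φ x) ↔ In G (φ (chk (evN x G))) := by
  refine ev_paramD (p := fun a G => evN x G = a → (In G (φ x) ↔ In G (φ (chk a)))) (ld_evN x)
    (fun a => ?_) |>.mono fun G hG => hG rfl
  filter_upwards [rz_vEq x (chk a)] with G h1 h2
  have h3 : In G (vEq x (chk a)) := by
    rw [h1, h2]
    exact funext fun t => propext in_chk.symm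
  constructor
  · intro h4
    exact In.le (hφ x (chk a)) ⟨h4, h3⟩
  · intro h4
    refine In.le (hφ (chk a) x) ⟨h4, ?_⟩
    rw [vEq_comm]
    exact h3

variable [Encodable T]

lemma ev_evN_mem (x : T → BB) : ∀ᶠ G in Gn (Set ℕ), evN x G ∈ Rg T G :=
  ev_rangeD (dec_surj T) (ld_evN x)

lemma iInf_name {φ : (T → BB) → BB} (hφ : Ext φ) : ⨅ x, φ x = ⨅ r : Set ℕ, φ (chk (dec T r)) := by
  refine le_antisymm (le_iInf fun r => iInf_le _ _) (le_iInf fun x => ?_)
  rw [le_iff]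
  filter_upwards [ev_name hφ x] with G h1 h2
  obtain ⟨r, hr⟩ := dec_surj T (evN x G)
  rw [h1, ← hr]
  exact in_iInf h2 r

lemma iSup_name {φ : (T → BB) → BB} (hφ : Ext φ) : ⨆ x, φ x = ⨆ r : Set ℕ, φ (chk (dec T r)) := by
  refine le_antisymm (iSup_le fun x => ?_) (iSup_le fun r => le_iSup φ _)
  rw [le_iff]
  filter_upwards [ev_name hφ x] with G h1 h2
  obtain ⟨r, hr⟩ := dec_surj T (evN x G)
  rw [h1, ← hr] at h2
  exact in_iSup (f := fun r : Set ℕ => φ (chk (dec T r))) h2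

/-- Quantification over names is quantification over the listed sets. -/
theorem Rz.iInf_name {φ : (T → BB) → BB} (hφ : Ext φ) {p : (T → Prop) → Br (Set ℕ) → Prop}
    (h : ∀ x, Rz (φ (chk x)) (p x)) : Rz (⨅ x, φ x) fun G => ∀ x ∈ Rg T G, p x G := by
  rw [SigF.iInf_name hφ]
  have h1 : ∀ᶠ G in Gn (Set ℕ), ∀ α, (In G (φ (chk (dec T (G α)))) ↔ p (dec T (G α)) G) :=
    ev_at (p := fun r G => (In G (φ (chk (dec T r))) ↔ p (dec T r) G)) fun r => h (dec T r)
  filter_upwards [h1, ev_iInf_real fun r : Set ℕ => φ (chk (dec T r))] with G h2 h3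
  rw [h3]
  constructor
  · rintro h4 x ⟨α, rfl⟩
    exact (h2 α).1 (h4 α)
  · intro h4 α
    exact (h2 α).2 (h4 _ ⟨α, rfl⟩)

theorem Rz.iSup_name {φ : (T → BB) → BB} (hφ : Ext φ) {p : (T → Prop) → Br (Set ℕ) → Prop}
    (h : ∀ x, Rz (φ (chk x)) (p x)) : Rz (⨆ x, φ x) fun G => ∃ x ∈ Rg T G, p x G := by
  rw [SigF.iSup_name hφ]
  have h1 : ∀ᶠ G in Gn (Set ℕ), ∀ α, (In G (φ (chk (dec T (G α)))) ↔ p (dec T (G α)) G) :=
    ev_at (p := fun r G => (In G (φ (chk (dec T r))) ↔ p (dec T r) G)) fun r => h (dec T r)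
  filter_upwards [h1, ev_iSup_real fun r : Set ℕ => φ (chk (dec T r))] with G h2 h3
  rw [h3]
  constructor
  · rintro ⟨α, h4⟩
    exact ⟨_, ⟨α, rfl⟩, (h2 α).1 h4⟩
  · rintro ⟨x, ⟨α, rfl⟩, h4⟩
    exact ⟨α, (h2 α).2 h4⟩

/-- Closure of the listed sets under functions of the ground model. -/
theorem ev_closed {S : Type} [Encodable S] (f : (T → Prop) → S → Prop) :
    ∀ᶠ G in Gn (Set ℕ), ∀ x ∈ Rg T G, f x ∈ Rg S G := by
  have h1 : ∀ᶠ G in Gn (Set ℕ), ∀ α, ∃ β, dec S (G β) = f (dec T (G α)) :=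
    ev_all fun α => ev_rangeD (dec_surj S) ((Loc.eval α).ld.comp fun r => f (dec T r))
  filter_upwards [h1] with G hG
  rintro x ⟨α, rfl⟩
  exact hG α

end names

end Pool.Agent.SigF
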