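import Mathlib

/-!
The first uncountable ordinal as a type.
-/

namespace Pool.Agent.SigF

open Set Ordinal
open scoped Ordinal Cardinal

/-- The first uncountable ordinal. -/
abbrev Om : Type := (ω₁ : Ordinal.{0}).ToType

namespace Om

/-- the rank of an index -/
noncomputable def rk (α : Om) : Ordinal.{0} := (Ordinal.ToType.toOrd α).1

lemma rk_lt (α : Om) : rk α < ω₁ := (Ordinal.ToType.toOrd α).2

lemma rk_lt_rk {α β : Om} : rk α < rk β ↔ α < β := by
  unfold rk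
  rw [Subtype.coe_lt_coe]
  exact (Ordinal.ToType.mk.symm).lt_iff_lt

lemma rk_le_rk {α β : Om} : rk α ≤ rk β ↔ α ≤ β := by
  rw [← not_lt, rk_lt_rk, not_lt]

lemma exists_rk {ξ : Ordinal.{0}} (h : ξ < ω₁) : ∃ α : Om, rk α = ξ :=
  ⟨Ordinal.ToType.mk ⟨ξ, h⟩, by simp [rk, Ordinal.ToType.toOrd]⟩

lemma succ_lt_omega_one {ξ : Ordinal.{0}} (h : ξ < ω₁) : ξ + 1 < ω₁ :=
  Ordinal.isPrincipal_add_omega 1 h (Ordinal.one_lt_omega0.trans Ordinal.omega0_lt_omega_one)

instance : Nonempty Om := by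
  obtain ⟨α, _⟩ := exists_rk (Ordinal.omega_pos 1)
  exact ⟨α⟩

instance : NoMaxOrder Om := ⟨fun α => by
  obtain ⟨β, hβ⟩ := exists_rk (succ_lt_omega_one (rk_lt α))
  refine ⟨β, rk_lt_rk.1 ?_⟩
  rw [hβ]
  exact Order.lt_add_one_iff.2 le_rfl⟩

lemma countable_Iio (α : Om) : (Iio α).Countable := by
  have h1 : (Iio (rk α)).Countable := by
    rw [← Cardinal.le_aleph0_iff_set_countable, Cardinal.mk_Iio_ordinal, Cardinal.lift_le_aleph0]
    have h := Cardinal.lt_omega_iff_card_lt.1 (rk_lt α)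
    rw [← Cardinal.succ_aleph0, Order.lt_succ_iff] at h
    exact h
  have h2 : Iio α ⊆ rk ⁻¹' (Iio (rk α)) := fun β hβ => rk_lt_rk.2 hβ
  refine (h1.preimage_of_injOn ?_).mono h2
  intro β _ γ _ h
  apply le_antisymm
  · exact rk_le_rk.1 h.le
  · exact rk_le_rk.1 h.ge

lemma exists_gt_seq (s : ℕ → Om) : ∃ α, ∀ n, s n < α := by
  have h1 : ⨆ n, rk (s n) < ω₁ := Ordinal.iSup_lt_omega_one (fun n => rk_lt (s n))
  obtain ⟨α, hα⟩ := exists_rk (succ_lt_omega_one h1)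
  refine ⟨α, fun n => rk_lt_rk.1 ?_⟩
  rw [hα, Order.lt_add_one_iff]
  exact Ordinal.le_iSup _ n

lemma exists_gt_countable {s : Set Om} (hs : s.Countable) : ∃ α, ∀ β ∈ s, β < α := by
  rcases s.eq_empty_or_nonempty with rfl | hne
  · exact ⟨Classical.arbitrary Om, fun β hβ => absurd hβ (Set.notMem_empty β)⟩
  · obtain ⟨f, rfl⟩ := hs.exists_eq_range hne
    obtain ⟨α, hα⟩ := exists_gt_seq f
    exact ⟨α, by rintro _ ⟨n, rfl⟩; exact hα n⟩

lemma mk_Om : Cardinal.mk Om = ℵ₁ := by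
  rw [Cardinal.mk_toType, Ordinal.card_omega]

lemma not_countable : ¬ Countable Om := by
  rw [← Cardinal.mk_le_aleph0_iff, mk_Om, not_le]
  exact Cardinal.aleph0_lt_aleph_one

/-- A pairing of indices. -/
lemma exists_pairing : Nonempty (Om ≃ Om × Om) := by
  rw [← Cardinal.eq, Cardinal.mk_prod, Cardinal.lift_id, mk_Om, Cardinal.mul_eq_self]
  exact Cardinal.aleph0_le_aleph 1

/-- Every countable type is an image of `Om`. -/
lemma exists_surj (ι : Type*) [Countable ι] [Nonempty ι] : ∃ f : Om → ι, Function.Surjective f := by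
  obtain ⟨g, hg⟩ := exists_surjective_nat ι
  have h : Cardinal.mk ℕ ≤ Cardinal.mk Om := by
    rw [Cardinal.mk_nat, mk_Om]
    exact Cardinal.aleph0_le_aleph 1
  obtain ⟨e⟩ := Cardinal.le_def _ _ |>.1 h
  exact ⟨g ∘ Function.invFun e, hg.comp (Function.invFun_surjective e.injective)⟩

end Om

end Pool.Agent.SigF
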