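import Pool.Agent.SigF.Om
import Pool.Agent.Helper48.PS.Build

/-!
The space of all functions from `ω₁` to a set `R`, with the topology given by countable initial
segments, and the filter of the sets which contain the intersection of `ω₁` many dense open sets.
-/

namespace Pool.Agent.SigF

open Set Filter

/-- Functions from `ω₁` to `R`. -/
def Br (R : Type) : Type := Om → R

/-- Two functions agree below `δ`. -/
def Agr {R : Type} (G H : Br R) (δ : Om) : Prop := ∀ β < δ, H β = G β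

namespace Agr

variable {R : Type} {G H K : Br R} {δ ε : Om}

lemma rfl' : Agr G G δ := fun _ _ => rfl

lemma symm (h : Agr G H δ) : Agr H G δ := fun β hβ => (h β hβ).symm

lemma trans (h : Agr G H δ) (h' : Agr H K δ) : Agr G K δ := fun β hβ => (h' β hβ).trans (h β hβ)

lemma mono (h : Agr G H ε) (hd : δ ≤ ε) : Agr G H δ := fun β hβ => h β (hβ.trans_le hd)

end Agr

variable {R : Type}

/-- The topology: a set is open if it contains with each function all functions with the same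
countable initial segment of some length. -/
instance : TopologicalSpace (Br R) where
  IsOpen U := ∀ G ∈ U, ∃ δ, ∀ H, Agr G H δ → H ∈ U
  isOpen_univ := fun _ _ => ⟨Classical.arbitrary Om, fun _ _ => trivial⟩
  isOpen_inter := by
    rintro U V hU hV G ⟨h1, h2⟩
    obtain ⟨δ, hδ⟩ := hU G h1
    obtain ⟨ε, hε⟩ := hV G h2
    exact ⟨max δ ε, fun H hH => ⟨hδ H (hH.mono (le_max_left _ _)),
      hε H (hH.mono (le_max_right _ _))⟩⟩
  isOpen_sUnion := by
    rintro s hs G ⟨U, hU, hG⟩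
    obtain ⟨δ, hδ⟩ := hs U hU G hG
    exact ⟨δ, fun H hH => ⟨U, hU, hδ H hH⟩⟩

lemma isOpen_iff {U : Set (Br R)} : IsOpen U ↔ ∀ G ∈ U, ∃ δ, ∀ H, Agr G H δ → H ∈ U := Iff.rfl

lemma isOpen_cyl (G : Br R) (δ : Om) : IsOpen {H | Agr G H δ} :=
  fun _ hH => ⟨δ, fun _ hK => Agr.trans hH hK⟩

lemma isOpen_iInter_nat {U : ℕ → Set (Br R)} (hU : ∀ n, IsOpen (U n)) : IsOpen (⋂ n, U n) := by
  intro G hG
  choose δ hδ using fun n => hU n G (mem_iInter.1 hG n)
  obtain ⟨ε, hε⟩ := Om.exists_gt_seq δ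
  exact ⟨ε, fun H hH => mem_iInter.2 fun n => hδ n H (hH.mono (hε n).le)⟩

/-- Locally constant maps: the value depends only on a countable initial segment. -/
def Loc {A : Type*} (Ψ : Br R → A) : Prop := ∀ G, ∃ δ, ∀ H, Agr G H δ → Ψ H = Ψ G

lemma Loc.isOpen {A : Type*} {Ψ : Br R → A} (h : Loc Ψ) (s : Set A) : IsOpen {G | Ψ G ∈ s} := by
  intro G hG
  obtain ⟨δ, hδ⟩ := h G
  exact ⟨δ, fun H hH => by rw [mem_setOf_eq, hδ H hH]; exact hG⟩

lemma Loc.isOpen_prop {p : Br R → Prop} (h : Loc p) : IsOpen {G | p G} := by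
  intro G hG
  obtain ⟨δ, hδ⟩ := h G
  exact ⟨δ, fun H hH => by rw [mem_setOf_eq, hδ H hH]; exact hG⟩

lemma Loc.eval (α : Om) : Loc (fun G : Br R => G α) := by
  intro G
  obtain ⟨δ, hδ⟩ := exists_gt α
  exact ⟨δ, fun H hH => hH α hδ⟩

lemma Loc.const {A : Type*} (a : A) : Loc (fun _ : Br R => a) :=
  fun _ => ⟨Classical.arbitrary Om, fun _ _ => rfl⟩

lemma Loc.comp {A C : Type*} {Ψ : Br R → A} (h : Loc Ψ) (f : A → C) : Loc (fun G => f (Ψ G)) := by
  intro G
  obtain ⟨δ, hδ⟩ := h G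
  exact ⟨δ, fun H hH => congrArg f (hδ H hH)⟩

lemma Loc.pi {ι : Type*} [Countable ι] {A : ι → Type*} {Ψ : ∀ i, Br R → A i} (h : ∀ i, Loc (Ψ i)) :
    Loc (fun G => fun i => Ψ i G) := by
  intro G
  choose δ hδ using fun i => h i G
  obtain ⟨ε, hε⟩ := Om.exists_gt_countable (Set.countable_range δ)
  exact ⟨ε, fun H hH => funext fun i => hδ i H (hH.mono (hε _ ⟨i, rfl⟩).le)⟩

lemma Loc.prod {A C : Type*} {Ψ : Br R → A} {Φ : Br R → C} (h : Loc Ψ) (h' : Loc Φ) :
    Loc (fun G => (Ψ G, Φ G)) := by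
  intro G
  obtain ⟨δ, hδ⟩ := h G
  obtain ⟨ε, hε⟩ := h' G
  exact ⟨max δ ε, fun H hH => Prod.ext (hδ H (hH.mono (le_max_left _ _)))
    (hε H (hH.mono (le_max_right _ _)))⟩

/-- The restriction to a countable set of indices is locally constant. -/
lemma Loc.restrict (s : Set Om) (hs : s.Countable) :
    Loc (fun G : Br R => fun i : s => G i.1) := by
  have : Countable s := hs
  exact Loc.pi fun i : s => Loc.eval i.1

/-! ### the filter -/

/-- Dense open sets. -/
def DO (D : Set (Br R)) : Prop := IsOpen D ∧ ∀ G δ, ∃ H ∈ D, Agr G H δ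

/-- The sets which contain the intersection of `ω₁` many dense open sets. -/
def CM (S : Set (Br R)) : Prop := ∃ D : Om → Set (Br R), (∀ i, DO (D i)) ∧ ⋂ i, D i ⊆ S

lemma DO.univ : DO (Set.univ : Set (Br R)) := ⟨isOpen_univ, fun G δ => ⟨G, trivial, Agr.rfl'⟩⟩

lemma CM.all {S : Om → Set (Br R)} (h : ∀ i, CM (S i)) : CM (⋂ i, S i) := by
  choose D hD hDS using h
  obtain ⟨e⟩ := Om.exists_pairing
  refine ⟨fun i => D (e i).1 (e i).2, fun i => hD _ _, fun G hG => mem_iInter.2 fun i => hDS i ?_⟩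
  refine mem_iInter.2 fun j => ?_
  have := mem_iInter.1 hG (e.symm (i, j))
  simpa using this

lemma CM.mono {S T : Set (Br R)} (h : CM S) (hST : S ⊆ T) : CM T := by
  obtain ⟨D, h1, h2⟩ := h
  exact ⟨D, h1, h2.trans hST⟩

lemma CM.of_DO {D : Set (Br R)} (h : DO D) : CM D :=
  ⟨fun _ => D, fun _ => h, fun _ hG => mem_iInter.1 hG (Classical.arbitrary Om)⟩

lemma CM.inter {S T : Set (Br R)} (hS : CM S) (hT : CM T) : CM (S ∩ T) := by
  obtain ⟨f, hf⟩ := Om.exists_surj Bool
  refine (CM.all (S := fun i => if f i then S else T) fun i => ?_).mono fun G hG => ?_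
  · cases h : f i
    · simpa [h] using hT
    · simpa [h] using hS
  · obtain ⟨i, hi⟩ := hf true
    obtain ⟨j, hj⟩ := hf false
    have h1 := mem_iInter.1 hG i
    have h2 := mem_iInter.1 hG j
    simp only [hi, hj, if_true] at h1 h2
    exact ⟨h1, by simpa using h2⟩

/-- The filter of the sets which contain the intersection of `ω₁` many dense open sets. -/
def Gn (R : Type) : Filter (Br R) where
  sets := {S | CM S}
  univ_sets := CM.of_DO DO.univ
  sets_of_superset := fun h h' => CM.mono h h'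
  inter_sets := fun h h' => CM.inter h h'

lemma mem_Gn {S : Set (Br R)} : S ∈ Gn R ↔ CM S := Iff.rfl

lemma ev_of_DO {p : Br R → Prop} (h : DO {G | p G}) : ∀ᶠ G in Gn R, p G := CM.of_DO h

lemma ev_all {p : Om → Br R → Prop} (h : ∀ i, ∀ᶠ G in Gn R, p i G) :
    ∀ᶠ G in Gn R, ∀ i, p i G := by
  have := CM.all (S := fun i => {G | p i G}) h
  refine this.mono fun G hG i => mem_iInter.1 hG i

lemma ev_all_of_surj {ι : Sort*} (f : Om → ι) (hf : Function.Surjective f) {p : ι → Br R → Prop}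
    (h : ∀ i, ∀ᶠ G in Gn R, p i G) : ∀ᶠ G in Gn R, ∀ i, p i G := by
  filter_upwards [ev_all (p := fun i => p (f i)) fun i => h (f i)] with G hG i
  obtain ⟨j, rfl⟩ := hf i
  exact hG j

lemma ev_all_countable {ι : Type*} [Countable ι] {p : ι → Br R → Prop}
    (h : ∀ i, ∀ᶠ G in Gn R, p i G) : ∀ᶠ G in Gn R, ∀ i, p i G := by
  rcases isEmpty_or_nonempty ι with hι | hι
  · exact Filter.Eventually.of_forall fun G i => (hι.false i).elim
  · obtain ⟨f, hf⟩ := Om.exists_surj ι
    exact ev_all_of_surj f hf h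

instance : CountableInterFilter (Gn R) where
  countable_sInter_mem := by
    intro S hS hmem
    have : Countable S := hS
    have h := ev_all_countable (R := R) (ι := S) (p := fun s G => G ∈ s.1) fun s => hmem s.1 s.2
    refine CM.mono h fun G hG => ?_
    exact fun s hs => hG ⟨s, hs⟩

lemma ev_all2 {p : Om → Om → Br R → Prop} (h : ∀ i j, ∀ᶠ G in Gn R, p i j G) :
    ∀ᶠ G in Gn R, ∀ i j, p i j G := ev_all fun i => ev_all fun j => h i j

/-- **Baire.** -/
theorem Gn.exists {p : Br R → Prop} (h : ∀ᶠ G in Gn R, p G) (G₀ : Br R) (δ₀ : Om) :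
    ∃ G, Agr G₀ G δ₀ ∧ p G := by
  classical
  obtain ⟨D, hD, hDp⟩ := h
  have : Inhabited (Br R × Om) := ⟨(G₀, δ₀)⟩
  obtain ⟨S, hS⟩ := Pool.Agent.Helper48.PS.exists_rec (I := Om) (X := Br R × Om)
    (fun a S d => (∀ b < a, (S b).2 ≤ d.2 ∧ Agr (S b).1 d.1 (S b).2) ∧
      (∀ H, Agr d.1 H d.2 → H ∈ D a) ∧ a < d.2 ∧ δ₀ ≤ d.2 ∧ Agr G₀ d.1 δ₀)
    (by
      rintro a S S' d h ⟨h1, h2⟩
      exact ⟨fun b hb => by rw [← h b hb]; exact h1 b hb, h2⟩)
    (by
      intro a S hS
      obtain ⟨ε, hε⟩ := Om.exists_gt_countable ((Om.countable_Iio a).image fun b => (S b).2)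
      let H : Br R := fun β => if h : ∃ b < a, β < (S b).2 then (S h.choose).1 β else G₀ β
      have hH : ∀ b < a, Agr (S b).1 H (S b).2 := by
        intro b hb β hβ
        have hex : ∃ b < a, β < (S b).2 := ⟨b, hb, hβ⟩
        have e : H β = (S hex.choose).1 β := dif_pos hex
        rw [e]
        obtain ⟨h1, h2⟩ := hex.choose_spec
        rcases lt_trichotomy hex.choose b with h | h | h
        · exact (((hS b hb).1 _ h).2 β h2).symm
        · rw [h]
        · exact ((hS _ h1).1 b h).2 β hβ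
      have hH0 : Agr G₀ H δ₀ := by
        intro β hβ
        by_cases hex : ∃ b < a, β < (S b).2
        · have e : H β = (S hex.choose).1 β := dif_pos hex
          rw [e]
          exact (hS _ hex.choose_spec.1).2.2.2.2 β hβ
        · exact dif_neg hex
      obtain ⟨ε', hε'⟩ := exists_gt (max ε δ₀)
      obtain ⟨K, hK, hHK⟩ := (hD a).2 H ε'
      obtain ⟨η, hη⟩ := (hD a).1 K hK
      obtain ⟨θ, hθ⟩ := exists_gt (max (max η ε') a)
      have t1 : ε' ≤ θ := ((le_max_right η ε').trans (le_max_left _ _)).trans hθ.le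
      have t2 : η ≤ θ := ((le_max_left η ε').trans (le_max_left _ _)).trans hθ.le
      have t3 : a < θ := (le_max_right _ _).trans_lt hθ
      have t4 : ε < ε' := (le_max_left _ _).trans_lt hε'
      have t5 : δ₀ < ε' := (le_max_right _ _).trans_lt hε'
      refine ⟨(K, θ), fun b hb => ⟨?_, ?_⟩, fun L hL => hη L (hL.mono t2), t3,
        t5.le.trans t1, ?_⟩
      · exact ((hε _ ⟨b, hb, rfl⟩).trans t4).le.trans t1
      · exact (hH b hb).trans (hHK.mono ((hε _ ⟨b, hb, rfl⟩).trans t4).le)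
      · exact hH0.trans (hHK.mono t5.le))
  let G : Br R := fun β => (S β).1 β
  have hG : ∀ a, Agr (S a).1 G (S a).2 := by
    intro a β hβ
    show (S β).1 β = (S a).1 β
    rcases lt_trichotomy a β with h | h | h
    · exact ((hS β).1 a h).2 β hβ
    · rw [h]
    · exact (((hS a).1 β h).2 β (hS β).2.2.1).symm
  refine ⟨G, ?_, hDp (mem_iInter.2 fun a => (hS a).2.1 G (hG a))⟩
  let a : Om := Classical.arbitrary Om
  exact (hS a).2.2.2.2.trans ((hG a).mono (hS a).2.2.2.1)

instance [Nonempty R] : (Gn R).NeBot := by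
  refine ⟨fun h => ?_⟩
  have h1 : ∀ᶠ G in Gn R, False := by rw [h]; exact Filter.eventually_bot
  obtain ⟨G, -, hG⟩ := Gn.exists h1 (fun _ => Classical.arbitrary R : Br R) (Classical.arbitrary Om)
  exact hG

/-- Parameters. -/
theorem ev_param {A : Type*} {Ψ : Br R → A} (hΨ : Loc Ψ) {p : A → Br R → Prop}
    (h : ∀ a, ∀ᶠ G in Gn R, p a G) : ∀ᶠ G in Gn R, p (Ψ G) G := by
  choose D hD hDp using h
  refine ⟨fun i => {G | G ∈ D (Ψ G) i}, fun i => ⟨?_, ?_⟩, fun G hG => ?_⟩
  · intro G hG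
    obtain ⟨δ, hδ⟩ := hΨ G
    obtain ⟨ε, hε⟩ := (hD (Ψ G) i).1 G hG
    refine ⟨max δ ε, fun H hH => ?_⟩
    rw [mem_setOf_eq, hδ H (hH.mono (le_max_left _ _))]
    exact hε H (hH.mono (le_max_right _ _))
  · intro G δ
    obtain ⟨ε, hε⟩ := hΨ G
    obtain ⟨H, hH, hGH⟩ := (hD (Ψ G) i).2 G (max δ ε)
    refine ⟨H, ?_, hGH.mono (le_max_left _ _)⟩
    rw [mem_setOf_eq, hε H (hGH.mono (le_max_right _ _))]
    exact hH
  · exact hDp (Ψ G) (mem_iInter.2 fun i => mem_iInter.1 hG i)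

/-- Generic functions take all values which are determined by initial segments. -/
theorem ev_mem_range {Ψ : Br R → R} (hΨ : Loc Ψ) : ∀ᶠ G in Gn R, ∃ α, G α = Ψ G := by
  classical
  refine ev_of_DO ⟨?_, ?_⟩
  · rintro G ⟨α, hα⟩
    obtain ⟨δ, hδ⟩ := hΨ G
    obtain ⟨ε, hε⟩ := exists_gt (max δ α)
    refine ⟨ε, fun H hH => ⟨α, ?_⟩⟩
    rw [hδ H (hH.mono ((le_max_left _ _).trans hε.le)), hH α ((le_max_right _ _).trans_lt hε), hα]
  · intro G δ
    obtain ⟨ε, hε⟩ := hΨ G
    let H : Br R := fun β => if β < max δ ε then G β else Ψ G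
    have hH : Agr G H (max δ ε) := fun β hβ => if_pos hβ
    refine ⟨H, ⟨max δ ε, ?_⟩, hH.mono (le_max_left _ _)⟩
    rw [hε H (hH.mono (le_max_right _ _))]
    exact if_neg (lt_irrefl _)

/-- All values of a ground model function are taken. -/
theorem ev_mem_range_const (r : R) : ∀ᶠ G in Gn R, ∃ α, G α = r := ev_mem_range (Loc.const r)

end Pool.Agent.SigF
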