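import Pool.Agent.Sc72.Defs

/-!
MP_42532c: some set of reals is productively Scheepers but not productively Menger, as a
statement of Boolean-valued third-order arithmetic (D. Scott, 1967).  `B` is a complete Boolean
algebra.  For a set `T` of the ground model a subset of `T` in the Boolean extension is a function
`T → B`; a set of such objects is a function `(T → B) → B` which respects the Boolean-valued
equality (`Pool.Agent.Sc72.Ext`); the truth values of formulas are computed with infima and
suprema.  For `B = Prop` all this is the usual meaning.  Real numbers are Dedekind cuts.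
-/

namespace Pool.Agent.SigF

open Pool.Agent.Sc72

variable {B : Type*} [CompleteBooleanAlgebra B]

/-- Truth value of: the set `x` of rational numbers is the set of all rational numbers smaller
than some real number. -/
def vReal (x : ℚ → B) : B :=
  (⨆ q, x q) ⊓ (⨆ q, (x q)ᶜ) ⊓
    ⨅ q, (x q ⇨ ⨆ r, ⨆ _ : q < r, x r) ⊓ ((⨆ r, ⨆ _ : q < r, x r) ⇨ x q)

/-- Truth value of: the real number `x` is in the open interval between `c.1` and `c.2`. -/
def vIvl (x : ℚ → B) (c : ℚ × ℚ) : B := x c.1 ⊓ ⨆ r, ⨆ _ : r < c.2, (x r)ᶜ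

/-- Truth value of: the point `p` of the plane is in the open box `c`. -/
def vBox (p : (ℚ → B) × (ℚ → B)) (c : (ℚ × ℚ) × (ℚ × ℚ)) : B := vIvl p.1 c.1 ⊓ vIvl p.2 c.2

section cover

variable {P C : Type*} (mem : P → C → B)

/-- Truth value of: for every `n`, the basic open sets `c` with `U (n, c)` cover `Z`.  Here `Z` is
a set of points; `mem p c` is the truth value of: the point `p` is in the basic open set `c`. -/
def vCovers (Z : P → B) (U : ℕ × C → B) : B := ⨅ p : P, Z p ⇨ ⨅ n : ℕ, ⨆ c : C, U (n, c) ⊓ mem p c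

/-- Truth value of: for every `n`, the set of all `c` with `F (n, c)` is a finite subset of the
set of all `c` with `U (n, c)`. -/
def vChoice (U F : ℕ × C → B) : B :=
  ⨅ n : ℕ, (⨅ c : C, F (n, c) ⇨ U (n, c)) ⊓ ⨆ s : Finset C, ⨅ c : C, ⨅ _ : c ∉ s, (F (n, c))ᶜ

/-- Truth value of: `Z` is Menger, that is, for every sequence of covers of `Z` by basic open sets
there are finite subsets which together cover `Z`. -/
def vMenger (Z : P → B) : B :=
  ⨅ U : ℕ × C → B, vCovers mem Z U ⇨ ⨆ F : ℕ × C → B, vChoice U F ⊓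
    ⨅ p : P, Z p ⇨ ⨆ n : ℕ, ⨆ c : C, F (n, c) ⊓ mem p c

/-- Truth value of: `Z` is Scheepers, that is, for every sequence of covers of `Z` by basic open
sets there are finite subsets such that every finite subset of `Z` is contained in the union of
one of them. -/
def vScheepers (Z : P → B) : B :=
  ⨅ U : ℕ × C → B, vCovers mem Z U ⇨ ⨆ F : ℕ × C → B, vChoice U F ⊓
    ⨅ k : ℕ, ⨅ p : Fin k → P, (⨅ i, Z (p i)) ⇨ ⨆ n : ℕ, ⨅ i, ⨆ c : C, F (n, c) ⊓ mem (p i) c

end cover

/-- Truth value of: all members of `X` are real numbers. -/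
def vSet (X : (ℚ → B) → B) : B := ⨅ x, X x ⇨ vReal x

/-- The product, a subset of the plane. -/
def vProd (X Y : (ℚ → B) → B) (p : (ℚ → B) × (ℚ → B)) : B := X p.1 ⊓ Y p.2

/-- Truth value of: `X × Y` is Menger for every Menger set of reals `Y`. -/
def vProdMenger (X : (ℚ → B) → B) : B :=
  ⨅ Y : {Y : (ℚ → B) → B // Ext Y}, vSet Y.1 ⊓ vMenger vIvl Y.1 ⇨ vMenger vBox (vProd X Y.1)

/-- Truth value of: `X × Y` is Scheepers for every Scheepers set of reals `Y`. -/
def vProdScheepers (X : (ℚ → B) → B) : B :=
  ⨅ Y : {Y : (ℚ → B) → B // Ext Y}, vSet Y.1 ⊓ vScheepers vIvl Y.1 ⇨ vScheepers vBox (vProd X Y.1)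

variable (B)

/-- Truth value of: some set of reals is productively Scheepers but not productively Menger. -/
def theta : B :=
  ⨆ X : {X : (ℚ → B) → B // Ext X}, vSet X.1 ⊓ vProdScheepers X.1 ⊓ (vProdMenger X.1)ᶜ

end Pool.Agent.SigF
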